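import Pool.Agent.Lib.MP_491b55_lc.Defs

/-!
# Uniformly definable predicates
-/

set_option autoImplicit false

open FirstOrder FirstOrder.Language

namespace Pool.Agent.Lib.MP_491b55_lc

/-- A predicate on structures with an assignment which is given by one formula. -/
def UDef (L : FirstOrder.Language.{0, 0}) {α : Type}
    (p : ∀ (M : Type) [L.Structure M], (α → M) → Prop) : Prop :=
  ∃ φ : L.Formula α, ∀ (M : Type) [L.Structure M] (v : α → M), φ.Realize v ↔ p M v

namespace UDef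

variable {L : FirstOrder.Language.{0, 0}} {α β : Type}

theorem const (P : Prop) : UDef L (α := α) fun _ _ _ => P := by
  by_cases h : P
  · exact ⟨⊤, fun M _ v => by simp [h]⟩
  · exact ⟨⊥, fun M _ v => by simp [h]⟩

theorem not {p : ∀ (M : Type) [L.Structure M], (α → M) → Prop} (hp : UDef L p) :
    UDef L fun M _ v => ¬ p M v := by
  obtain ⟨φ, hφ⟩ := hp
  exact ⟨∼φ, fun M _ v => by rw [Formula.realize_not, hφ]⟩

theorem imp {p q : ∀ (M : Type) [L.Structure M], (α → M) → Prop} (hp : UDef L p)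
    (hq : UDef L q) : UDef L fun M _ v => p M v → q M v := by
  obtain ⟨φ, hφ⟩ := hp
  obtain ⟨ψ, hψ⟩ := hq
  exact ⟨φ.imp ψ, fun M _ v => by rw [Formula.realize_imp, hφ, hψ]⟩

theorem and {p q : ∀ (M : Type) [L.Structure M], (α → M) → Prop} (hp : UDef L p)
    (hq : UDef L q) : UDef L fun M _ v => p M v ∧ q M v := by
  obtain ⟨φ, hφ⟩ := hp
  obtain ⟨ψ, hψ⟩ := hq
  exact ⟨φ ⊓ ψ, fun M _ v => by rw [Formula.realize_inf, hφ, hψ]⟩

theorem iff {p q : ∀ (M : Type) [L.Structure M], (α → M) → Prop} (hp : UDef L p)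
    (hq : UDef L q) : UDef L fun M _ v => (p M v ↔ q M v) := by
  obtain ⟨φ, hφ⟩ := hp
  obtain ⟨ψ, hψ⟩ := hq
  exact ⟨φ.iff ψ, fun M _ v => by rw [Formula.realize_iff, hφ, hψ]⟩

theorem fin {ι : Type} [Finite ι] {p : ι → ∀ (M : Type) [L.Structure M], (α → M) → Prop}
    (hp : ∀ i, UDef L (p i)) : UDef L fun M _ v => ∀ i, p i M v := by
  choose φ hφ using hp
  exact ⟨Formula.iInf φ, fun M _ v => by
    rw [Formula.realize_iInf]
    exact forall_congr' fun i => hφ i M v⟩

theorem exs {ι : Type} [Finite ι] {p : ∀ (M : Type) [L.Structure M], (α → M) → (ι → M) → Prop}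
    (hp : UDef L (α := α ⊕ ι) fun M _ w => p M (fun i => w (.inl i)) fun i => w (.inr i)) :
    UDef L fun M _ v => ∃ x : ι → M, p M v x := by
  obtain ⟨φ, hφ⟩ := hp
  exact ⟨φ.iExs ι, fun M _ v => by
    rw [Formula.realize_iExs]
    exact exists_congr fun x => hφ M _⟩

theorem alls {ι : Type} [Finite ι] {p : ∀ (M : Type) [L.Structure M], (α → M) → (ι → M) → Prop}
    (hp : UDef L (α := α ⊕ ι) fun M _ w => p M (fun i => w (.inl i)) fun i => w (.inr i)) :
    UDef L fun M _ v => ∀ x : ι → M, p M v x := by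
  obtain ⟨φ, hφ⟩ := hp
  exact ⟨φ.iAlls ι, fun M _ v => by
    rw [Formula.realize_iAlls]
    exact forall_congr' fun x => hφ M _⟩

theorem ex {p : ∀ (M : Type) [L.Structure M], (α → M) → M → Prop}
    (hp : UDef L (α := α ⊕ Unit) fun M _ w => p M (fun i => w (.inl i)) (w (.inr ()))) :
    UDef L fun M _ v => ∃ x : M, p M v x := by
  obtain ⟨φ, hφ⟩ := exs (p := fun M _ v (x : Unit → M) => p M v (x ())) hp
  refine ⟨φ, fun M _ v => (hφ M v).trans ⟨fun ⟨x, h⟩ => ⟨x (), h⟩, fun ⟨x, h⟩ => ⟨fun _ => x, h⟩⟩⟩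

theorem all {p : ∀ (M : Type) [L.Structure M], (α → M) → M → Prop}
    (hp : UDef L (α := α ⊕ Unit) fun M _ w => p M (fun i => w (.inl i)) (w (.inr ()))) :
    UDef L fun M _ v => ∀ x : M, p M v x := by
  obtain ⟨φ, hφ⟩ := alls (p := fun M _ v (x : Unit → M) => p M v (x ())) hp
  refine ⟨φ, fun M _ v => (hφ M v).trans ⟨fun h x => h fun _ => x, fun h x => h (x ())⟩⟩

theorem formula (φ : L.Formula β) (g : β → α) : UDef L fun M _ (v : α → M) =>
    φ.Realize fun i => v (g i) :=
  ⟨φ.relabel g, fun M _ v => by rw [Formula.realize_relabel]; rfl⟩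

theorem relabel {p : ∀ (M : Type) [L.Structure M], (β → M) → Prop} (hp : UDef L p) (g : β → α) :
    UDef L fun M _ (v : α → M) => p M fun i => v (g i) := by
  obtain ⟨φ, hφ⟩ := hp
  exact ⟨φ.relabel g, fun M _ v => by rw [Formula.realize_relabel]; exact hφ M _⟩

theorem eq (i j : α) : UDef L fun M _ (v : α → M) => v i = v j :=
  ⟨Term.equal (Term.var i) (Term.var j), fun M _ v => by
    rw [Formula.realize_equal]; rfl⟩

theorem rel {n : ℕ} (R : L.Relations n) (g : Fin n → α) : UDef L fun M _ (v : α → M) =>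
    Structure.RelMap R fun i => v (g i) :=
  ⟨R.formula fun i => Term.var (g i), fun M _ v => by
    rw [Formula.realize_rel]; rfl⟩

theorem formula2 (φ : L.Formula (Fin 2)) (i j : α) : UDef L fun M _ (v : α → M) =>
    φ.Realize ![v i, v j] := by
  obtain ⟨ψ, hψ⟩ := formula φ ![i, j]
  refine ⟨ψ, fun M _ v => (hψ M v).trans ?_⟩
  have : (fun k => v (![i, j] k)) = ![v i, v j] := by
    funext k
    fin_cases k <;> rfl
  show (φ.Realize fun k => v (![i, j] k)) ↔ φ.Realize ![v i, v j]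
  rw [this]

theorem formula1 (φ : L.Formula (Fin 1)) (i : α) : UDef L fun M _ (v : α → M) =>
    φ.Realize ![v i] := by
  obtain ⟨ψ, hψ⟩ := formula φ ![i]
  refine ⟨ψ, fun M _ v => (hψ M v).trans ?_⟩
  have : (fun k => v (![i] k)) = ![v i] := by
    funext k
    fin_cases k; rfl
  show (φ.Realize fun k => v (![i] k)) ↔ φ.Realize ![v i]
  rw [this]

theorem congr {p q : ∀ (M : Type) [L.Structure M], (α → M) → Prop} (hp : UDef L p)
    (h : ∀ (M : Type) [L.Structure M] (v : α → M), p M v ↔ q M v) : UDef L q := by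
  obtain ⟨φ, hφ⟩ := hp
  exact ⟨φ, fun M _ v => (hφ M v).trans (h M v)⟩

/-- Elementary embeddings preserve uniformly definable predicates. -/
theorem transfer {p : ∀ (M : Type) [L.Structure M], (α → M) → Prop} (hp : UDef L p)
    {N M : Type} [L.Structure N] [L.Structure M] (i : N ↪ₑ[L] M) (v : α → N) :
    p N v ↔ p M (fun j => i (v j)) := by
  obtain ⟨φ, hφ⟩ := hp
  rw [← hφ, ← hφ]
  exact (i.map_formula φ v).symm

/-- Models of a complete theory satisfy the same uniformly definable statements. -/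
theorem of_model {p : ∀ (M : Type) [L.Structure M], (Empty → M) → Prop} (hp : UDef L p)
    {S : Type} [L.Structure S] {M : Type} [L.Structure M] (hM : M ⊨ L.completeTheory S)
    (h : p S default) : p M default := by
  obtain ⟨φ, hφ⟩ := hp
  rw [← hφ]
  have h1 : S ⊨ (φ : L.Sentence) := (hφ S default).2 h
  have h2 : φ ∈ L.completeTheory S := h1
  exact hM.realize_of_mem φ h2

end UDef

end Pool.Agent.Lib.MP_491b55_lc
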