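import Pool.Agent.Lib.MP_491b55_lc.UDef

/-!
# Structures with binary relations
-/

set_option autoImplicit false

open FirstOrder FirstOrder.Language

namespace Pool.Agent.Lib.MP_491b55_lc

/-- Binary relation symbols indexed by `I`. -/
inductive BRel (I : Type) : ℕ → Type
  | r : I → BRel I 2

/-- The language with binary relation symbols indexed by `I`. -/
abbrev LB (I : Type) : FirstOrder.Language.{0, 0} := ⟨fun _ => Empty, BRel I⟩

variable {I : Type}

/-- The relations of a structure. -/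
def W {M : Type} [(LB I).Structure M] (r : I) (x y : M) : Prop :=
  Structure.RelMap (L := LB I) (BRel.r r : (LB I).Relations 2) ![x, y]

/-- The structure given by relations. -/
@[instance_reducible]
def brStr {M : Type} (w : I → M → M → Prop) : (LB I).Structure M where
  funMap := fun f => f.elim
  RelMap := fun {_} r x => match r, x with
    | .r i, x => w i (x 0) (x 1)

theorem uW {α : Type} (r : I) (i j : α) :
    UDef (LB I) fun M _ (v : α → M) => W r (v i) (v j) := by
  refine (UDef.rel (L := LB I) (BRel.r r : (LB I).Relations 2) ![i, j]).congr fun M _ v => ?_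
  have : (fun k => v (![i, j] k)) = ![v i, v j] := by
    funext k
    fin_cases k <;> rfl
  rw [this]
  rfl

theorem term_eq {β : Type} (t : (LB I).Term β) : ∃ i, t = Term.var i := by
  cases t with
  | var i => exact ⟨i, rfl⟩
  | func f _ => exact f.elim

/-- Two assignments have the same atomic diagram with respect to the relations in `J`. -/
def Sim {M : Type} [(LB I).Structure M] {ι : Type} (J : Set I) (u u' : ι → M) : Prop :=
  (∀ s t, u s = u t ↔ u' s = u' t) ∧ ∀ r ∈ J, ∀ s t, W r (u s) (u t) ↔ W r (u' s) (u' t)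

/-- The back-and-forth property. -/
def BF (J : Set I) (M : Type) [(LB I).Structure M] : Prop :=
  ∀ (ι : Type) [Finite ι] (u u' : ι → M), Sim J u u' → ∀ x, ∃ y,
    (∀ s, u s = x ↔ u' s = y) ∧ ∀ r ∈ J, (W r x x ↔ W r y y) ∧
      ∀ s, (W r x (u s) ↔ W r y (u' s)) ∧ (W r (u s) x ↔ W r (u' s) y)

theorem sim_extend {M : Type} [(LB I).Structure M] {J : Set I} {α : Type} {n : ℕ}
    {v w : α → M} {xs ys : Fin n → M} (h : Sim J (Sum.elim v xs) (Sum.elim w ys)) {x y : M}
    (h1 : ∀ s, Sum.elim v xs s = x ↔ Sum.elim w ys s = y)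
    (h2 : ∀ r ∈ J, (W r x x ↔ W r y y) ∧
      ∀ s, (W r x (Sum.elim v xs s) ↔ W r y (Sum.elim w ys s)) ∧
        (W r (Sum.elim v xs s) x ↔ W r (Sum.elim w ys s) y)) :
    Sim J (Sum.elim v (Fin.snoc xs x : Fin (n + 1) → M))
      (Sum.elim w (Fin.snoc ys y : Fin (n + 1) → M)) := by
  have key : ∀ s : α ⊕ Fin (n + 1),
      (∃ s' : α ⊕ Fin n, Sum.elim v (Fin.snoc xs x : Fin (n + 1) → M) s = Sum.elim v xs s' ∧
        Sum.elim w (Fin.snoc ys y : Fin (n + 1) → M) s = Sum.elim w ys s') ∨
      (Sum.elim v (Fin.snoc xs x : Fin (n + 1) → M) s = x ∧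
        Sum.elim w (Fin.snoc ys y : Fin (n + 1) → M) s = y) := by
    rintro (s | s)
    · exact Or.inl ⟨Sum.inl s, rfl, rfl⟩
    · refine Fin.lastCases ?_ (fun s => ?_) s
      · right
        exact ⟨by simp, by simp⟩
      · left
        exact ⟨Sum.inr s, by simp, by simp⟩
  constructor
  · intro s t
    rcases key s with ⟨s', h3, h4⟩ | ⟨h3, h4⟩ <;> rcases key t with ⟨t', h5, h6⟩ | ⟨h5, h6⟩ <;>
      rw [h3, h4, h5, h6]
    · exact h.1 _ _
    · exact h1 _
    · rw [eq_comm, h1, eq_comm]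
    · simp
  · intro r hr s t
    rcases key s with ⟨s', h3, h4⟩ | ⟨h3, h4⟩ <;> rcases key t with ⟨t', h5, h6⟩ | ⟨h5, h6⟩ <;>
      rw [h3, h4, h5, h6]
    · exact h.2 r hr _ _
    · exact ((h2 r hr).2 _).2
    · exact ((h2 r hr).2 _).1
    · exact (h2 r hr).1

/-- Elimination of quantifiers. -/
theorem qe {α : Type} [Finite α] {n : ℕ} (φ : (LB I).BoundedFormula α n) :
    ∃ K : Finset I, ∀ (M : Type) [(LB I).Structure M] (J : Set I), (K : Set I) ⊆ J → BF J M →
      ∀ (v w : α → M) (xs ys : Fin n → M), Sim J (Sum.elim v xs) (Sum.elim w ys) →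
        (φ.Realize v xs ↔ φ.Realize w ys) := by
  classical
  induction φ with
  | falsum => exact ⟨∅, fun M _ J _ _ v w xs ys _ => Iff.rfl⟩
  | equal t₁ t₂ =>
    obtain ⟨i, rfl⟩ := term_eq t₁
    obtain ⟨j, rfl⟩ := term_eq t₂
    exact ⟨∅, fun M _ J _ _ v w xs ys h => h.1 i j⟩
  | rel R ts =>
    cases R with
    | r r =>
      obtain ⟨i, hi⟩ := term_eq (ts 0)
      obtain ⟨j, hj⟩ := term_eq (ts 1)
      refine ⟨{r}, fun M _ J hJ _ v w xs ys h => ?_⟩
      have h1 : ∀ u : α ⊕ Fin _ → M, (fun k => (ts k).realize u) = ![u i, u j] := by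
        intro u
        funext k
        refine Fin.cases ?_ (fun k => ?_) k
        · rw [hi]; rfl
        · refine Fin.cases ?_ (fun k => k.elim0) k
          show (ts 1).realize u = _
          rw [hj]; rfl
      show Structure.RelMap (L := LB I) (BRel.r r : (LB I).Relations 2)
          (fun k => (ts k).realize (Sum.elim v xs)) ↔
        Structure.RelMap (L := LB I) (BRel.r r : (LB I).Relations 2)
          (fun k => (ts k).realize (Sum.elim w ys))
      rw [h1, h1]
      exact h.2 r (hJ (by simp)) i j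
  | imp φ ψ ih1 ih2 =>
    obtain ⟨K1, h1⟩ := ih1
    obtain ⟨K2, h2⟩ := ih2
    refine ⟨K1 ∪ K2, fun M _ J hJ hBF v w xs ys h => ?_⟩
    rw [Finset.coe_union, Set.union_subset_iff] at hJ
    rw [BoundedFormula.realize_imp, BoundedFormula.realize_imp,
      h1 M J hJ.1 hBF v w xs ys h, h2 M J hJ.2 hBF v w xs ys h]
  | all φ ih =>
    obtain ⟨K, h1⟩ := ih
    refine ⟨K, fun M _ J hJ hBF v w xs ys h => ?_⟩
    rw [BoundedFormula.realize_all, BoundedFormula.realize_all]
    constructor
    · intro h2 y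
      have hsym : Sim J (Sum.elim w ys) (Sum.elim v xs) :=
        ⟨fun s t => (h.1 s t).symm, fun r hr s t => (h.2 r hr s t).symm⟩
      obtain ⟨x, hx1, hx2⟩ := hBF _ _ _ hsym y
      exact (h1 M J hJ hBF w v _ _ (sim_extend hsym hx1 hx2)).2 (h2 x)
    · intro h2 x
      obtain ⟨y, hy1, hy2⟩ := hBF _ _ _ h x
      exact (h1 M J hJ hBF v w _ _ (sim_extend h hy1 hy2)).2 (h2 y)

/-- Elimination of quantifiers for formulas. -/
theorem qe_formula {α : Type} [Finite α] (φ : (LB I).Formula α) :
    ∃ K : Finset I, ∀ (M : Type) [(LB I).Structure M] (J : Set I), (K : Set I) ⊆ J → BF J M →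
      ∀ (v w : α → M), Sim J v w → (φ.Realize v ↔ φ.Realize w) := by
  obtain ⟨K, hK⟩ := qe φ
  refine ⟨K, fun M _ J hJ hBF v w h => hK M J hJ hBF v w default default ?_⟩
  constructor
  · rintro (s | s) (t | t)
    · exact h.1 s t
    all_goals first | exact s.elim0 | exact t.elim0
  · rintro r hr (s | s) (t | t)
    · exact h.2 r hr s t
    all_goals first | exact s.elim0 | exact t.elim0

end Pool.Agent.Lib.MP_491b55_lc
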