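import Pool.Agent.Lib.MP_491b55_lc.Compact

/-!
# Existence of a configuration satisfying all conditions
-/

set_option autoImplicit false

open FirstOrder FirstOrder.Language Set Filter

namespace Pool.Agent.Lib.MP_491b55_lc.Core

open Nm

variable {L : FirstOrder.Language.{0, 0}} {d : Data L} {T : L.Theory}

theorem exists_seq {N : Type} [L.Structure N] [Nonempty N] (hN : Base d T N) (X : Nm L → N)
    (ms : Finset (Nm L)) (B : ℕ) : ∃ a : ℕ → N,
      (∀ n < B, d.E n (a n) (a (n + 1)) ∧
        ∀ m ∈ ms, Lev n m → ¬ d.E (n + 1) (ev d a X m) (a (n + 1))) ∧ d.E B (a B) (a B) := by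
  classical
  induction B with
  | zero =>
    obtain ⟨x, hx⟩ := hN.E_ne
    exact ⟨fun _ => x, fun n hn => absurd hn (Nat.not_lt_zero n), hx⟩
  | succ B ih =>
    obtain ⟨a, ha, haB⟩ := ih
    obtain ⟨y, hy1, hy2, hy3⟩ := hN.E_split B (a B) haB ms.card
      fun i => ev d a X (ms.equivFin.symm i)
    let a' : ℕ → N := fun j => if j ≤ B then a j else y
    have haa : ∀ j ≤ B, a' j = a j := fun j hj => if_pos hj
    have hay : a' (B + 1) = y := if_neg (by omega)
    have hev : ∀ n ≤ B, ∀ m, Lev n m → ev d a' X m = ev d a X m := fun n hn m hm =>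
      ev_congr (fun j hj => haa j (hj.trans hn)) hm fun _ _ => rfl
    refine ⟨a', fun n hn => ?_, by rw [hay]; exact hy2⟩
    rcases Nat.lt_succ_iff_lt_or_eq.1 hn with h | rfl
    · rw [haa n h.le, haa (n + 1) h]
      refine ⟨(ha n h).1, fun m hm hl => ?_⟩
      rw [hev n h.le m hl]
      exact (ha n h).2 m hm hl
    · rw [haa n le_rfl, hay]
      refine ⟨hy1, fun m hm hl => ?_⟩
      rw [hev n le_rfl m hl]
      have := hy3 (ms.equivFin ⟨m, hm⟩)
      simpa using this

theorem exists_base_cfg {N : Type} [L.Structure N] [Nonempty N] (hN : Base d T N) :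
    ∃ c : Cfg d T, (∀ n, Holds c (.link n)) ∧ ∀ n m, Holds c (.avoid n m) := by
  classical
  obtain ⟨c, hc⟩ := compactness (d := d) (T := T)
    ({q | ∃ n, q = .link n} ∪ {q | ∃ n m, q = .avoid n m}) (by
      intro F hF
      let ms : Finset (Nm L) := F.biUnion fun q => match q with
        | .avoid _ m => {m}
        | _ => ∅
      let B : ℕ := F.sup fun q => match q with
        | .avoid n _ => n + 1
        | .link n => n + 1
        | _ => 0
      let X : Nm L → N := fun _ => Classical.arbitrary N
      obtain ⟨a, ha, -⟩ := exists_seq hN X ms B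
      refine ⟨{ N := N, base := hN, a := a, X := X }, fun q hq => ?_⟩
      rcases hF q hq with ⟨n, rfl⟩ | ⟨n, m, rfl⟩
      · have hB : n + 1 ≤ B := Finset.le_sup (f := fun q : Cond L => match q with
          | .avoid n _ => n + 1
          | .link n => n + 1
          | _ => 0) hq
        exact (ha n hB).1
      · have hB : n + 1 ≤ B := Finset.le_sup (f := fun q : Cond L => match q with
          | .avoid n _ => n + 1
          | .link n => n + 1
          | _ => 0) hq
        intro hl
        refine (ha n hB).2 m ?_ hl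
        exact Finset.mem_biUnion.2 ⟨_, hq, Finset.mem_singleton_self _⟩)
  exact ⟨c, fun n => hc _ (Or.inl ⟨n, rfl⟩), fun n m => hc _ (Or.inr ⟨n, m, rfl⟩)⟩

/-- Adding the value of one vertex name. -/
theorem step (c : Cfg d T) (hlink : ∀ n, Holds c (.link n)) (havoid : ∀ n m, Holds c (.avoid n m))
    (k : ℕ) (t : Fin k → Nm L) (f : Fin k → Prop) :
    ∃ c' : Cfg d T, (∀ n, Holds c' (.link n)) ∧ (∀ n m, Holds c' (.avoid n m)) ∧
      Holds c' (.sat k t f) ∧ ∀ (k' : ℕ) (t' : Fin k' → Nm L) (f' : Fin k' → Prop),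
        (Nm.x k' t' f' : Nm L) ≠ .x k t f → (∀ i, ¬ Occ (.x k t f) (t' i)) →
        Holds c (.sat k' t' f') → Holds c' (.sat k' t' f') := by
  classical
  obtain ⟨c', hc'⟩ := compactness (d := d) (T := T)
    (({q | ∃ n, q = .link n} ∪ {q | ∃ n m, q = .avoid n m}) ∪ ({.sat k t f} ∪
      {q | ∃ (k' : ℕ) (t' : Fin k' → Nm L) (f' : Fin k' → Prop), q = .sat k' t' f' ∧
        (Nm.x k' t' f' : Nm L) ≠ .x k t f ∧ (∀ i, ¬ Occ (.x k t f) (t' i)) ∧
        Holds c (.sat k' t' f')})) (by
      intro F hF
      let p : Nm L := .x k t f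
      let ms : ℕ → Finset (Nm L) := fun n => F.biUnion fun q => match q with
        | .avoid n' m => if n' = n ∧ Lev n m then {m} else ∅
        | _ => ∅
      have hms : ∀ n, ∀ m ∈ ms n, Lev n m := by
        intro n m hm
        obtain ⟨q, -, hq⟩ := Finset.mem_biUnion.1 hm
        cases q with
        | avoid n' m' =>
          simp only at hq
          split_ifs at hq with h
          · rw [Finset.mem_singleton] at hq
            rw [hq]; exact h.2
          · simp at hq
        | link _ => simp at hq
        | sat _ _ _ => simp at hq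
      choose lv hlv using fun s => exists_lev (t s)
      let M : ℕ := max (Finset.univ.sup lv) (F.sup fun q => match q with
        | .avoid n _ => n + 1
        | _ => 0)
      let K : ℕ → Set c.N := KK d c.a c.X
      have haK : ∀ n, c.a n ∈ K n := fun n => ⟨.a n, le_refl n, rfl⟩
      have havoid' : ∀ n, ∀ y ∈ K n, ¬ d.E (n + 1) y (c.a (n + 1)) := by
        rintro n y ⟨m, hm, rfl⟩
        exact havoid n m hm
      have hlink' : ∀ n, d.E n (c.a n) (c.a n) := fun n =>
        c.base.E_trans _ _ _ _ (hlink n) (c.base.E_symm _ _ _ (hlink n))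
      let G : ℕ → List (c.N → c.N) := fun n =>
        (ms n).toList.map fun m y => ev d c.a (Function.update c.X p y) m
      have hG : ∀ n, ∀ g ∈ G n, DefFun L (K n) g := by
        intro n g hg
        obtain ⟨m, hm, rfl⟩ := List.mem_map.1 hg
        exact defFun_ev c.base c.a c.X p n (hms n m (Finset.mem_toList.1 hm))
      -- evaluation of unaffected names
      have hun : ∀ (y : c.N) (m : Nm L), ¬ Occ p m →
          ev d c.a (Function.update c.X p y) m = ev d c.a c.X m := by
        intro y m hm
        obtain ⟨n, hn⟩ := exists_lev m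
        refine ev_congr (fun _ _ => rfl) hn fun q hq => Function.update_of_ne ?_ _ _
        rintro rfl
        exact hm hq
      have hgood : ∃ x : c.N, ((∀ s, d.V (ev d c.a c.X (t s))) →
          (∀ s s', f s → ¬ f s' → ¬ d.Q (ev d c.a c.X (t s)) (ev d c.a c.X (t s'))) →
          d.V x ∧ ∀ s, (d.R x (ev d c.a c.X (t s)) ↔ f s) ∧ ¬ d.Q x (ev d c.a c.X (t s))) ∧
          ∀ n < M, ∀ g ∈ G n, ¬ d.E (n + 1) (g x) (c.a (n + 1)) := by
        by_cases hhyp : (∀ s, d.V (ev d c.a c.X (t s))) ∧
          (∀ s s', f s → ¬ f s' → ¬ d.Q (ev d c.a c.X (t s)) (ev d c.a c.X (t s')))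
        · obtain ⟨x, h1, h2, h3⟩ := lemmaA c.base K (KK_mono c.a c.X) (KK_meets c.base c.a c.X)
            c.a haK havoid' hlink' M (Fin k) (fun s => ev d c.a c.X (t s)) f (fun s => by
              refine KK_mono c.a c.X ?_ ⟨t s, hlv s, rfl⟩
              exact (Finset.le_sup (Finset.mem_univ s)).trans (le_max_left _ _))
            hhyp.1 hhyp.2 G hG
          exact ⟨x, fun _ _ => ⟨h1, h2⟩, h3⟩
        · obtain ⟨x, h1, h2, h3⟩ := lemmaA c.base K (KK_mono c.a c.X) (KK_meets c.base c.a c.X)
            c.a haK havoid' hlink' M (Fin 0) Fin.elim0 Fin.elim0 (fun s => s.elim0)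
            (fun s => s.elim0) (fun s => s.elim0) G hG
          exact ⟨x, fun h4 h5 => absurd ⟨h4, h5⟩ hhyp, h3⟩
      obtain ⟨x, hx1, hx2⟩ := hgood
      refine ⟨{ N := c.N, base := c.base, a := c.a, X := Function.update c.X p x },
        fun q hq => ?_⟩
      rcases hF q hq with (⟨n, rfl⟩ | ⟨n, m, rfl⟩) | (rfl | ⟨k', t', f', rfl, h1, h2, h3⟩)
      · exact hlink n
      · intro hl
        have hB : n + 1 ≤ M := (Finset.le_sup (f := fun q : Cond L => match q with
          | .avoid n _ => n + 1
          | _ => 0) hq).trans (le_max_right _ _)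
        refine hx2 n hB (fun y => ev d c.a (Function.update c.X p y) m) ?_
        refine List.mem_map.2 ⟨m, Finset.mem_toList.2 (Finset.mem_biUnion.2 ⟨_, hq, ?_⟩), rfl⟩
        show m ∈ (if n = n ∧ Lev n m then {m} else ∅ : Finset (Nm L))
        rw [if_pos ⟨rfl, hl⟩]
        exact Finset.mem_singleton_self _
      · show (∀ s, d.V (ev d c.a (Function.update c.X p x) (t s))) →
          (∀ s s', f s → ¬ f s' → ¬ d.Q (ev d c.a (Function.update c.X p x) (t s))
            (ev d c.a (Function.update c.X p x) (t s'))) →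
          d.V (Function.update c.X p x (.x k t f)) ∧
            ∀ s, (d.R (Function.update c.X p x (.x k t f))
              (ev d c.a (Function.update c.X p x) (t s)) ↔ f s) ∧
            ¬ d.Q (Function.update c.X p x (.x k t f))
              (ev d c.a (Function.update c.X p x) (t s))
        have h4 : ∀ s, ev d c.a (Function.update c.X p x) (t s) = ev d c.a c.X (t s) :=
          fun s => hun x (t s) (not_occ t f s)
        have h5 : Function.update c.X p x (.x k t f) = x := Function.update_self _ _ _
        simp only [h4, h5]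
        exact hx1
      · show (∀ s, d.V (ev d c.a (Function.update c.X p x) (t' s))) →
          (∀ s s', f' s → ¬ f' s' → ¬ d.Q (ev d c.a (Function.update c.X p x) (t' s))
            (ev d c.a (Function.update c.X p x) (t' s'))) →
          d.V (Function.update c.X p x (.x k' t' f')) ∧
            ∀ s, (d.R (Function.update c.X p x (.x k' t' f'))
              (ev d c.a (Function.update c.X p x) (t' s)) ↔ f' s) ∧
            ¬ d.Q (Function.update c.X p x (.x k' t' f'))
              (ev d c.a (Function.update c.X p x) (t' s))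
        have h4 : ∀ s, ev d c.a (Function.update c.X p x) (t' s) = ev d c.a c.X (t' s) :=
          fun s => hun x (t' s) (h2 s)
        have h5 : Function.update c.X p x (.x k' t' f') = c.X (.x k' t' f') :=
          Function.update_of_ne h1 _ _
        simp only [h4, h5]
        exact h3)
  refine ⟨c', fun n => hc' _ (Or.inl (Or.inl ⟨n, rfl⟩)),
    fun n m => hc' _ (Or.inl (Or.inr ⟨n, m, rfl⟩)), hc' _ (Or.inr (Or.inl rfl)), ?_⟩
  intro k' t' f' h1 h2 h3
  exact hc' _ (Or.inr (Or.inr ⟨k', t', f', rfl, h1, h2, h3⟩))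

/-- Finitely many satisfaction conditions. -/
theorem exists_finite_cfg {N : Type} [L.Structure N] [Nonempty N] (hN : Base d T N) :
    ∀ (n : ℕ) (P : Finset (Nm L)), P.card = n → ∃ c : Cfg d T, (∀ n, Holds c (.link n)) ∧
      (∀ n m, Holds c (.avoid n m)) ∧ ∀ (k : ℕ) (t : Fin k → Nm L) (f : Fin k → Prop),
        (Nm.x k t f : Nm L) ∈ P → Holds c (.sat k t f) := by
  classical
  intro n
  induction n with
  | zero =>
    intro P hP
    obtain ⟨c, h1, h2⟩ := exists_base_cfg hN
    rw [Finset.card_eq_zero] at hP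
    subst hP
    exact ⟨c, h1, h2, fun k t f h => absurd h (Finset.notMem_empty _)⟩
  | succ n ih =>
    intro P hP
    have hne : P.Nonempty := by
      rw [← Finset.card_pos, hP]; omega
    obtain ⟨p, hp, hmax⟩ := Finset.exists_max_image P rk hne
    obtain ⟨c, h1, h2, h3⟩ := ih (P.erase p) (by rw [Finset.card_erase_of_mem hp, hP]; rfl)
    by_cases hpx : ∃ (k : ℕ) (t : Fin k → Nm L) (f : Fin k → Prop), p = .x k t f
    · obtain ⟨k, t, f, rfl⟩ := hpx
      obtain ⟨c', h1', h2', h3', h4'⟩ := step c h1 h2 k t f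
      refine ⟨c', h1', h2', fun k' t' f' hq => ?_⟩
      by_cases heq : (Nm.x k' t' f' : Nm L) = .x k t f
      · cases heq
        exact h3'
      · refine h4' k' t' f' heq (fun i hocc => ?_) (h3 k' t' f' (Finset.mem_erase.2 ⟨heq, hq⟩))
        have h5 := hocc.rk_le
        have h6 := rk_lt t' f' i
        have h7 := hmax _ hq
        omega
    · refine ⟨c, h1, h2, fun k' t' f' hq => h3 k' t' f' (Finset.mem_erase.2 ⟨?_, hq⟩)⟩
      rintro rfl
      exact hpx ⟨_, _, _, rfl⟩

/-- A configuration satisfying all conditions. -/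
theorem exists_cfg {N : Type} [L.Structure N] [Nonempty N] (hN : Base d T N) :
    ∃ c : Cfg d T, ∀ q, Holds c q := by
  classical
  obtain ⟨c, hc⟩ := compactness (d := d) (T := T) Set.univ (by
    intro F _
    obtain ⟨c, h1, h2, h3⟩ := exists_finite_cfg hN _ (F.biUnion fun q => match q with
      | .sat k t f => {Nm.x k t f}
      | _ => ∅) rfl
    refine ⟨c, fun q hq => ?_⟩
    cases q with
    | link n => exact h1 n
    | avoid n m => exact h2 n m
    | sat k t f => exact h3 k t f (Finset.mem_biUnion.2 ⟨_, hq, Finset.mem_singleton_self _⟩))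
  exact ⟨c, fun q => hc q trivial⟩

end Pool.Agent.Lib.MP_491b55_lc.Core
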