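import Pool.Agent.Lib.MP_491b55_lc.Names

/-!
# Ultraproducts of configurations
-/

set_option autoImplicit false

open FirstOrder FirstOrder.Language Set Filter

namespace Pool.Agent.Lib.MP_491b55_lc.Core

open Nm

variable {L : FirstOrder.Language.{0, 0}} {d : Data L} {T : L.Theory}

section ultra

variable {I : Type} (𝒰 : Ultrafilter I) (N : I → Type) [∀ i, L.Structure (N i)]
  [∀ i, Nonempty (N i)]

/-- The ultraproduct. -/
abbrev U : Type := (𝒰 : Filter I).Product N

variable {𝒰 N}

/-- The class of a family. -/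
def toU (x : ∀ i, N i) : U 𝒰 N := (x : U 𝒰 N)

theorem exists_toU (y : U 𝒰 N) : ∃ x : ∀ i, N i, y = toU x := by
  obtain ⟨x, hx⟩ := Quotient.exists_rep y
  exact ⟨x, hx.symm⟩

theorem toU_eq {x y : ∀ i, N i} (h : ∀ᶠ i in (𝒰 : Filter I), x i = y i) :
    (toU x : U 𝒰 N) = toU y := Quotient.sound h

theorem realize_toU {β : Type} (φ : L.Formula β) (x : β → ∀ i, N i) :
    (φ.Realize fun b => (toU (x b) : U 𝒰 N)) ↔
      ∀ᶠ i in (𝒰 : Filter I), φ.Realize fun b => x b i :=
  Ultraproduct.realize_formula_cast φ x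

theorem realize2_toU (φ : L.Formula (Fin 2)) (x y : ∀ i, N i) :
    φ.Realize ![(toU x : U 𝒰 N), toU y] ↔ ∀ᶠ i in (𝒰 : Filter I), φ.Realize ![x i, y i] := by
  have e : ![(toU x : U 𝒰 N), toU y] = fun b => toU ((![x, y] : Fin 2 → ∀ i, N i) b) := by
    funext b
    fin_cases b <;> rfl
  rw [e, realize_toU]
  refine eventually_congr (Eventually.of_forall fun i => ?_)
  have : (fun b => (![x, y] : Fin 2 → ∀ i, N i) b i) = ![x i, y i] := by
    funext b
    fin_cases b <;> rfl
  rw [this]

theorem realize1_toU (φ : L.Formula (Fin 1)) (x : ∀ i, N i) :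
    φ.Realize ![(toU x : U 𝒰 N)] ↔ ∀ᶠ i in (𝒰 : Filter I), φ.Realize ![x i] := by
  have e : ![(toU x : U 𝒰 N)] = fun b => toU ((![x] : Fin 1 → ∀ i, N i) b) := by
    funext b
    fin_cases b
    rfl
  rw [e, realize_toU]
  refine eventually_congr (Eventually.of_forall fun i => ?_)
  have : (fun b => (![x] : Fin 1 → ∀ i, N i) b i) = ![x i] := by
    funext b
    fin_cases b
    rfl
  rw [this]

theorem realizeS_toU {k : ℕ} (φ : L.Formula (Fin k ⊕ Unit)) (v : Fin k → ∀ i, N i)
    (y : ∀ i, N i) :
    φ.Realize (Sum.elim (fun j => (toU (v j) : U 𝒰 N)) fun _ => toU y) ↔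
      ∀ᶠ i in (𝒰 : Filter I), φ.Realize (Sum.elim (fun j => v j i) fun _ => y i) := by
  have e : (Sum.elim (fun j => (toU (v j) : U 𝒰 N)) fun _ : Unit => toU y) =
      fun b => toU ((Sum.elim v fun _ => y : Fin k ⊕ Unit → ∀ i, N i) b) := by
    funext b
    rcases b with b | b <;> rfl
  rw [e, realize_toU]
  refine eventually_congr (Eventually.of_forall fun i => ?_)
  have : (fun b => (Sum.elim v (fun _ : Unit => y) : Fin k ⊕ Unit → ∀ i, N i) b i) =
      Sum.elim (fun j => v j i) fun _ => y i := by
    funext b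
    rcases b with b | b <;> rfl
  rw [this]

/-- The base properties pass to ultraproducts. -/
theorem Base.ultra (hN : ∀ i, Base d T (N i)) : Base d T (U 𝒰 N) where
  model := by
    rw [Theory.model_iff]
    intro φ hφ
    rw [Ultraproduct.sentence_realize]
    exact Eventually.of_forall fun i => (Theory.model_iff _).1 (hN i).model φ hφ
  sk_unique := fun k φ v => by
    choose v' hv' using fun j => exists_toU (v j)
    obtain rfl : v = fun j => toU (v' j) := funext hv'
    refine ⟨toU fun i => sk d k φ fun j => v' j i, ?_, ?_⟩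
    · show (d.σ k φ).Realize (Sum.elim (fun j => (toU (v' j) : U 𝒰 N)) fun _ => toU _)
      rw [realizeS_toU]
      exact Eventually.of_forall fun i => sk_realize (hN i) k φ _
    · intro y hy
      obtain ⟨y, rfl⟩ := exists_toU y
      have hy := (realizeS_toU (d.σ k φ) v' y).1 hy
      apply toU_eq
      filter_upwards [hy] with i hi
      exact (sk_eq (hN i) hi).symm
  sk_spec := fun k φ v z y hz hy => by
    choose v' hv' using fun j => exists_toU (v j)
    obtain rfl : v = fun j => toU (v' j) := funext hv'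
    obtain ⟨y, rfl⟩ := exists_toU y
    obtain ⟨z, rfl⟩ := exists_toU z
    rw [realizeS_toU] at hz hy ⊢
    filter_upwards [hz, hy] with i h1 h2
    exact (hN i).sk_spec k φ _ _ _ h1 h2
  E_symm := fun n x y h => by
    obtain ⟨x, rfl⟩ := exists_toU x
    obtain ⟨y, rfl⟩ := exists_toU y
    unfold Data.E at h ⊢
    rw [realize2_toU] at h ⊢
    filter_upwards [h] with i hi
    exact (hN i).E_symm n _ _ hi
  E_trans := fun n x y z h h' => by
    obtain ⟨x, rfl⟩ := exists_toU x
    obtain ⟨y, rfl⟩ := exists_toU y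
    obtain ⟨z, rfl⟩ := exists_toU z
    unfold Data.E at h h' ⊢
    rw [realize2_toU] at h h' ⊢
    filter_upwards [h, h'] with i hi hi'
    exact (hN i).E_trans n _ _ _ hi hi'
  E_mono := fun n x y h => by
    obtain ⟨x, rfl⟩ := exists_toU x
    obtain ⟨y, rfl⟩ := exists_toU y
    unfold Data.E at h ⊢
    rw [realize2_toU] at h ⊢
    filter_upwards [h] with i hi
    exact (hN i).E_mono n _ _ hi
  E_ne := by
    choose x hx using fun i => (hN i).E_ne
    refine ⟨toU x, ?_⟩
    unfold Data.E
    rw [realize2_toU]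
    exact Eventually.of_forall hx
  E_split := fun n x hx k F => by
    classical
    obtain ⟨x, rfl⟩ := exists_toU x
    choose F' hF' using fun j => exists_toU (F j)
    obtain rfl : F = fun j => toU (F' j) := funext hF'
    unfold Data.E at hx
    rw [realize2_toU] at hx
    have hch : ∀ i, ∃ y : N i, d.E n (x i) (x i) → (d.E n (x i) y ∧ d.E (n + 1) y y ∧
        ∀ j, ¬ d.E (n + 1) (F' j i) y) := by
      intro i
      by_cases h : d.E n (x i) (x i)
      · obtain ⟨y, hy⟩ := (hN i).E_split n (x i) h k fun j => F' j i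
        exact ⟨y, fun _ => hy⟩
      · exact ⟨x i, fun h' => absurd h' h⟩
    choose y hy using hch
    refine ⟨toU y, ?_, ?_, fun j => ?_⟩
    · unfold Data.E
      rw [realize2_toU]
      filter_upwards [hx] with i hi
      exact (hy i hi).1
    · unfold Data.E
      rw [realize2_toU]
      filter_upwards [hx] with i hi
      exact (hy i hi).2.1
    · unfold Data.E
      rw [realize2_toU, ← Ultrafilter.eventually_not]
      filter_upwards [hx] with i hi
      exact (hy i hi).2.2 j
  Q_refl := fun x hx => by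
    obtain ⟨x, rfl⟩ := exists_toU x
    unfold Data.V at hx
    unfold Data.Q
    rw [realize1_toU] at hx
    rw [realize2_toU]
    filter_upwards [hx] with i hi
    exact (hN i).Q_refl _ hi
  Q_dom := fun x y h => by
    obtain ⟨x, rfl⟩ := exists_toU x
    obtain ⟨y, rfl⟩ := exists_toU y
    unfold Data.Q at h
    unfold Data.V
    rw [realize2_toU] at h
    rw [realize1_toU]
    filter_upwards [h] with i hi
    exact (hN i).Q_dom _ _ hi
  Q_symm := fun x y h => by
    obtain ⟨x, rfl⟩ := exists_toU x
    obtain ⟨y, rfl⟩ := exists_toU y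
    unfold Data.Q at h ⊢
    rw [realize2_toU] at h ⊢
    filter_upwards [h] with i hi
    exact (hN i).Q_symm _ _ hi
  Q_trans := fun x y z h h' => by
    obtain ⟨x, rfl⟩ := exists_toU x
    obtain ⟨y, rfl⟩ := exists_toU y
    obtain ⟨z, rfl⟩ := exists_toU z
    unfold Data.Q at h h' ⊢
    rw [realize2_toU] at h h' ⊢
    filter_upwards [h, h'] with i hi hi'
    exact (hN i).Q_trans _ _ _ hi hi'
  ext := fun k c f hV hf => by
    classical
    choose c' hc' using fun j => exists_toU (c j)
    obtain rfl : c = fun j => toU (c' j) := funext hc'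
    have hV' : ∀ᶠ i in (𝒰 : Filter I), ∀ s, d.V (c' s i) := by
      rw [eventually_all]
      intro s
      have := hV s
      unfold Data.V at this
      rwa [realize1_toU] at this
    have hf' : ∀ᶠ i in (𝒰 : Filter I), ∀ s t, f s → ¬ f t → ¬ d.Q (c' s i) (c' t i) := by
      rw [eventually_all]
      intro s
      rw [eventually_all]
      intro t
      by_cases h1 : f s
      · by_cases h2 : f t
        · exact Eventually.of_forall fun i _ h => absurd h2 h
        · have := hf s t h1 h2
          unfold Data.Q at this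
          rw [realize2_toU, ← Ultrafilter.eventually_not] at this
          filter_upwards [this] with i hi _ _
          exact hi
      · exact Eventually.of_forall fun i h => absurd h h1
    have hch : ∀ i, ∃ x : N i, (∀ s, d.V (c' s i)) →
        (∀ s t, f s → ¬ f t → ¬ d.Q (c' s i) (c' t i)) →
        d.V x ∧ ∀ s, (d.R x (c' s i) ↔ f s) ∧ ¬ d.Q x (c' s i) := by
      intro i
      by_cases h : (∀ s, d.V (c' s i)) ∧ ∀ s t, f s → ¬ f t → ¬ d.Q (c' s i) (c' t i)
      · obtain ⟨x, hx⟩ := (hN i).ext k (fun s => c' s i) f h.1 h.2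
        exact ⟨x, fun _ _ => hx⟩
      · exact ⟨Classical.arbitrary _, fun h1 h2 => absurd ⟨h1, h2⟩ h⟩
    choose x hx using hch
    refine ⟨toU x, ?_, fun s => ⟨⟨fun h => ?_, fun h => ?_⟩, ?_⟩⟩
    · unfold Data.V
      rw [realize1_toU]
      filter_upwards [hV', hf'] with i h1 h2
      exact (hx i h1 h2).1
    · unfold Data.R at h
      rw [realize2_toU] at h
      obtain ⟨i, h1, h2, h3⟩ := (h.and (hV'.and hf')).exists
      exact ((hx i h2 h3).2 s).1.1 h1
    · unfold Data.R
      rw [realize2_toU]
      filter_upwards [hV', hf'] with i h1 h2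
      exact ((hx i h1 h2).2 s).1.2 h
    · unfold Data.Q
      rw [realize2_toU, ← Ultrafilter.eventually_not]
      filter_upwards [hV', hf'] with i h1 h2
      exact ((hx i h1 h2).2 s).2

/-- Evaluation commutes with ultraproducts. -/
theorem ev_toU (hN : ∀ i, Base d T (N i)) (a : ℕ → ∀ i, N i) (X : Nm L → ∀ i, N i) :
    ∀ m : Nm L, ev d (fun n => (toU (a n) : U 𝒰 N)) (fun p => toU (X p)) m =
      toU fun i => ev d (fun n => a n i) (fun p => X p i) m
  | .a j => rfl
  | .x k t f => rfl
  | .d k φ t => by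
    have ih : ∀ s, ev d (fun n => (toU (a n) : U 𝒰 N)) (fun p => toU (X p)) (t s) =
      toU fun i => ev d (fun n => a n i) (fun p => X p i) (t s) := fun s => ev_toU hN a X (t s)
    refine sk_eq (Base.ultra (𝒰 := 𝒰) hN) ?_
    have e : (fun i => ev d (fun n => (toU (a n) : U 𝒰 N)) (fun p => toU (X p)) (t i)) =
        fun s => toU fun i => ev d (fun n => a n i) (fun p => X p i) (t s) := funext ih
    rw [e, realizeS_toU]
    exact Eventually.of_forall fun i => sk_realize (hN i) k φ _

end ultra

/-- The compactness theorem for configurations. -/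
theorem compactness (C : Set (Cond L))
    (h : ∀ F : Finset (Cond L), (∀ q ∈ F, q ∈ C) → ∃ c : Cfg d T, ∀ q ∈ F, Holds c q) :
    ∃ c : Cfg d T, ∀ q ∈ C, Holds c q := by
  classical
  choose c hc using fun F : Finset C => h (F.map ⟨Subtype.val, Subtype.val_injective⟩) (by
    intro q hq
    obtain ⟨q', -, rfl⟩ := Finset.mem_map.1 hq
    exact q'.2)
  have hc' : ∀ (F : Finset C) (q : C), q ∈ F → Holds (c F) q := fun F q hq =>
    hc F q (Finset.mem_map.2 ⟨q, hq, rfl⟩)
  let 𝒰 : Ultrafilter (Finset C) := Ultrafilter.of atTop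
  have h𝒰 : ∀ q : C, ∀ᶠ F in (𝒰 : Filter (Finset C)), Holds (c F) q := by
    intro q
    have h1 : ∀ᶠ F in (atTop : Filter (Finset C)), Holds (c F) q := by
      filter_upwards [eventually_ge_atTop ({q} : Finset C)] with F hF
      exact hc' F q (hF (Finset.mem_singleton_self _))
    exact Ultrafilter.of_le _ h1
  let c' : Cfg d T :=
    { N := U 𝒰 fun F => (c F).N
      base := Base.ultra fun F => (c F).base
      a := fun n => toU fun F => (c F).a n
      X := fun p => toU fun F => (c F).X p }
  have hev : ∀ m, ev d c'.a c'.X m = toU fun F => ev d (c F).a (c F).X m := fun m =>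
    ev_toU (𝒰 := 𝒰) (fun F => (c F).base) (fun n F => (c F).a n) (fun p F => (c F).X p) m
  refine ⟨c', fun q hq => ?_⟩
  have hq' := h𝒰 ⟨q, hq⟩
  cases q with
  | link n =>
    show (d.e n).Realize ![(toU fun F => (c F).a n : U 𝒰 fun F => (c F).N),
      toU fun F => (c F).a (n + 1)]
    rw [realize2_toU]
    exact hq'
  | avoid n m =>
    intro hm
    rw [hev]
    show ¬ (d.e (n + 1)).Realize ![(toU fun F => ev d (c F).a (c F).X m : U 𝒰 fun F => (c F).N),
      toU fun F => (c F).a (n + 1)]
    rw [realize2_toU, ← Ultrafilter.eventually_not]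
    filter_upwards [hq'] with F hF
    exact hF hm
  | sat k t f =>
    intro h1 h2
    have h1' : ∀ᶠ F in (𝒰 : Filter (Finset C)), ∀ s, d.V (ev d (c F).a (c F).X (t s)) := by
      rw [eventually_all]
      intro s
      have := h1 s
      rw [hev] at this
      exact (realize1_toU (𝒰 := 𝒰) (N := fun F => (c F).N) d.D _).1 this
    have h2' : ∀ᶠ F in (𝒰 : Filter (Finset C)), ∀ s s', f s → ¬ f s' →
        ¬ d.Q (ev d (c F).a (c F).X (t s)) (ev d (c F).a (c F).X (t s')) := by
      rw [eventually_all]
      intro s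
      rw [eventually_all]
      intro s'
      by_cases h3 : f s
      · by_cases h4 : f s'
        · exact Eventually.of_forall fun i _ h => absurd h4 h
        · have := h2 s s' h3 h4
          rw [hev, hev] at this
          have h5 : ¬ ∀ᶠ F in (𝒰 : Filter (Finset C)), (d.ε).Realize
              ![ev d (c F).a (c F).X (t s), ev d (c F).a (c F).X (t s')] := fun h =>
            this ((realize2_toU (𝒰 := 𝒰) (N := fun F => (c F).N) d.ε _ _).2 h)
          rw [← Ultrafilter.eventually_not] at h5
          filter_upwards [h5] with i hi _ _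
          exact hi
      · exact Eventually.of_forall fun i h => absurd h h3
    refine ⟨?_, fun s => ⟨⟨fun h => ?_, fun h => ?_⟩, ?_⟩⟩
    · refine (realize1_toU (𝒰 := 𝒰) (N := fun F => (c F).N) d.D _).2 ?_
      filter_upwards [h1', h2', hq'] with F h3 h4 h5
      exact (h5 h3 h4).1
    · rw [hev] at h
      have h := (realize2_toU (𝒰 := 𝒰) (N := fun F => (c F).N) d.ρ _ _).1 h
      obtain ⟨F, h3, h4, h5, h6⟩ := (h.and (h1'.and (h2'.and hq'))).exists
      exact ((h6 h4 h5).2 s).1.1 h3
    · rw [hev]
      refine (realize2_toU (𝒰 := 𝒰) (N := fun F => (c F).N) d.ρ _ _).2 ?_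
      filter_upwards [h1', h2', hq'] with F h3 h4 h5
      exact ((h5 h3 h4).2 s).1.2 h
    · rw [hev]
      intro h
      have h := (realize2_toU (𝒰 := 𝒰) (N := fun F => (c F).N) d.ε _ _).1 h
      obtain ⟨F, h3, h4, h5, h6⟩ := (h.and (h1'.and (h2'.and hq'))).exists
      exact ((h6 h4 h5).2 s).2 h3

end Pool.Agent.Lib.MP_491b55_lc.Core
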