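import Mathlib

/-!
# Interpretability orders on countable complete first-order theories

The definitions of the problem: countable complete theories, stable and unstable theories,
saturated models, interpretations by tuples of formulas, and the order of interpretability.
-/

set_option autoImplicit false

open FirstOrder FirstOrder.Language

namespace Pool.Agent.Lib.MP_491b55_lc

/-- A complete first-order theory in a countable vocabulary. -/
structure CTheory where
  /-- the vocabulary -/
  lang : FirstOrder.Language.{0, 0}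
  /-- there are countably many function symbols -/
  countable_functions : Countable (Σ n, lang.Functions n)
  /-- there are countably many relation symbols -/
  countable_relations : Countable (Σ n, lang.Relations n)
  /-- the theory -/
  theory : lang.Theory
  /-- the theory is complete (and consistent) -/
  complete : theory.IsComplete

/-- `T` is unstable: in some model of `T`, some formula `φ(x̄; ȳ)` has the order property, that is,
there are tuples `a i` and `b i`, `i ∈ ℕ`, such that `φ(a i; b j)` holds exactly when `i < j`. -/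
def CTheory.Unstable (T : CTheory) : Prop :=
  ∃ (M : Type) (_ : T.lang.Structure M) (_ : Nonempty M), M ⊨ T.theory ∧
    ∃ (m n : ℕ) (φ : T.lang.Formula (Fin m ⊕ Fin n)) (a : ℕ → Fin m → M) (b : ℕ → Fin n → M),
      ∀ i j, φ.Realize (Sum.elim (a i) (b j)) ↔ i < j

/-- `T` is stable: it is not unstable. -/
def CTheory.Stable (T : CTheory) : Prop := ¬ T.Unstable

/-- The structure `M` is `κ`-saturated: for every set `A ⊆ M` with fewer than `κ` elements, every
set of formulas in one variable with parameters from `A` which is finitely satisfiable in `M` is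
realized in `M`. -/
def IsSaturated (L : FirstOrder.Language.{0, 0}) (M : Type) [L.Structure M] (κ : Cardinal.{0}) : Prop :=
  ∀ A : Set M, Cardinal.mk A < κ → ∀ p : Set (L.Formula (A ⊕ Unit)),
    (∀ q : Finset (L.Formula (A ⊕ Unit)), (∀ φ ∈ q, φ ∈ p) →
      ∃ x : M, ∀ φ ∈ q, φ.Realize (Sum.elim (fun a : A => (a : M)) fun _ => x)) →
    ∃ x : M, ∀ φ ∈ p, φ.Realize (Sum.elim (fun a : A => (a : M)) fun _ => x)

/-- The condition on the model `M` for the order with subscript `κ`: nothing if `κ = 1`, and
`κ`-saturation otherwise. -/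
def KSaturated (L : FirstOrder.Language.{0, 0}) (M : Type) [L.Structure M] (κ : Cardinal.{0}) : Prop :=
  κ = 1 ∨ IsSaturated L M κ

/-- A tuple `φ̄` of formulas of the language `L`: one for equality, one for each relation symbol
and one for each function symbol (the formula of its graph) of the language `L₀`. -/
structure FTuple (L₀ L : FirstOrder.Language.{0, 0}) where
  /-- the formula `φ₌` -/
  eq : L.Formula (Fin 2)
  /-- the formula `φ_R` of the relation symbol `R` -/
  rel : ∀ {n : ℕ}, L₀.Relations n → L.Formula (Fin n)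
  /-- the graph formula `φ_f` of the function symbol `f`; the last variable is the value -/
  fn : ∀ {n : ℕ}, L₀.Functions n → L.Formula (Fin (n + 1))

namespace FTuple

variable {L₀ L : FirstOrder.Language.{0, 0}} (φ : FTuple L₀ L) (M : Type) [L.Structure M]

/-- The domain `{a ∈ M : M ⊨ φ₌(a, a)}` of the structure defined by `φ̄` in `M`. -/
def Dom : Type := {a : M // φ.eq.Realize ![a, a]}

/-- `S` is the structure `M^[φ̄]` defined by `φ̄` in `M`, on the domain `φ.Dom M`: relation
symbols `R` are interpreted by the formulas `φ_R`, and function symbols `f` are read off from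
the graph formulas `φ_f`. -/
def IsStr (S : L₀.Structure (φ.Dom M)) : Prop :=
  (∀ (n : ℕ) (R : L₀.Relations n) (x : Fin n → φ.Dom M),
    S.RelMap R x ↔ (φ.rel R).Realize fun i => (x i).1) ∧
  (∀ (n : ℕ) (f : L₀.Functions n) (x : Fin n → φ.Dom M) (y : φ.Dom M),
    S.funMap f x = y ↔ (φ.fn f).Realize (Fin.snoc (fun i => (x i).1) y.1 : Fin (n + 1) → M))

/-- `φ̄` is an interpretation of the theory `T₀` in the theory `T`: for every model `M` of `T`, the
structure `M^[φ̄]` is defined and is a model of `T₀`. -/
def Interprets (T₀ : L₀.Theory) (T : L.Theory) : Prop :=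
  ∀ (M : Type) [L.Structure M] [Nonempty M], M ⊨ T →
    ∃ S : L₀.Structure (φ.Dom M), φ.IsStr M S ∧ Nonempty (φ.Dom M) ∧
      @Theory.Model L₀ (φ.Dom M) S T₀

end FTuple

/-- The variant in which the structure defined by `φ̄` in `M` is taken modulo `φ₌`: the structure
`X` is a copy of the quotient of the domain `φ.Dom M` by the relation `φ₌`, via the map `π`. -/
structure FTuple.IsQuot {L₀ L : FirstOrder.Language.{0, 0}} (φ : FTuple L₀ L) (M : Type)
    [L.Structure M] (X : Type) [L₀.Structure X] (π : φ.Dom M → X) : Prop where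
  surjective : Function.Surjective π
  eq_iff : ∀ a b : φ.Dom M, π a = π b ↔ φ.eq.Realize ![a.1, b.1]
  rel_iff : ∀ {n : ℕ} (R : L₀.Relations n) (x : Fin n → φ.Dom M),
    Structure.RelMap R (fun i => π (x i)) ↔ (φ.rel R).Realize fun i => (x i).1
  fun_iff : ∀ {n : ℕ} (f : L₀.Functions n) (x : Fin n → φ.Dom M) (y : φ.Dom M),
    Structure.funMap f (fun i => π (x i)) = π y ↔
      (φ.fn f).Realize (Fin.snoc (fun i => (x i).1) y.1 : Fin (n + 1) → M)

/-- `φ̄` is an interpretation of the theory `T₀` in the theory `T`, modulo `φ₌`. -/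
def FTuple.QInterprets {L₀ L : FirstOrder.Language.{0, 0}} (φ : FTuple L₀ L) (T₀ : L₀.Theory)
    (T : L.Theory) : Prop :=
  ∀ (M : Type) [L.Structure M] [Nonempty M], M ⊨ T →
    ∃ (X : Type) (_ : L₀.Structure X) (π : φ.Dom M → X), φ.IsQuot M X π ∧ Nonempty X ∧ X ⊨ T₀

/-- The order of interpretability with subscript `κ`: `T₀` is below `T₁` when for all sufficiently
large regular `lam` there is a countable complete theory `T`, with interpretations `φ₀` of `T₀` and
`φ₁` of `T₁` in `T`, such that for every `κ`-saturated model `M` of `T` (every model, if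
`κ = 1`), if `M^[φ₁]` is `lam`-saturated then `M^[φ₀]` is `lam`-saturated. -/
def InterpLE (κ : Cardinal.{0}) (T₀ T₁ : CTheory) : Prop :=
  ∃ μ : Cardinal.{0}, ∀ lam : Cardinal.{0}, μ ≤ lam → lam.IsRegular →
    ∃ (T : CTheory) (φ₀ : FTuple T₀.lang T.lang) (φ₁ : FTuple T₁.lang T.lang),
      φ₀.Interprets T₀.theory T.theory ∧ φ₁.Interprets T₁.theory T.theory ∧
      ∀ (M : Type) [T.lang.Structure M] [Nonempty M], M ⊨ T.theory → KSaturated T.lang M κ →
        ∀ (S₀ : T₀.lang.Structure (φ₀.Dom M)) (S₁ : T₁.lang.Structure (φ₁.Dom M)),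
          φ₀.IsStr M S₀ → φ₁.IsStr M S₁ →
          @IsSaturated T₁.lang (φ₁.Dom M) S₁ lam → @IsSaturated T₀.lang (φ₀.Dom M) S₀ lam

/-- The order of interpretability with subscript `κ`, in the variant where interpreted structures
are taken modulo `φ₌`. -/
def QInterpLE (κ : Cardinal.{0}) (T₀ T₁ : CTheory) : Prop :=
  ∃ μ : Cardinal.{0}, ∀ lam : Cardinal.{0}, μ ≤ lam → lam.IsRegular →
    ∃ (T : CTheory) (φ₀ : FTuple T₀.lang T.lang) (φ₁ : FTuple T₁.lang T.lang),
      φ₀.QInterprets T₀.theory T.theory ∧ φ₁.QInterprets T₁.theory T.theory ∧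
      ∀ (M : Type) [T.lang.Structure M] [Nonempty M], M ⊨ T.theory → KSaturated T.lang M κ →
        ∀ (X₀ X₁ : Type) (_ : T₀.lang.Structure X₀) (_ : T₁.lang.Structure X₁)
          (π₀ : φ₀.Dom M → X₀) (π₁ : φ₁.Dom M → X₁),
          φ₀.IsQuot M X₀ π₀ → φ₁.IsQuot M X₁ π₁ →
          IsSaturated T₁.lang X₁ lam → IsSaturated T₀.lang X₀ lam

end Pool.Agent.Lib.MP_491b55_lc
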