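import Pool.Agent.Lib.MP_491b55_lc.Saturated

/-!
# Existence of saturated elementary extensions: the structure
-/

set_option autoImplicit false

open FirstOrder FirstOrder.Language Filter

namespace Pool.Agent.Lib.MP_491b55_lc.Sat

theorem realize_congr_free {L : FirstOrder.Language.{0, 0}} {M : Type} [L.Structure M] {α : Type}
    [DecidableEq α] (φ : L.Formula α) (v w : α → M)
    (h : ∀ a ∈ BoundedFormula.freeVarFinset φ, v a = w a) : φ.Realize v ↔ φ.Realize w := by
  have h1 := BoundedFormula.realize_restrictFreeVar (φ := φ) (f := id)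
    (v := fun a : φ.freeVarFinset => v a) (xs := (default : Fin 0 → M)) v (fun a => rfl)
  have h2 := BoundedFormula.realize_restrictFreeVar (φ := φ) (f := id)
    (v := fun a : φ.freeVarFinset => v a) (xs := (default : Fin 0 → M)) w
    (fun a => h a.1 a.2)
  exact h1.symm.trans h2

variable {Λ I : Type} [LinearOrder Λ]

theorem Det.of_finite [WellFoundedLT Λ] {A N Y : Type} [Nonempty N] (s : Finset A)
    (F : (A → N) → Y) (hF : ∀ v w : A → N, (∀ a ∈ s, v a = w a) → F v = F w)
    (h : A → (Λ → I) → N) {β : Λ} (hβ : ∀ a ∈ s, Det β (h a)) :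
    Det β fun ω => F fun a => h a ω := by
  classical
  have h1 := Det.pi (fun a : s => h a) (fun a => hβ a.1 a.2)
  have h2 := h1.map fun v : s → N => F fun a => if ha : a ∈ s then v ⟨a, ha⟩ else
    Classical.arbitrary N
  convert h2 using 2 with ω
  apply hF
  intro a ha
  rw [dif_pos ha]

section

variable {L : FirstOrder.Language.{0, 0}} (N : Type) [L.Structure N] [Nonempty N]
  (𝒱 : Ultrafilter (Λ → I))

/-- The ultrapower. -/
abbrev P : Type := (𝒱 : Filter (Λ → I)).Product fun _ : Λ → I => N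

variable {N 𝒱} in
/-- The class of a function. -/
def toP (h : (Λ → I) → N) : P N 𝒱 := (h : P N 𝒱)

variable {N 𝒱} in
theorem realize_toP {β : Type} (φ : L.Formula β) (x : β → (Λ → I) → N) :
    (φ.Realize fun i => (toP (x i) : P N 𝒱)) ↔
      ∀ᶠ ω in (𝒱 : Filter (Λ → I)), φ.Realize fun i => x i ω :=
  Ultraproduct.realize_formula_cast φ x

/-- The set of the classes of determined functions. -/
def KSet : Set (P N 𝒱) := {q | ∃ h : (Λ → I) → N, q = toP h ∧ ∃ α, Det α h}

theorem exists_upper [Nonempty Λ] {A : Type} (s : Finset A) (α : A → Λ) : ∃ β, ∀ a ∈ s, α a ≤ β := by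
  classical
  obtain ⟨β, hβ⟩ := Finset.exists_le (s.image α)
  exact ⟨β, fun a ha => hβ _ (Finset.mem_image_of_mem _ ha)⟩

theorem meetsDefinable_KSet [WellFoundedLT Λ] [Nonempty Λ] :
    L.MeetsDefinable (KSet N 𝒱) := by
  classical
  intro D hD hdef
  obtain ⟨φ, hφ⟩ := Set.definable_iff_exists_formula_sum.1 hdef
  have hφ' : ∀ x : P N 𝒱, x ∈ D ↔
      φ.Realize (Sum.elim (fun a : KSet N 𝒱 => (a : P N 𝒱)) fun _ => x) := by
    intro x
    have := Set.ext_iff.1 hφ fun _ => x
    exact this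
  have hrep : ∀ a : KSet N 𝒱, ∃ h : (Λ → I) → N, (a : P N 𝒱) = toP h ∧ ∃ α, Det α h :=
    fun a => a.2
  choose H hH α hα using hrep
  let g : (Λ → I) → N := fun ω =>
    Classical.epsilon fun y : N => φ.Realize (Sum.elim (fun a => H a ω) fun _ => y)
  have hg : ∃ β, Det β g := by
    obtain ⟨β, hβ⟩ := exists_upper (BoundedFormula.freeVarFinset φ).toLeft α
    refine ⟨β, Det.of_finite (BoundedFormula.freeVarFinset φ).toLeft
      (fun v : KSet N 𝒱 → N => Classical.epsilon fun y : N =>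
        φ.Realize (Sum.elim v fun _ => y)) ?_ H ?_⟩
    · intro v w hvw
      have : (fun y : N => φ.Realize (Sum.elim v fun _ => y)) =
          fun y : N => φ.Realize (Sum.elim w fun _ => y) := by
        funext y
        apply propext
        apply realize_congr_free
        rintro (a | i) ha
        · exact hvw a (Finset.mem_toLeft.2 ha)
        · rfl
      simp only [this]
    · intro a ha
      exact (hα a).mono (hβ a ha)
  refine ⟨toP g, ?_, ⟨g, rfl, hg⟩⟩
  rw [hφ']
  obtain ⟨x, hx⟩ := hD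
  rw [hφ'] at hx
  obtain ⟨x', hx'⟩ : ∃ x' : (Λ → I) → N, x = toP x' := by
    obtain ⟨x', hx'⟩ := Quotient.exists_rep x
    exact ⟨x', hx'.symm⟩
  subst hx'
  have e1 : ∀ z : (Λ → I) → N, (Sum.elim (fun a : KSet N 𝒱 => (a : P N 𝒱)) fun _ : Fin 1 =>
      toP z) = fun i => (toP (Sum.elim H (fun _ => z) i) : P N 𝒱) := by
    intro z
    funext i
    rcases i with a | i
    · exact hH a
    · rfl
  have e2 : ∀ z : (Λ → I) → N, ∀ ω, (fun i => (Sum.elim H (fun _ : Fin 1 => z) i) ω) =
      Sum.elim (fun a => H a ω) fun _ => z ω := by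
    intro z ω
    funext i
    rcases i with a | i <;> rfl
  rw [e1, realize_toP] at hx
  rw [e1, realize_toP]
  filter_upwards [hx] with ω hω
  rw [e2] at hω ⊢
  exact Classical.epsilon_spec (p := fun y : N => φ.Realize (Sum.elim (fun a => H a ω) fun _ => y))
    ⟨_, hω⟩

/-- The limit ultrapower. -/
noncomputable def KSub [WellFoundedLT Λ] [Nonempty Λ] : L.ElementarySubstructure (P N 𝒱) :=
  (meetsDefinable_KSet N 𝒱).toElementarySubstructure

theorem mem_KSub [WellFoundedLT Λ] [Nonempty Λ] {q : P N 𝒱} :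
    q ∈ KSub (L := L) N 𝒱 ↔ q ∈ KSet N 𝒱 := by
  have := (meetsDefinable_KSet (L := L) N 𝒱).closure_eq_self
  constructor
  · intro h
    rw [← this]
    exact h
  · intro h
    rw [← this] at h
    exact h

end

/-- Saturation of the limit ultrapower. -/
theorem isSaturated_KSub {L : FirstOrder.Language.{0, 0}} (N : Type) [L.Structure N] [Nonempty N]
    [WellFoundedLT Λ] [Nonempty Λ] [NoMaxOrder Λ] {Q : Type}
    (𝒱 : Ultrafilter (Λ → Finset Q))
    (h𝒱 : ∀ (α : Λ) (X : Set (Λ → Finset Q)),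
      Big (Ultrafilter.of (atTop : Filter (Finset Q))) α X → X ∈ 𝒱)
    (κ : Cardinal.{0}) (hκ : ∀ (A : Type), Cardinal.mk A < κ → ∀ f : A → Λ, ∃ β, ∀ a, f a ≤ β)
    (hQ : ∀ (A : Type), Cardinal.mk A < κ → ∃ ι : L.Formula (A ⊕ Unit) → Q,
      Function.Injective ι) :
    IsSaturated L (KSub (L := L) N 𝒱) κ := by
  classical
  intro A hA p hp
  obtain ⟨ι, hι⟩ := hQ A hA
  have hrep : ∀ a : KSub (L := L) N 𝒱, ∃ h : (Λ → Finset Q) → N,
      (a : P N 𝒱) = toP h ∧ ∃ α, Det α h := fun a => (mem_KSub N 𝒱).1 a.2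
  choose H hH α hα using hrep
  obtain ⟨β, hβ⟩ := hκ A hA fun a => α a
  obtain ⟨β', hβ'⟩ := exists_gt β
  have hdet : ∀ a : A, Det β (H a) := fun a => (hα a).mono (hβ a)
  -- the finite part of `p` with index `i`
  have hfin : ∀ i : Finset Q, {φ : L.Formula (A ⊕ Unit) | φ ∈ p ∧ ι φ ∈ i}.Finite := fun i =>
    Set.Finite.subset (Set.Finite.preimage hι.injOn i.finite_toSet) fun φ h => h.2
  let R : Finset Q → ((A → N) → N → Prop) := fun i v y =>
    ∀ φ : L.Formula (A ⊕ Unit), φ ∈ p → ι φ ∈ i → φ.Realize (Sum.elim v fun _ => y)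
  let G : Finset Q → (Λ → Finset Q) → N := fun i ω =>
    Classical.epsilon fun y : N => R i (fun a => H a ω) y
  have hsupp : ∀ i, ∃ s : Finset A, ∀ v w : A → N, (∀ a ∈ s, v a = w a) → ∀ y, R i v y ↔ R i w y := by
    intro i
    refine ⟨(hfin i).toFinset.biUnion fun φ => (BoundedFormula.freeVarFinset φ).toLeft, ?_⟩
    intro v w hvw y
    refine forall_congr' fun φ => forall_congr' fun h1 => forall_congr' fun h2 => ?_
    apply realize_congr_free
    rintro (a | u) ha
    · apply hvw a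
      rw [Finset.mem_biUnion]
      exact ⟨φ, (hfin i).mem_toFinset.2 ⟨h1, h2⟩, Finset.mem_toLeft.2 ha⟩
    · rfl
  have hGdet : ∀ i, Det β (G i) := by
    intro i
    obtain ⟨s, hs⟩ := hsupp i
    refine Det.of_finite s (fun v : A → N => Classical.epsilon fun y : N => R i v y) ?_
      (fun a => H a) (fun a _ => hdet a)
    intro v w hvw
    have : (fun y : N => R i v y) = fun y : N => R i w y := by
      funext y
      exact propext (hs v w hvw y)
    simp only [this]
  let g : (Λ → Finset Q) → N := fun ω => G (ω β) ω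
  have hgdet : Det β' g := Det.node β' β hβ' G hGdet
  have hgK : toP g ∈ KSub (L := L) N 𝒱 := (mem_KSub N 𝒱).2 ⟨g, rfl, β', hgdet⟩
  refine ⟨⟨toP g, hgK⟩, fun φ hφ => ?_⟩
  have hcast : ∀ (ψ : L.Formula (A ⊕ Unit)) (z : KSub (L := L) N 𝒱) (z' : (Λ → Finset Q) → N),
      (z : P N 𝒱) = toP z' →
      (ψ.Realize (Sum.elim (fun a : A => (a : KSub (L := L) N 𝒱)) fun _ => z) ↔
        ∀ᶠ ω in (𝒱 : Filter (Λ → Finset Q)),
          ψ.Realize (Sum.elim (fun a : A => H a ω) fun _ => z' ω)) := by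
    intro ψ z z' hz
    rw [← (KSub (L := L) N 𝒱).subtype.map_formula]
    have e1 : (⇑(KSub (L := L) N 𝒱).subtype ∘
        (Sum.elim (fun a : A => (a : KSub (L := L) N 𝒱)) fun _ : Unit => z)) =
        fun i => (toP (Sum.elim (fun a : A => H a) (fun _ => z') i) : P N 𝒱) := by
      funext i
      rcases i with a | i
      · exact hH a
      · exact hz
    rw [e1, realize_toP]
    refine Filter.eventually_congr (Filter.Eventually.of_forall fun ω => ?_)
    have e2 : (fun i => (Sum.elim (fun a : A => H a) (fun _ : Unit => z') i) ω) =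
        Sum.elim (fun a : A => H a ω) fun _ => z' ω := by
      funext i
      rcases i with a | i <;> rfl
    rw [e2]
  rw [hcast φ ⟨toP g, hgK⟩ g rfl]
  refine mem_of_node (𝒰 := Ultrafilter.of (atTop : Filter (Finset Q))) h𝒱 hβ'
    (fun i => {ω | φ.Realize (Sum.elim (fun a : A => H a ω) fun _ => G i ω)}) ?_
    {i | ι φ ∈ i} ?_ ?_
  · intro i
    have h1 : Det β fun ω => (G i ω, fun a : (BoundedFormula.freeVarFinset φ).toLeft =>
        H a.1 ω) :=
      Det.pair _ _ _ (hGdet i) (Det.pi (fun a : (BoundedFormula.freeVarFinset φ).toLeft =>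
        H a.1) fun a => hdet a.1)
    have h2 := h1.map fun z : N × ((BoundedFormula.freeVarFinset φ).toLeft → N) =>
      φ.Realize (Sum.elim (fun a => if ha : a ∈ (BoundedFormula.freeVarFinset φ).toLeft then
        z.2 ⟨a, ha⟩ else Classical.arbitrary N) fun _ => z.1)
    convert h2 using 2 with ω
    rw [Set.mem_ofPred_eq]
    apply realize_congr_free
    rintro (a | u) ha
    · have : a ∈ (BoundedFormula.freeVarFinset φ).toLeft := Finset.mem_toLeft.2 ha
      simp only [Sum.elim_inl]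
      rw [dif_pos this]
    · rfl
  · have h1 : {i : Finset Q | ι φ ∈ i} ∈ (atTop : Filter (Finset Q)) := by
      filter_upwards [eventually_ge_atTop ({ι φ} : Finset Q)] with i hi
      exact hi (Finset.mem_singleton_self _)
    exact Ultrafilter.of_le _ h1
  · intro i hi
    obtain ⟨x, hx⟩ := hp (hfin i).toFinset fun ψ hψ => ((hfin i).mem_toFinset.1 hψ).1
    obtain ⟨x', hx'⟩ : ∃ x' : (Λ → Finset Q) → N, (x : P N 𝒱) = toP x' := ⟨H x, hH x⟩
    have h1 : ∀ ψ ∈ (hfin i).toFinset, ∀ᶠ ω in (𝒱 : Filter (Λ → Finset Q)),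
        ψ.Realize (Sum.elim (fun a : A => H a ω) fun _ => x' ω) := fun ψ hψ =>
      (hcast ψ x x' hx').1 (hx ψ hψ)
    have h2 : ∀ᶠ ω in (𝒱 : Filter (Λ → Finset Q)), ∀ ψ ∈ (hfin i).toFinset,
        ψ.Realize (Sum.elim (fun a : A => H a ω) fun _ => x' ω) :=
      (Filter.eventually_all_finset _).2 h1
    filter_upwards [h2] with ω hω
    have h3 : R i (fun a => H a ω) (x' ω) := fun ψ h4 h5 =>
      hω ψ ((hfin i).mem_toFinset.2 ⟨h4, h5⟩)
    exact Classical.epsilon_spec (p := fun y => R i (fun a => H a ω) y) ⟨_, h3⟩ φ hφ hi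

/-- Every structure has a `κ`-saturated elementary extension, for `κ` regular. -/
theorem exists_saturated_extension {L : FirstOrder.Language.{0, 0}} (N : Type) [L.Structure N]
    [Nonempty N] (κ : Cardinal.{0}) (hκ : κ.IsRegular) :
    ∃ (M : Type) (_ : L.Structure M), Nonempty (N ↪ₑ[L] M) ∧ IsSaturated L M κ := by
  classical
  let Λ := κ.ord.ToType
  have hne : Nonempty Λ := Ordinal.nonempty_toType_iff.2 hκ.ord_pos.ne'
  have hbound : ∀ (A : Type), Cardinal.mk A < κ → ∀ f : A → Λ, ∃ β, ∀ a, f a < β := by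
    intro A hA f
    have h1 : (⨆ a, Order.succ ((Ordinal.ToType.mk.symm (f a)).1 : Ordinal)) < κ.ord := by
      refine Cardinal.iSup_lt_ord_of_isRegular hκ hA fun a => ?_
      have h2 := (Ordinal.ToType.mk.symm (f a)).2
      exact (Cardinal.isSuccLimit_ord hκ.aleph0_le).succ_lt h2
    refine ⟨Ordinal.ToType.mk ⟨_, h1⟩, fun a => ?_⟩
    rw [← OrderIso.symm_apply_lt]
    refine Subtype.coe_lt_coe.1 (lt_of_lt_of_le (Order.lt_succ _) ?_)
    exact Ordinal.le_iSup (fun a => Order.succ ((Ordinal.ToType.mk.symm (f a)).1 : Ordinal)) a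
  have hnomax : NoMaxOrder Λ := ⟨fun a => by
    obtain ⟨β, hβ⟩ := hbound Unit (by
      rw [Cardinal.mk_unit]
      exact lt_of_lt_of_le Cardinal.one_lt_aleph0 hκ.aleph0_le) fun _ => a
    exact ⟨β, hβ ()⟩⟩
  let Q : Type := (max Cardinal.aleph0 (κ + 1 + L.card)).out
  have hQ : ∀ (A : Type), Cardinal.mk A < κ → ∃ ι : L.Formula (A ⊕ Unit) → Q,
      Function.Injective ι := by
    intro A hA
    have h1 : Cardinal.mk (L.Formula (A ⊕ Unit)) ≤ Cardinal.mk Q := by
      have h2 : Cardinal.mk (L.Formula (A ⊕ Unit)) ≤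
          Cardinal.mk (Σ n, L.BoundedFormula (A ⊕ Unit) n) :=
        Cardinal.mk_le_of_injective (f := fun φ => ⟨0, φ⟩) fun φ ψ h => by
          simpa using h
      refine h2.trans (BoundedFormula.card_le.trans ?_)
      rw [Cardinal.mk_out]
      refine max_le_max le_rfl ?_
      simp only [Cardinal.lift_id, Cardinal.mk_sum, Cardinal.mk_unit]
      gcongr
    obtain ⟨ι⟩ := h1
    exact ⟨ι, ι.injective⟩
  obtain ⟨𝒱, h𝒱⟩ := exists_ultrafilter (Λ := Λ) (Ultrafilter.of (atTop : Filter (Finset Q)))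
  refine ⟨KSub (L := L) N 𝒱, inferInstance, ⟨?_⟩, isSaturated_KSub N 𝒱 h𝒱 κ
    (fun A hA f => (hbound A hA f).imp fun β h a => (h a).le) hQ⟩
  refine ⟨fun n => ⟨toP fun _ => n,
    (mem_KSub N 𝒱).2 ⟨_, rfl, Classical.arbitrary Λ, Det.const _ _⟩⟩, ?_⟩
  intro n φ x
  rw [← (KSub (L := L) N 𝒱).subtype.map_formula]
  have e1 : (⇑(KSub (L := L) N 𝒱).subtype ∘ (fun n => (⟨toP fun _ => n,
      (mem_KSub N 𝒱).2 ⟨_, rfl, Classical.arbitrary Λ, Det.const _ _⟩⟩ :
      KSub (L := L) N 𝒱)) ∘ x) = fun i => (toP (fun _ => x i) : P N 𝒱) := rfl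
  rw [e1, realize_toP]
  constructor
  · intro h
    obtain ⟨ω, hω⟩ := h.exists
    exact hω
  · intro h
    exact Filter.Eventually.of_forall fun _ => h

end Pool.Agent.Lib.MP_491b55_lc.Sat
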