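import Pool.Agent.Lib.MP_491b55_lc.Build
import Pool.Agent.Lib.MP_491b55_lc.SatExt
import Pool.Agent.Lib.MP_491b55_lc.UDef

/-!
# The model built from a configuration
-/

set_option autoImplicit false

open FirstOrder FirstOrder.Language Set

namespace Pool.Agent.Lib.MP_491b55_lc

/-- Saturation for families of uniformly definable conditions. -/
theorem IsSaturated.family {L : FirstOrder.Language.{0, 0}} {M : Type} [L.Structure M]
    {κ : Cardinal.{0}} (hsat : IsSaturated L M κ) (A : Set M) (hA : Cardinal.mk A < κ) {ι : Type}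
    (p : ι → ∀ (M : Type) [L.Structure M], (A ⊕ Unit → M) → Prop) (hp : ∀ i, UDef L (p i))
    (h : ∀ F : Finset ι, ∃ x : M, ∀ i ∈ F, p i M (Sum.elim (fun a : A => (a : M)) fun _ => x)) :
    ∃ x : M, ∀ i, p i M (Sum.elim (fun a : A => (a : M)) fun _ => x) := by
  classical
  choose φ hφ using hp
  obtain ⟨x, hx⟩ := hsat A hA (Set.range φ) (by
    intro q hq
    choose g hg using hq
    let G : {ψ // ψ ∈ q} → ι := fun ψ => g ψ.1 ψ.2
    obtain ⟨x, hx⟩ := h (q.attach.image G)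
    refine ⟨x, fun ψ hψ => ?_⟩
    have h1 := hx (g ψ hψ) (Finset.mem_image.2 ⟨⟨ψ, hψ⟩, Finset.mem_attach _ _, rfl⟩)
    rw [← hφ, hg ψ hψ] at h1
    exact h1)
  exact ⟨x, fun i => (hφ i M _).1 (hx _ ⟨i, rfl⟩)⟩

theorem UDef.formulaSum {L : FirstOrder.Language.{0, 0}} {α β γ : Type}
    (φ : L.Formula (β ⊕ γ)) (g : β → α) (h : γ → α) : UDef L fun M _ (v : α → M) =>
      φ.Realize (Sum.elim (fun i => v (g i)) fun j => v (h j)) := by
  refine (UDef.formula φ (Sum.elim g h)).congr fun M _ v => ?_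
  have : (fun i => v (Sum.elim g h i)) = Sum.elim (fun i => v (g i)) fun j => v (h j) := by
    funext i
    rcases i with i | i <;> rfl
  rw [this]

namespace Core

variable {L : FirstOrder.Language.{0, 0}}

/-- Definability by a formula with finitely many parameters. -/
theorem exists_formula {N : Type} [L.Structure N] {S : Set N} {D : Set N}
    (hdef : S.Definable₁ L D) : ∃ (k : ℕ) (φ : L.Formula (Fin k ⊕ Unit)) (c : Fin k → N),
      (∀ i, c i ∈ S) ∧ ∀ y, φ.Realize (Sum.elim c fun _ => y) ↔ y ∈ D := by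
  obtain ⟨A₀, hA₀, hdef⟩ := Set.definable_iff_finitely_definable.1 hdef
  obtain ⟨φ, hφ⟩ := Set.definable_iff_exists_formula_sum.1 hdef
  have hφ' : ∀ y : N, y ∈ D ↔
      φ.Realize (Sum.elim (fun a : (A₀ : Set N) => (a : N)) fun _ => y) := by
    intro y
    exact Set.ext_iff.1 hφ fun _ => y
  let e := A₀.equivFin
  refine ⟨_, φ.relabel (Sum.map (fun x : (A₀ : Set N) => e ⟨x.1, x.2⟩) fun _ => ()),
    fun i => ((e.symm i : A₀) : N), fun i => hA₀ (e.symm i).2, fun y => ?_⟩
  rw [hφ', Formula.realize_relabel]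
  have : (Sum.elim (fun i => ((e.symm i : A₀) : N)) fun _ : Unit => y) ∘
      (Sum.map (fun x : (A₀ : Set N) => e ⟨x.1, x.2⟩) fun _ : Fin 1 => ()) =
      Sum.elim (fun a : (A₀ : Set N) => (a : N)) fun _ => y := by
    funext i
    rcases i with i | i
    · simp
    · rfl
  rw [this]

/-- The language of the predicates. -/
inductive UPred : ℕ → Type
  | P : ℕ → UPred 1

/-- The language of the predicates. -/
abbrev LP : FirstOrder.Language.{0, 0} := ⟨fun _ => Empty, UPred⟩

/-- The language with the predicates. -/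
abbrev Lp (L : FirstOrder.Language.{0, 0}) : FirstOrder.Language.{0, 0} := L.sum LP

/-- the meaning of the predicates. -/
def PP (L : FirstOrder.Language.{0, 0}) (n : ℕ) (M : Type) [(Lp L).Structure M] (x : M) : Prop :=
  Structure.RelMap (L := Lp L) (Sum.inr (UPred.P n) : (Lp L).Relations 1) fun _ => x

/-- the lift of a formula -/
abbrev lf {α : Type} (φ : L.Formula α) : (Lp L).Formula α := (LHom.sumInl : L →ᴸ L.sum LP).onFormula φ

theorem uPP {α : Type} (n : ℕ) (i : α) : UDef (Lp L) fun M _ (v : α → M) => PP L n M (v i) :=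
  UDef.rel (L := Lp L) (Sum.inr (UPred.P n) : (Lp L).Relations 1) fun _ => i

/-- The structure of the predicates. -/
@[instance_reducible]
def predStr {N : Type} (K : ℕ → Set N) : LP.Structure N where
  funMap := fun f => f.elim
  RelMap := fun {_} r x => match r, x with
    | .P n, x => x 0 ∈ K n

/-- The model built from a configuration. -/
theorem build {d : Data L} {T : L.Theory} {N : Type} [L.Structure N] [Nonempty N]
    (hN : Base d T N) (lam : Cardinal.{0}) (hlam : lam.IsRegular) :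
    ∃ (M : Type) (_ : L.Structure M) (_ : Nonempty M), M ⊨ T ∧
      (∃ a : ℕ → M, (∀ n, d.E n (a n) (a (n + 1))) ∧ ∀ b, ∃ n, ¬ d.E n b (a n)) ∧
      (∀ A : Set M, Cardinal.mk A < lam → ∀ f : M → Prop, (∀ s ∈ A, d.V s) →
        (∀ s ∈ A, ∀ t ∈ A, f s → ¬ f t → ¬ d.Q s t) →
        ∃ x, d.V x ∧ ∀ s ∈ A, (d.R x s ↔ f s) ∧ ¬ d.Q x s) := by
  classical
  obtain ⟨c, hc⟩ := exists_cfg hN
  letI iP : LP.Structure c.N := predStr (KK d c.a c.X)
  obtain ⟨M, instM, ⟨i⟩, hsat⟩ := Sat.exists_saturated_extension (L := Lp L) c.N lam hlam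
  letI iL : L.Structure M := (LHom.sumInl : L →ᴸ L.sum LP).reduct M
  have hlf : ∀ {α : Type} (φ : L.Formula α) (v : α → M), (lf φ).Realize v ↔ φ.Realize v :=
    fun φ v => LHom.realize_onFormula _ φ
  have hlfc : ∀ {α : Type} (φ : L.Formula α) (v : α → c.N), (lf φ).Realize v ↔ φ.Realize v :=
    fun φ v => LHom.realize_onFormula _ φ
  have hPPc : ∀ (n : ℕ) (x : c.N), PP L n c.N x ↔ x ∈ KK d c.a c.X n := fun n x => Iff.rfl
  -- transferred facts
  let K' : ℕ → Set M := fun n => {x | PP L n M x}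
  have hmono1 : ∀ n, K' n ⊆ K' (n + 1) := by
    intro n x hx
    have hu : UDef (Lp L) (α := Empty) fun M _ _ => ∀ x : M, PP L n M x → PP L (n + 1) M x :=
      UDef.all (UDef.imp (uPP _ _) (uPP _ _))
    have h1 := (hu.transfer i (fun e => e.elim)).1 (fun x hx => by
      rw [hPPc] at hx ⊢
      exact KK_mono c.a c.X (Nat.le_succ n) hx)
    exact h1 x hx
  have hmono : Monotone K' := monotone_nat_of_le_succ hmono1
  have haP : ∀ n, i (c.a n) ∈ K' n := by
    intro n
    have hu : UDef (Lp L) (α := Unit) fun M _ v => PP L n M (v ()) := uPP _ _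
    exact (hu.transfer i (fun _ => c.a n)).1 ⟨.a n, le_refl n, rfl⟩
  have hlink : ∀ n, d.E n (i (c.a n)) (i (c.a (n + 1))) := by
    intro n
    have hu : UDef (Lp L) (α := Bool) fun M _ v => (lf (d.e n)).Realize ![v true, v false] :=
      UDef.formula2 _ _ _
    have h1 := (hu.transfer i (fun b => if b then c.a n else c.a (n + 1))).1 (by
      rw [hlfc]
      exact hc (.link n))
    rw [hlf] at h1
    exact h1
  have havoid : ∀ n, ∀ y ∈ K' n, ¬ d.E (n + 1) y (i (c.a (n + 1))) := by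
    intro n y hy
    have hu : UDef (Lp L) (α := Unit) fun M _ v => ∀ y : M, PP L n M y →
        ¬ (lf (d.e (n + 1))).Realize ![y, v ()] :=
      UDef.all (UDef.imp (uPP _ _) (UDef.not (UDef.formula2 _ _ _)))
    have h1 := (hu.transfer i (fun _ => c.a (n + 1))).1 (by
      rintro y ⟨m, hm, rfl⟩ h
      rw [hlfc] at h
      exact hc (.avoid n m) hm h)
    intro h2
    refine h1 y hy ?_
    rw [hlf]
    exact h2
  have htv : ∀ (n k : ℕ) (φ : L.Formula (Fin k ⊕ Unit)) (v : Fin k → M), (∀ s, v s ∈ K' n) →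
      (∃ y, φ.Realize (Sum.elim v fun _ => y)) → ∃ y ∈ K' n, φ.Realize (Sum.elim v fun _ => y) := by
    intro n k φ v hv hy
    have hu : UDef (Lp L) (α := Empty) fun M _ _ => ∀ v : Fin k → M, (∀ s, PP L n M (v s)) →
        (∃ y : M, (lf φ).Realize (Sum.elim v fun _ => y)) →
          ∃ y : M, PP L n M y ∧ (lf φ).Realize (Sum.elim v fun _ => y) := by
      refine UDef.alls (UDef.imp (UDef.fin fun s => uPP _ _) (UDef.imp (UDef.ex ?_)
        (UDef.ex (UDef.and (uPP _ _) ?_))))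
      · exact UDef.formulaSum (lf φ) (fun i => Sum.inl (Sum.inr i)) fun _ => Sum.inr ()
      · exact UDef.formulaSum (lf φ) (fun i => Sum.inl (Sum.inr i)) fun _ => Sum.inr ()
    have h1 := (hu.transfer i (fun e => e.elim)).1 (by
      intro v hv ⟨y, hy⟩
      rw [hlfc] at hy
      choose t ht hev using hv
      refine ⟨ev d c.a c.X (.d k φ t), ⟨.d k φ t, ht, rfl⟩, ?_⟩
      rw [hlfc]
      have h1 := sk_realize c.base _ φ fun i => ev d c.a c.X (t i)
      have h2 : (fun i => ev d c.a c.X (t i)) = v := funext hev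
      show φ.Realize (Sum.elim _ fun _ => sk d _ φ fun i => ev d c.a c.X (t i))
      rw [h2] at h1 ⊢
      exact c.base.sk_spec _ _ _ y _ hy h1)
    obtain ⟨y, hy⟩ := hy
    obtain ⟨z, hz, hz'⟩ := h1 v hv ⟨y, (hlf _ _).2 hy⟩
    exact ⟨z, hz, (hlf _ _).1 hz'⟩
  have hext : ∀ (n k : ℕ) (f : Fin k → Prop) (v : Fin k → M), (∀ s, v s ∈ K' n) →
      (∀ s, d.V (v s)) → (∀ s t, f s → ¬ f t → ¬ d.Q (v s) (v t)) →
      ∃ x ∈ K' 0, d.V x ∧ ∀ s, (d.R x (v s) ↔ f s) ∧ ¬ d.Q x (v s) := by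
    intro n k f v hv hV hf
    have hu : UDef (Lp L) (α := Empty) fun M _ _ => ∀ v : Fin k → M, (∀ s, PP L n M (v s)) →
        (∀ s, (lf d.D).Realize ![v s]) →
        (∀ s t, f s → ¬ f t → ¬ (lf d.ε).Realize ![v s, v t]) →
        ∃ x : M, PP L 0 M x ∧ (lf d.D).Realize ![x] ∧ ∀ s, ((lf d.ρ).Realize ![x, v s] ↔ f s) ∧
          ¬ (lf d.ε).Realize ![x, v s] := by
      refine UDef.alls (UDef.imp (UDef.fin fun s => uPP _ _) (UDef.imp
        (UDef.fin fun s => UDef.formula1 _ _) (UDef.imp (UDef.fin fun s => UDef.fin fun t =>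
          UDef.imp (UDef.const _) (UDef.imp (UDef.const _) (UDef.not (UDef.formula2 _ _ _))))
          (UDef.ex (UDef.and (uPP _ _) (UDef.and (UDef.formula1 _ _) (UDef.fin fun s =>
            UDef.and (UDef.iff (UDef.formula2 _ _ _) (UDef.const _))
              (UDef.not (UDef.formula2 _ _ _)))))))))
    have h1 := (hu.transfer i (fun e => e.elim)).1 (by
      intro v hv hV hf
      simp only [hlfc] at hV hf ⊢
      choose t ht hev using hv
      have h2 : (fun i => ev d c.a c.X (t i)) = v := funext hev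
      subst h2
      obtain ⟨h3, h4⟩ := hc (.sat k t f) hV hf
      exact ⟨c.X (.x k t f), ⟨.x k t f, trivial, rfl⟩, h3, h4⟩)
    obtain ⟨x, hx, hx1, hx2⟩ := h1 v hv (fun s => (hlf _ _).2 (hV s)) (fun s t h3 h4 h5 =>
      hf s t h3 h4 ((hlf _ _).1 h5))
    refine ⟨x, hx, (hlf _ _).1 hx1, fun s => ⟨?_, ?_⟩⟩
    · rw [← (hx2 s).1, hlf]
      exact Iff.rfl
    · intro h
      exact (hx2 s).2 ((hlf _ _).2 h)
  -- the model
  let K : Set M := {x | ∃ n, x ∈ K' n}
  have hK : L.MeetsDefinable K := by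
    intro D hD hdef
    obtain ⟨k, φ, v, hv, hφ⟩ := exists_formula hdef
    choose n hn using hv
    obtain ⟨y, hy, hy'⟩ := htv (Finset.univ.sup n) k φ v
      (fun s => hmono (Finset.le_sup (Finset.mem_univ s)) (hn s)) (by
        obtain ⟨y, hy⟩ := hD
        exact ⟨y, (hφ y).2 hy⟩)
    exact ⟨y, (hφ y).1 hy', _, hy⟩
  let KS : L.ElementarySubstructure M := hK.toElementarySubstructure
  have hKS : ∀ x, x ∈ KS ↔ x ∈ K := by
    intro x
    have := hK.closure_eq_self
    constructor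
    · intro h
      rw [← this]
      exact h
    · intro h
      rw [← this] at h
      exact h
  have hne : Nonempty KS := ⟨⟨i (c.a 0), (hKS _).2 ⟨0, haP 0⟩⟩⟩
  have h2 : ∀ (φ : L.Formula (Fin 2)) (x y : KS), φ.Realize ![x, y] ↔
      φ.Realize ![(x : M), (y : M)] := by
    intro φ x y
    rw [← KS.subtype.map_formula]
    have : (⇑KS.subtype ∘ ![x, y]) = ![(x : M), (y : M)] := by
      funext k
      fin_cases k <;> rfl
    rw [this]
  have h1 : ∀ (φ : L.Formula (Fin 1)) (x : KS), φ.Realize ![x] ↔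
      φ.Realize ![(x : M)] := by
    intro φ x
    rw [← KS.subtype.map_formula]
    have : (⇑KS.subtype ∘ ![x]) = ![(x : M)] := by
      funext k
      fin_cases k; rfl
    rw [this]
  refine ⟨KS, inferInstance, hne, ?_, ⟨fun n => ⟨i (c.a n), (hKS _).2 ⟨n, haP n⟩⟩, ?_, ?_⟩, ?_⟩
  · rw [KS.subtype.theory_model_iff]
    refine ⟨fun φ hφ => ?_⟩
    have h3 : c.N ⊨ φ := c.base.model.realize_of_mem φ hφ
    have h4 : c.N ⊨ (lf φ : (Lp L).Sentence) := (hlfc φ default).2 h3
    rw [i.map_sentence] at h4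
    exact (hlf φ default).1 h4
  · intro n
    exact (h2 _ _ _).2 (hlink n)
  · rintro ⟨b, hb⟩
    obtain ⟨n, hn⟩ := (hKS b).1 hb
    exact ⟨n + 1, fun h => havoid n b hn ((h2 _ _ _).1 h)⟩
  · intro A hA f hV hf
    let A' : Set M := (fun x : KS => (x : M)) '' A
    have hA' : Cardinal.mk A' < lam := lt_of_le_of_lt Cardinal.mk_image_le hA
    have hA'K : ∀ s ∈ A', ∃ h : s ∈ KS, (⟨s, h⟩ : KS) ∈ A := by
      rintro s ⟨x, hx, rfl⟩
      exact ⟨x.2, hx⟩
    let f' : M → Prop := fun x => ∃ h : x ∈ KS, f ⟨x, h⟩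
    let p : Option A' → ∀ (M : Type) [(Lp L).Structure M], (A' ⊕ Unit → M) → Prop :=
      fun o => match o with
      | none => fun M _ v => PP L 0 M (v (.inr ())) ∧ (lf d.D).Realize ![v (.inr ())]
      | some s => fun M _ v => ((lf d.ρ).Realize ![v (.inr ()), v (.inl s)] ↔ f' s) ∧
          ¬ (lf d.ε).Realize ![v (.inr ()), v (.inl s)]
    have hp : ∀ o, UDef (Lp L) (p o) := by
      rintro (_ | s)
      · exact UDef.and (uPP _ _) (UDef.formula1 _ _)
      · exact UDef.and (UDef.iff (UDef.formula2 _ _ _) (UDef.const _))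
          (UDef.not (UDef.formula2 _ _ _))
    obtain ⟨x, hx⟩ := hsat.family A' hA' p hp (by
      intro F
      let F' : Finset A' := F.eraseNone
      let e := F'.equivFin
      let v : Fin F'.card → M := fun k => ((e.symm k : F') : A').1
      have hv : ∀ s, ∃ n, v s ∈ K' n := fun s => by
        obtain ⟨h3, -⟩ := hA'K _ (e.symm s).1.2
        exact (hKS _).1 h3
      choose n hn using hv
      obtain ⟨x, hx, hx1, hx2⟩ := hext (Finset.univ.sup n) _ (fun s => f' (v s)) v
        (fun s => hmono (Finset.le_sup (Finset.mem_univ s)) (hn s)) (fun s => by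
          obtain ⟨h3, h4⟩ := hA'K _ (e.symm s).1.2
          exact (h1 _ _).1 (hV _ h4)) (fun s t => by
          rintro ⟨h5, h5'⟩ h6 h7
          obtain ⟨h3, h4⟩ := hA'K _ (e.symm s).1.2
          obtain ⟨h3', h4'⟩ := hA'K _ (e.symm t).1.2
          refine hf _ h4 _ h4' h5' (fun h8 => h6 ⟨h3', h8⟩) ?_
          exact (h2 _ _ _).2 h7)
      refine ⟨x, fun o ho => ?_⟩
      rcases o with _ | s
      · exact ⟨hx, (hlf _ _).2 hx1⟩
      · have hs : s ∈ F' := Finset.mem_eraseNone.2 ho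
        have h3 := hx2 (e ⟨s, hs⟩)
        have h4 : v (e ⟨s, hs⟩) = s := by simp [v]
        rw [h4] at h3
        show ((lf d.ρ).Realize ![x, (s : M)] ↔ f' s) ∧ ¬ (lf d.ε).Realize ![x, (s : M)]
        rw [hlf, hlf]
        exact h3)
    have hx0 : PP L 0 M x ∧ (lf d.D).Realize ![x] := hx none
    have hxK : x ∈ KS := (hKS x).2 ⟨0, hx0.1⟩
    refine ⟨⟨x, hxK⟩, (h1 _ _).2 ((hlf _ _).1 hx0.2), fun s hs => ?_⟩
    have h3 : ((lf d.ρ).Realize ![x, (s : M)] ↔ f' s) ∧ ¬ (lf d.ε).Realize ![x, (s : M)] :=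
      hx (some ⟨s, s, hs, rfl⟩)
    rw [hlf, hlf] at h3
    have h4 : f' s ↔ f s := ⟨fun ⟨_, h⟩ => h, fun h => ⟨s.2, h⟩⟩
    rw [h4] at h3
    exact ⟨(h2 _ _ _).trans h3.1, fun h => h3.2 ((h2 _ _ _).1 h)⟩

end Core

end Pool.Agent.Lib.MP_491b55_lc
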