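import Pool.Agent.Lib.MP_491b55_lc.GraphTh

/-!
# The final argument
-/

set_option autoImplicit false

open FirstOrder FirstOrder.Language Filter

namespace Pool.Agent.Lib.MP_491b55_lc

/-- `X` is presented by `φ̄` in `M`, where `ε` defines equality. -/
structure Pres {I : Type} {L : FirstOrder.Language.{0, 0}} (φ : FTuple (LB I) L)
    (ε : L.Formula (Fin 2)) (M : Type) [L.Structure M] (X : Type) [(LB I).Structure X]
    (π : φ.Dom M → X) : Prop where
  surj : Function.Surjective π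
  eq : ∀ a b : φ.Dom M, π a = π b ↔ ε.Realize ![a.1, b.1]
  rel : ∀ (r : I) (a b : φ.Dom M), W r (π a) (π b) ↔
    (φ.rel (BRel.r r : (LB I).Relations 2)).Realize ![a.1, b.1]

/-- Two presented structures have the same theory. -/
theorem Pres.model {I : Type} {L : FirstOrder.Language.{0, 0}} {φ : FTuple (LB I) L}
    {ε : L.Formula (Fin 2)} {M : Type} [L.Structure M] {X : Type} [(LB I).Structure X]
    {π : φ.Dom M → X} (h : Pres φ ε M X π) {X' : Type} [(LB I).Structure X'] {π' : φ.Dom M → X'}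
    (h' : Pres φ ε M X' π') {T : (LB I).Theory} (hT : X' ⊨ T) : X ⊨ T := by
  let g : X' → X := fun x => π (Function.surjInv h'.surj x)
  have hg : ∀ a, g (π' a) = π a := by
    intro a
    rw [show g (π' a) = π (Function.surjInv h'.surj (π' a)) from rfl, h.eq, ← h'.eq]
    exact Function.surjInv_eq h'.surj _
  have hinj : Function.Injective g := by
    intro x y hxy
    obtain ⟨a, rfl⟩ := h'.surj x
    obtain ⟨b, rfl⟩ := h'.surj y
    rw [hg, hg, h.eq] at hxy
    exact (h'.eq a b).2 hxy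
  have hsurj : Function.Surjective g := by
    intro x
    obtain ⟨a, rfl⟩ := h.surj x
    exact ⟨π' a, hg a⟩
  let e : X' ≃[LB I] X :=
    { toEquiv := Equiv.ofBijective g ⟨hinj, hsurj⟩
      map_fun' := fun f => f.elim
      map_rel' := by
        intro n R x
        cases R with
        | r r =>
          obtain ⟨a, ha⟩ := h'.surj (x 0)
          obtain ⟨b, hb⟩ := h'.surj (x 1)
          have hx : x = ![x 0, x 1] := by
            funext k
            fin_cases k <;> rfl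
          have h1 : (fun k => g (x k)) = ![g (x 0), g (x 1)] := by
            funext k
            fin_cases k <;> rfl
          have h2 : W r (g (x 0)) (g (x 1)) ↔ W r (x 0) (x 1) := by
            rw [← ha, ← hb, hg, hg, h.rel, h'.rel]
          unfold W at h2
          rw [← h1, ← hx] at h2
          exact h2 }
  exact (e.toElementaryEmbedding.theory_model_iff T).1 hT

/-- All functions on a set, as a language. -/
abbrev Lfun (N : Type) : FirstOrder.Language.{0, 0} := ⟨fun k => (Fin k → N) → N, fun _ => Empty⟩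

/-- The structure with all functions. -/
@[instance_reducible]
def funStr (N : Type) : (Lfun N).Structure N where
  funMap := fun f x => f x
  RelMap := fun r => r.elim

theorem main (T : CTheory) (φ₀ : FTuple (LB ℕ) T.lang) (φ₁ : FTuple (LB Unit) T.lang)
    (ε₀ ε₁ : T.lang.Formula (Fin 2))
    (h₀ : ∀ (M : Type) [T.lang.Structure M] [Nonempty M], M ⊨ T.theory →
      ∃ (X : Type) (_ : (LB ℕ).Structure X) (π : φ₀.Dom M → X), Pres φ₀ ε₀ M X π ∧ Nonempty X ∧
        X ⊨ (LB ℕ).completeTheory S0)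
    (h₁ : ∀ (M : Type) [T.lang.Structure M] [Nonempty M], M ⊨ T.theory →
      ∃ (X : Type) (_ : (LB Unit).Structure X) (π : φ₁.Dom M → X), Pres φ₁ ε₁ M X π ∧ Nonempty X ∧
        X ⊨ (LB Unit).completeTheory G1)
    (lam : Cardinal.{0}) (hreg : lam.IsRegular) (hlam : Cardinal.aleph0 < lam) :
    ∃ (M : Type) (_ : T.lang.Structure M) (_ : Nonempty M), M ⊨ T.theory ∧
      (∀ (X : Type) (_ : (LB Unit).Structure X) (π : φ₁.Dom M → X), Pres φ₁ ε₁ M X π →
        IsSaturated (LB Unit) X lam) ∧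
      ∀ (X : Type) (_ : (LB ℕ).Structure X) (π : φ₀.Dom M → X), Pres φ₀ ε₀ M X π →
        ¬ IsSaturated (LB ℕ) X lam := by
  classical
  obtain ⟨N₀⟩ := T.complete.1
  let N : Type := N₀
  letI iN : T.lang.Structure N := inferInstanceAs (T.lang.Structure N₀)
  haveI neN : Nonempty N := inferInstanceAs (Nonempty N₀)
  have hN : N ⊨ T.theory := inferInstanceAs (N₀ ⊨ T.theory)
  letI iF : (Lfun N).Structure N := funStr N
  let L := T.lang.sum (Lfun N)
  let ι : T.lang →ᴸ L := LHom.sumInl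
  -- the formulas
  have ue : ∀ n, ∃ e : T.lang.Formula (Fin 2), ∀ (M : Type) [T.lang.Structure M] (v : Fin 2 → M),
      e.Realize v ↔ φ₀.eq.Realize ![v 0, v 0] ∧ φ₀.eq.Realize ![v 1, v 1] ∧
        (φ₀.rel (BRel.r n : (LB ℕ).Relations 2)).Realize ![v 0, v 1] := fun n =>
    UDef.and (UDef.formula2 _ _ _) (UDef.and (UDef.formula2 _ _ _) (UDef.formula2 _ _ _))
  have uD : ∃ e : T.lang.Formula (Fin 1), ∀ (M : Type) [T.lang.Structure M] (v : Fin 1 → M),
      e.Realize v ↔ φ₁.eq.Realize ![v 0, v 0] := UDef.formula2 _ _ _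
  have uε : ∃ e : T.lang.Formula (Fin 2), ∀ (M : Type) [T.lang.Structure M] (v : Fin 2 → M),
      e.Realize v ↔ φ₁.eq.Realize ![v 0, v 0] ∧ φ₁.eq.Realize ![v 1, v 1] ∧
        ε₁.Realize ![v 0, v 1] :=
    UDef.and (UDef.formula2 _ _ _) (UDef.and (UDef.formula2 _ _ _) (UDef.formula2 _ _ _))
  choose e he using ue
  obtain ⟨D, hD⟩ := uD
  obtain ⟨ε, hε⟩ := uε
  let sel : ∀ k, L.Formula (Fin k ⊕ Unit) → (Fin k → N) → N := fun k φ v =>
    Classical.epsilon fun y => φ.Realize (Sum.elim v fun _ => y)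
  let d : Core.Data L :=
    { e := fun n => ι.onFormula (e n)
      D := ι.onFormula D
      ρ := ι.onFormula (φ₁.rel (BRel.r () : (LB Unit).Relations 2))
      ε := ι.onFormula ε
      σ := fun k φ => Term.equal (Term.func (Sum.inr (sel k φ) : L.Functions k)
        fun i => Term.var (Sum.inl i)) (Term.var (Sum.inr ())) }
  -- semantics in a structure for the large language
  have key : ∀ (M : Type) [L.Structure M] [T.lang.Structure M] [ι.IsExpansionOn M],
      (∀ n (x y : M), d.E n x y ↔ φ₀.eq.Realize ![x, x] ∧ φ₀.eq.Realize ![y, y] ∧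
        (φ₀.rel (BRel.r n : (LB ℕ).Relations 2)).Realize ![x, y]) ∧
      (∀ x : M, d.V x ↔ φ₁.eq.Realize ![x, x]) ∧
      (∀ x y : M, d.R x y ↔ (φ₁.rel (BRel.r () : (LB Unit).Relations 2)).Realize ![x, y]) ∧
      (∀ x y : M, d.Q x y ↔ φ₁.eq.Realize ![x, x] ∧ φ₁.eq.Realize ![y, y] ∧
        ε₁.Realize ![x, y]) := by
    intro M _ _ _
    refine ⟨fun n x y => ?_, fun x => ?_, fun x y => ?_, fun x y => ?_⟩
    · exact (LHom.realize_onFormula ι (e n)).trans (he n M _)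
    · exact (LHom.realize_onFormula ι D).trans (hD M _)
    · exact (LHom.realize_onFormula ι _)
    · exact (LHom.realize_onFormula ι ε).trans (hε M _)
  -- the base properties
  have hbase : Core.Base d (ι.onTheory T.theory) N := by
    obtain ⟨kE, kV, kR, kQ⟩ := key N
    obtain ⟨X, iX, π, hπ, hX, hXT⟩ := h₀ N hN
    obtain ⟨Y, iY, ϖ, hϖ, hY, hYT⟩ := h₁ N hN
    have hE : ERel X := ERel.of_model hXT
    have hG : EGraph Y := EGraph.of_model hYT
    have kE' : ∀ n (x y : φ₀.Dom N), d.E n (x.1 : N) y.1 ↔ W n (π x) (π y) := by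
      intro n x y
      rw [kE, hπ.rel]
      exact ⟨fun h => h.2.2, fun h => ⟨x.2, y.2, h⟩⟩
    have kE'' : ∀ n (x y : N), d.E n x y → ∃ (x' y' : φ₀.Dom N), x'.1 = x ∧ y'.1 = y := by
      intro n x y h
      rw [kE] at h
      exact ⟨⟨x, h.1⟩, ⟨y, h.2.1⟩, rfl, rfl⟩
    have kQ' : ∀ (x y : φ₁.Dom N), d.Q (x.1 : N) y.1 ↔ ϖ x = ϖ y := by
      intro x y
      rw [kQ, hϖ.eq]
      exact ⟨fun h => h.2.2, fun h => ⟨x.2, y.2, h⟩⟩
    have kQ'' : ∀ (x y : N), d.Q x y → ∃ (x' y' : φ₁.Dom N), x'.1 = x ∧ y'.1 = y := by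
      intro x y h
      rw [kQ] at h
      exact ⟨⟨x, h.1⟩, ⟨y, h.2.1⟩, rfl, rfl⟩
    have hσ : ∀ (k : ℕ) (φ : L.Formula (Fin k ⊕ Unit)) (v : Fin k → N) (y : N),
        (d.σ k φ).Realize (Sum.elim v fun _ => y) ↔ sel k φ v = y := by
      intro k φ v y
      rw [Formula.realize_equal]
      rfl
    refine ⟨?_, ?_, ?_, ?_, ?_, ?_, ?_, ?_, ?_, ?_, ?_, ?_, ?_⟩
    · exact (LHom.onTheory_model ι T.theory).2 hN
    · intro k φ v
      exact ⟨sel k φ v, (hσ k φ v _).2 rfl, fun y hy => ((hσ k φ v y).1 hy).symm⟩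
    · intro k φ v z y hz hy
      rw [hσ] at hy
      rw [← hy]
      exact Classical.epsilon_spec (p := fun y => φ.Realize (Sum.elim v fun _ => y)) ⟨z, hz⟩
    · intro n x y h
      obtain ⟨x, y, rfl, rfl⟩ := kE'' n x y h
      rw [kE'] at h ⊢
      exact hE.symm _ _ _ h
    · intro n x y z h h'
      obtain ⟨x, y, rfl, rfl⟩ := kE'' n x y h
      obtain ⟨y', z, -, rfl⟩ := kE'' n y.1 z h'
      rw [kE'] at h h' ⊢
      exact hE.trans _ _ _ _ h h'
    · intro n x y h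
      obtain ⟨x, y, rfl, rfl⟩ := kE'' _ x y h
      rw [kE'] at h ⊢
      exact hE.mono _ _ _ h
    · obtain ⟨x⟩ := hX
      obtain ⟨a, rfl⟩ := hπ.surj x
      exact ⟨a.1, (kE' 0 a a).2 (hE.refl _ _)⟩
    · intro n x hx k F
      obtain ⟨x, -, rfl, -⟩ := kE'' _ x x hx
      let c : Fin k → X := fun i => if h : φ₀.eq.Realize ![F i, F i] then π ⟨F i, h⟩ else π x
      obtain ⟨y, hy1, hy2⟩ := hE.split n (π x) k c
      obtain ⟨y, rfl⟩ := hπ.surj y
      refine ⟨y.1, (kE' _ _ _).2 hy1, (kE' _ _ _).2 (hE.refl _ _), fun i h => ?_⟩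
      obtain ⟨z, -, hz, -⟩ := kE'' _ _ _ h
      have h1 : c i = π z := by
        have h2 : φ₀.eq.Realize ![F i, F i] := by rw [← hz]; exact z.2
        have h3 : (⟨F i, h2⟩ : φ₀.Dom N) = z := Subtype.ext hz.symm
        show (if h : φ₀.eq.Realize ![F i, F i] then π ⟨F i, h⟩ else π x) = π z
        rw [dif_pos h2, h3]
      rw [← hz, kE', ← h1] at h
      exact hy2 i h
    · intro x hx
      rw [kV] at hx
      exact (kQ' ⟨x, hx⟩ ⟨x, hx⟩).2 rfl
    · intro x y h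
      rw [kQ] at h
      rw [kV]
      exact h.1
    · intro x y h
      obtain ⟨x, y, rfl, rfl⟩ := kQ'' x y h
      rw [kQ'] at h ⊢
      exact h.symm
    · intro x y z h h'
      obtain ⟨x, y, rfl, rfl⟩ := kQ'' x y h
      obtain ⟨y', z, -, rfl⟩ := kQ'' y.1 z h'
      rw [kQ'] at h h' ⊢
      exact h.trans h'
    · intro k c f hc hf
      simp only [kV] at hc
      obtain ⟨x, hx⟩ := hG.ext k f (fun s => ϖ ⟨c s, hc s⟩) (fun s t h1 h2 h3 =>
        hf s t h1 h2 ((kQ' ⟨c s, hc s⟩ ⟨c t, hc t⟩).2 h3))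
      obtain ⟨x, rfl⟩ := hϖ.surj x
      refine ⟨x.1, (kV _).2 x.2, fun s => ⟨?_, ?_⟩⟩
      · rw [← (hx s).1, hϖ.rel, kR]
      · intro h
        exact (hx s).2 ((kQ' x ⟨c s, hc s⟩).1 h)
  obtain ⟨M, iM, neM, hMT, ⟨a, ha1, ha2⟩, hMe⟩ := Core.build hbase lam hreg
  letI iM' : T.lang.Structure M := ι.reduct M
  have hM : M ⊨ T.theory := (LHom.onTheory_model ι T.theory).1 hMT
  obtain ⟨kE, kV, kR, kQ⟩ := key M
  refine ⟨M, iM', neM, hM, ?_, ?_⟩
  · intro Y iY ϖ hϖ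
    obtain ⟨Y', iY', ϖ', hϖ', -, hYT'⟩ := h₁ M hM
    have hG : EGraph Y := EGraph.of_model (hϖ.model hϖ' hYT')
    refine hG.isSaturated lam fun A hA f => ?_
    choose r hr using hϖ.surj
    let A' : Set M := (fun y => (r y).1) '' A
    obtain ⟨x, hx, hx'⟩ := hMe A' (lt_of_le_of_lt Cardinal.mk_image_le hA)
      (fun m => ∃ h : φ₁.eq.Realize ![m, m], f (ϖ ⟨m, h⟩)) (by
        rintro _ ⟨y, -, rfl⟩
        rw [kV]
        exact (r y).2) (by
        rintro _ ⟨y, -, rfl⟩ _ ⟨z, -, rfl⟩ ⟨h1, h2⟩ h3 h4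
        rw [kQ] at h4
        refine h3 ⟨(r z).2, ?_⟩
        have h5 : ϖ (r y) = ϖ (r z) := (hϖ.eq _ _).2 h4.2.2
        have h6 : f (ϖ (r y)) := h2
        rw [h5] at h6
        exact h6)
    rw [kV] at hx
    refine ⟨ϖ ⟨x, hx⟩, fun s hs => ?_⟩
    obtain ⟨h1, h2⟩ := hx' _ ⟨s, hs, rfl⟩
    constructor
    · have h3 : W () (ϖ ⟨x, hx⟩) s ↔ d.R x (r s).1 := by
        rw [kR]
        conv_lhs => rw [← hr s]
        exact hϖ.rel () ⟨x, hx⟩ (r s)
      rw [h3, h1]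
      constructor
      · rintro ⟨h4, h5⟩
        have h6 : f (ϖ (r s)) := h5
        rw [hr] at h6
        exact h6
      · intro h4
        refine ⟨(r s).2, ?_⟩
        show f (ϖ (r s))
        rw [hr]
        exact h4
    · intro h3
      refine h2 ?_
      rw [kQ]
      refine ⟨hx, (r s).2, (hϖ.eq ⟨x, hx⟩ (r s)).1 ?_⟩
      rw [hr]
      exact h3
  · intro X iX π hπ hsat
    obtain ⟨X', iX', π', hπ', -, hXT'⟩ := h₀ M hM
    have hE : ERel X := ERel.of_model (hπ.model hπ' hXT')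
    have hdom : ∀ n, φ₀.eq.Realize ![a n, a n] := fun n => ((kE _ _ _).1 (ha1 n)).1
    let b : ℕ → X := fun n => π ⟨a n, hdom n⟩
    have hb : ∀ n, W n (b n) (b (n + 1)) := by
      intro n
      exact (hπ.rel _ _ _).2 ((kE _ _ _).1 (ha1 n)).2.2
    have hb' : ∀ n m, n ≤ m → W n (b m) (b n) := by
      intro n m hnm
      induction hnm with
      | refl => exact hE.refl _ _
      | step h ih =>
        exact hE.trans _ _ _ _ (hE.symm _ _ _ (hE.mono_le h (hb _))) ih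
    have hA : Cardinal.mk (Set.range b) < lam :=
      lt_of_le_of_lt Cardinal.mk_range_le (by rw [Cardinal.mk_nat]; exact hlam)
    obtain ⟨x, hx⟩ := hsat.family (Set.range b) hA (ι := ℕ)
      (fun n M _ v => W n (v (.inr ())) (v (.inl ⟨b n, n, rfl⟩))) (fun n => uW _ _ _) (by
        intro F
        refine ⟨b (F.sup id), fun n hn => ?_⟩
        exact hb' n _ (Finset.le_sup (f := id) hn))
    obtain ⟨m, rfl⟩ := hπ.surj x
    obtain ⟨n, hn⟩ := ha2 m.1
    refine hn ((kE _ _ _).2 ⟨m.2, hdom n, ?_⟩)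
    exact (hπ.rel n m ⟨a n, hdom n⟩).1 (hx n)

theorem pres_of_isStr {I : Type} {L : FirstOrder.Language.{0, 0}} {φ : FTuple (LB I) L}
    {M : Type} [L.Structure M] (S : (LB I).Structure (φ.Dom M)) (h : φ.IsStr M S) :
    Pres φ (Term.equal (Term.var 0) (Term.var 1)) M (φ.Dom M) id := by
  refine ⟨Function.surjective_id, fun a b => ?_, fun r a b => ?_⟩
  · rw [Formula.realize_equal]
    exact Subtype.ext_iff
  · have h1 := h.1 2 (BRel.r r) ![a, b]
    refine h1.trans ?_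
    have : (fun i => (![a, b] i).1) = ![a.1, b.1] := by
      funext k
      fin_cases k <;> rfl
    rw [this]

theorem pres_of_isQuot {I : Type} {L : FirstOrder.Language.{0, 0}} {φ : FTuple (LB I) L}
    {M : Type} [L.Structure M] {X : Type} [(LB I).Structure X] {π : φ.Dom M → X}
    (h : φ.IsQuot M X π) : Pres φ φ.eq M X π := by
  refine ⟨h.surjective, h.eq_iff, fun r a b => ?_⟩
  have h1 := h.rel_iff (BRel.r r : (LB I).Relations 2) ![a, b]
  have h2 : (fun i => (![a, b] i).1) = ![a.1, b.1] := by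
    funext k
    fin_cases k <;> rfl
  have h3 : (fun i => π (![a, b] i)) = ![π a, π b] := by
    funext k
    fin_cases k <;> rfl
  rw [h2, h3] at h1
  exact h1

theorem exists_lam (μ : Cardinal.{0}) : ∃ lam : Cardinal.{0}, μ ≤ lam ∧ lam.IsRegular ∧
    Cardinal.aleph0 < lam := by
  refine ⟨Order.succ (max μ Cardinal.aleph0), ?_, ?_, ?_⟩
  · exact (le_max_left _ _).trans (Order.le_succ _)
  · exact Cardinal.isRegular_succ (le_max_right _ _)
  · exact lt_of_le_of_lt (le_max_right _ _) (Order.lt_succ _)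

theorem not_interpLE : ¬ InterpLE 1 T0 T1 := by
  rintro ⟨μ, hμ⟩
  obtain ⟨lam, h1, h2, h3⟩ := exists_lam μ
  obtain ⟨T, φ₀, φ₁, hφ₀, hφ₁, hT⟩ := hμ lam h1 h2
  obtain ⟨M, iM, neM, hM, hsat, hnsat⟩ := main T φ₀ φ₁ (Term.equal (Term.var 0) (Term.var 1))
    (Term.equal (Term.var 0) (Term.var 1)) (by
      intro M _ _ hM
      obtain ⟨S, hS, hne, hmod⟩ := hφ₀ M hM
      exact ⟨_, S, id, pres_of_isStr S hS, hne, hmod⟩) (by
      intro M _ _ hM
      obtain ⟨S, hS, hne, hmod⟩ := hφ₁ M hM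
      exact ⟨_, S, id, pres_of_isStr S hS, hne, hmod⟩) lam h2 h3
  obtain ⟨S₀, hS₀, -⟩ := hφ₀ M hM
  obtain ⟨S₁, hS₁, -⟩ := hφ₁ M hM
  exact hnsat _ S₀ id (pres_of_isStr S₀ hS₀) (hT M hM (Or.inl rfl) S₀ S₁ hS₀ hS₁
    (hsat _ S₁ id (pres_of_isStr S₁ hS₁)))

theorem not_qInterpLE : ¬ QInterpLE 1 T0 T1 := by
  rintro ⟨μ, hμ⟩
  obtain ⟨lam, h1, h2, h3⟩ := exists_lam μ
  obtain ⟨T, φ₀, φ₁, hφ₀, hφ₁, hT⟩ := hμ lam h1 h2
  obtain ⟨M, iM, neM, hM, hsat, hnsat⟩ := main T φ₀ φ₁ φ₀.eq φ₁.eq (by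
      intro M _ _ hM
      obtain ⟨X, iX, π, hπ, hne, hmod⟩ := hφ₀ M hM
      let _ : (LB ℕ).Structure X := iX
      exact ⟨X, iX, π, pres_of_isQuot hπ, hne, hmod⟩) (by
      intro M _ _ hM
      obtain ⟨X, iX, π, hπ, hne, hmod⟩ := hφ₁ M hM
      let _ : (LB Unit).Structure X := iX
      exact ⟨X, iX, π, pres_of_isQuot hπ, hne, hmod⟩) lam h2 h3
  obtain ⟨X₀, iX₀, π₀, hπ₀, -⟩ := hφ₀ M hM
  obtain ⟨X₁, iX₁, π₁, hπ₁, -⟩ := hφ₁ M hM
  let _ : (LB ℕ).Structure X₀ := iX₀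
  let _ : (LB Unit).Structure X₁ := iX₁
  exact hnsat _ _ _ (pres_of_isQuot hπ₀) (hT M hM (Or.inl rfl) X₀ X₁ iX₀ iX₁ π₀ π₁ hπ₀ hπ₁
    (hsat _ _ _ (pres_of_isQuot hπ₁)))

end Pool.Agent.Lib.MP_491b55_lc
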