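import Pool.Agent.Lib.MP_491b55_lc.BinRel

/-!
# The theory of refining equivalence relations with infinite splitting is stable
-/

set_option autoImplicit false

open FirstOrder FirstOrder.Language Filter

namespace Pool.Agent.Lib.MP_491b55_lc

/-- The properties of the models of `T0`. -/
structure ERel (M : Type) [(LB ℕ).Structure M] : Prop where
  refl : ∀ (n : ℕ) (x : M), W n x x
  symm : ∀ (n : ℕ) (x y : M), W n x y → W n y x
  trans : ∀ (n : ℕ) (x y z : M), W n x y → W n y z → W n x z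
  mono : ∀ (n : ℕ) (x y : M), W (n + 1) x y → W n x y
  total : ∀ x y : M, W 0 x y
  split : ∀ (n : ℕ) (x : M) (k : ℕ) (F : Fin k → M), ∃ y, W n x y ∧ ∀ i, ¬ W (n + 1) (F i) y

/-- The space of sequences of natural numbers. -/
def S0 : Type := ℕ → ℕ

instance : Nonempty S0 := ⟨fun _ => 0⟩

/-- Two sequences are in relation `n` if they agree below `n`. -/
instance : (LB ℕ).Structure S0 := brStr fun n (f g : ℕ → ℕ) => ∀ i < n, f i = g i

theorem S0_W (n : ℕ) (f g : S0) : W n f g ↔ ∀ i < n, f i = g i := Iff.rfl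

theorem S0_ERel : ERel S0 where
  refl n x := fun i _ => rfl
  symm n x y h := fun i hi => (h i hi).symm
  trans n x y z h h' := fun i hi => (h i hi).trans (h' i hi)
  mono n x y h := fun i hi => h i (Nat.lt_succ_of_lt hi)
  total x y := fun i hi => absurd hi (Nat.not_lt_zero i)
  split n x k F := by
    obtain ⟨N, hN⟩ := Finset.exists_le (Finset.univ.image fun i : Fin k => F i n)
    refine ⟨fun i => if i < n then x i else N + 1, fun i hi => ?_, fun i h => ?_⟩
    · show x i = if i < n then x i else N + 1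
      rw [if_pos hi]
    · have h1 : F i n = if n < n then x n else N + 1 := h n (Nat.lt_succ_self n)
      rw [if_neg (lt_irrefl n)] at h1
      have := hN (F i n) (Finset.mem_image_of_mem _ (Finset.mem_univ i))
      omega

theorem countable_BRel (I : Type) [Countable I] : Countable (Σ n, BRel I n) := by
  have : Function.Injective (fun x : (Σ n, BRel I n) => match x with
    | ⟨_, .r i⟩ => i) := by
    rintro ⟨_, ⟨i⟩⟩ ⟨_, ⟨j⟩⟩ h
    have : i = j := h
    rw [this]
  exact this.countable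

theorem countable_Empty : Countable (Σ _ : ℕ, Empty) := by
  have : IsEmpty (Σ _ : ℕ, Empty) := ⟨fun x => x.2.elim⟩
  infer_instance

/-- The theory of refining equivalence relations with infinite splitting. -/
def T0 : CTheory where
  lang := LB ℕ
  countable_functions := countable_Empty
  countable_relations := countable_BRel ℕ
  theory := (LB ℕ).completeTheory S0
  complete := completeTheory.isComplete (LB ℕ) S0

theorem ERel.of_model {M : Type} [(LB ℕ).Structure M] (hM : M ⊨ (LB ℕ).completeTheory S0) :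
    ERel M where
  refl n := by
    have hu : UDef (LB ℕ) (α := Empty) fun M _ _ => ∀ x : M, W n x x := UDef.all (uW _ _ _)
    exact hu.of_model hM (S0_ERel.refl n)
  symm n := by
    have hu : UDef (LB ℕ) (α := Empty) fun M _ _ => ∀ x y : M, W n x y → W n y x :=
      UDef.all (UDef.all (UDef.imp (uW _ _ _) (uW _ _ _)))
    exact hu.of_model hM (S0_ERel.symm n)
  trans n := by
    have hu : UDef (LB ℕ) (α := Empty) fun M _ _ =>
        ∀ x y z : M, W n x y → W n y z → W n x z :=
      UDef.all (UDef.all (UDef.all (UDef.imp (uW _ _ _) (UDef.imp (uW _ _ _) (uW _ _ _)))))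
    exact hu.of_model hM (S0_ERel.trans n)
  mono n := by
    have hu : UDef (LB ℕ) (α := Empty) fun M _ _ => ∀ x y : M, W (n + 1) x y → W n x y :=
      UDef.all (UDef.all (UDef.imp (uW _ _ _) (uW _ _ _)))
    exact hu.of_model hM (S0_ERel.mono n)
  total := by
    have hu : UDef (LB ℕ) (α := Empty) fun M _ _ => ∀ x y : M, W 0 x y :=
      UDef.all (UDef.all (uW _ _ _))
    exact hu.of_model hM S0_ERel.total
  split n x k := by
    have hu : UDef (LB ℕ) (α := Empty) fun M _ _ => ∀ x : M, ∀ F : Fin k → M,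
        ∃ y, W n x y ∧ ∀ i, ¬ W (n + 1) (F i) y :=
      UDef.all (UDef.alls (UDef.ex (UDef.and (uW _ _ _) (UDef.fin fun i =>
        UDef.not (uW _ _ _)))))
    exact hu.of_model hM (fun x F => S0_ERel.split n x k F) x

namespace ERel

variable {M : Type} [(LB ℕ).Structure M]

theorem mono_le (h : ERel M) {n m : ℕ} (hnm : n ≤ m) {x y : M} (hxy : W m x y) : W n x y := by
  induction hnm with
  | refl => exact hxy
  | step _ ih => exact ih (h.mono _ _ _ hxy)

theorem bf (h : ERel M) (K : ℕ) : BF {n | n ≤ K} M := by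
  classical
  intro ι _ u u' hs x
  by_cases hx : ∃ s, u s = x
  · obtain ⟨s, rfl⟩ := hx
    exact ⟨u' s, fun t => hs.1 t s, fun r hr => ⟨hs.2 r hr s s,
      fun t => ⟨hs.2 r hr s t, hs.2 r hr t s⟩⟩⟩
  · push Not at hx
    by_cases hι : Nonempty ι
    · have hn : ∃ n ≤ K, (∃ s, W n x (u s)) ∧ ∀ m, n < m → m ≤ K → ∀ s, ¬ W m x (u s) := by
        have h0 : ∃ s, W 0 x (u s) := ⟨hι.some, h.total _ _⟩
        let n := Nat.findGreatest (fun n => ∃ s, W n x (u s)) K
        refine ⟨n, Nat.findGreatest_le K, Nat.findGreatest_spec (P := fun n => ∃ s, W n x (u s))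
          (Nat.zero_le K) h0, fun m h1 h2 s hW => ?_⟩
        exact Nat.findGreatest_is_greatest h1 h2 ⟨s, hW⟩
      obtain ⟨n, hnK, ⟨s, hs1⟩, hmax⟩ := hn
      obtain ⟨k, ⟨e⟩⟩ := Finite.exists_equiv_fin ι
      obtain ⟨y, hy1, hy2⟩ := h.split n (u' s) k (u' ∘ e.symm)
      have hy3 : ∀ t, ¬ W (n + 1) (u' t) y := fun t => by
        have := hy2 (e t)
        simpa using this
      have key : ∀ r ∈ {n | n ≤ K}, ∀ t, (W r x (u t) ↔ W r y (u' t)) := by
        intro r hr t
        have hrK : r ≤ K := hr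
        rcases le_or_gt r n with hrn | hrn
        · have h1 : W r x (u s) := h.mono_le hrn hs1
          have h2 : W r (u' s) y := h.mono_le hrn hy1
          constructor
          · intro h3
            have h4 : W r (u s) (u t) := h.trans _ _ _ _ (h.symm _ _ _ h1) h3
            exact h.trans _ _ _ _ (h.symm _ _ _ h2) ((hs.2 r hr s t).1 h4)
          · intro h3
            have h4 : W r (u' s) (u' t) := h.trans _ _ _ _ h2 h3
            exact h.trans _ _ _ _ h1 ((hs.2 r hr s t).2 h4)
        · constructor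
          · intro h3
            exact absurd h3 (hmax r hrn hrK t)
          · intro h3
            exact absurd (h.mono_le (Nat.succ_le_of_lt hrn) (h.symm _ _ _ h3)) (hy3 t)
      refine ⟨y, fun t => ⟨fun h1 => absurd h1 (hx t), fun h1 => ?_⟩, fun r hr =>
        ⟨⟨fun _ => h.refl _ _, fun _ => h.refl _ _⟩, fun t => ⟨key r hr t, ?_⟩⟩⟩
      · refine absurd ?_ (hy3 t)
        rw [h1]
        exact h.refl _ _
      · constructor
        · intro h1
          exact h.symm _ _ _ ((key r hr t).1 (h.symm _ _ _ h1))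
        · intro h1
          exact h.symm _ _ _ ((key r hr t).2 (h.symm _ _ _ h1))
    · exact ⟨x, fun s => absurd ⟨s⟩ hι, fun r hr => ⟨Iff.rfl, fun s => absurd ⟨s⟩ hι⟩⟩

end ERel

/-- Iterated limits commute. -/
theorem lim_comm {M : Type} (r : M → M → Prop) (hs : ∀ x y, r x y → r y x)
    (ht : ∀ x y z, r x y → r y z → r x z) (U : Ultrafilter ℕ) (p q : ℕ → M)
    (h : ∀ᶠ i in (U : Filter ℕ), ∀ᶠ j in (U : Filter ℕ), r (p i) (q j)) :
    ∀ᶠ j in (U : Filter ℕ), ∀ᶠ i in (U : Filter ℕ), r (p i) (q j) := by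
  obtain ⟨i₀, h₀⟩ := h.exists
  filter_upwards [h₀] with j hj
  filter_upwards [h] with i hi
  obtain ⟨j', h1, h2⟩ := (hi.and h₀).exists
  exact ht _ _ _ h1 (ht _ _ _ (hs _ _ h2) hj)

theorem lim_comm_iff {M : Type} (r : M → M → Prop) (hs : ∀ x y, r x y → r y x)
    (ht : ∀ x y z, r x y → r y z → r x z) (U : Ultrafilter ℕ) (p q : ℕ → M) :
    (∀ᶠ i in (U : Filter ℕ), ∀ᶠ j in (U : Filter ℕ), r (p i) (q j)) ↔
    ∀ᶠ j in (U : Filter ℕ), ∀ᶠ i in (U : Filter ℕ), r (p i) (q j) := by
  constructor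
  · exact lim_comm r hs ht U p q
  · intro h
    have h1 := lim_comm r hs ht U q p (h.mono fun j hj => hj.mono fun i hi => hs _ _ hi)
    exact h1.mono fun j hj => hj.mono fun i hi => hs _ _ hi

theorem lim_comm_sum {M : Type} (r : M → M → Prop) (hs : ∀ x y, r x y → r y x)
    (ht : ∀ x y z, r x y → r y z → r x z) (U : Ultrafilter ℕ) {m n : ℕ} (a : ℕ → Fin m → M)
    (b : ℕ → Fin n → M) (s t : Fin m ⊕ Fin n) :
    (∀ᶠ i in (U : Filter ℕ), ∀ᶠ j in (U : Filter ℕ),
      r (Sum.elim (a i) (b j) s) (Sum.elim (a i) (b j) t)) ↔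
    ∀ᶠ j in (U : Filter ℕ), ∀ᶠ i in (U : Filter ℕ),
      r (Sum.elim (a i) (b j) s) (Sum.elim (a i) (b j) t) := by
  rcases s with s | s <;> rcases t with t | t
  · simp
  · exact lim_comm_iff r hs ht U (fun i => a i s) (fun j => b j t)
  · have h1 := lim_comm_iff r hs ht U (fun i => a i t) (fun j => b j s)
    have h2 : ∀ x y, r x y ↔ r y x := fun x y => ⟨hs x y, hs y x⟩
    simp only [Sum.elim_inl, Sum.elim_inr]
    simp only [h2 (b _ s)]
    exact h1
  · simp

theorem T0_stable : T0.Stable := by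
  classical
  rintro ⟨M, inst, hne, hM, m, n, φ, a, b, hab⟩
  letI : (LB ℕ).Structure M := inst
  have h : ERel M := ERel.of_model hM
  obtain ⟨K, hK⟩ := qe_formula (I := ℕ) φ
  let k := K.sup id
  have hJ : (K : Set ℕ) ⊆ {n | n ≤ k} := fun i hi => Finset.le_sup (f := id) hi
  let U : Ultrafilter ℕ := Filter.hyperfilter ℕ
  let u : ℕ → ℕ → Fin m ⊕ Fin n → M := fun i j => Sum.elim (a i) (b j)
  let rr : Option (Fin (k + 1)) → M → M → Prop := fun o => match o with
    | none => fun x y => x = y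
    | some r => fun x y => W (r : ℕ) x y
  have hsymm : ∀ o x y, rr o x y → rr o y x := by
    rintro (_ | r) x y hxy
    · exact hxy.symm
    · exact h.symm _ _ _ hxy
  have htrans : ∀ o x y z, rr o x y → rr o y z → rr o x z := by
    rintro (_ | r) x y z hxy hyz
    · exact hxy.trans hyz
    · exact h.trans _ _ _ _ hxy hyz
  let τ : Option (Fin (k + 1)) → Fin m ⊕ Fin n → Fin m ⊕ Fin n → Prop := fun o s t =>
    ∀ᶠ i in (U : Filter ℕ), ∀ᶠ j in (U : Filter ℕ), rr o (u i j s) (u i j t)
  have hτ : ∀ o s t, τ o s t ↔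
      ∀ᶠ j in (U : Filter ℕ), ∀ᶠ i in (U : Filter ℕ), rr o (u i j s) (u i j t) :=
    fun o s t => lim_comm_sum (rr o) (hsymm o) (htrans o) U a b s t
  have h1 : ∀ᶠ i in (U : Filter ℕ), ∀ᶠ j in (U : Filter ℕ),
      ∀ o s t, (rr o (u i j s) (u i j t) ↔ τ o s t) := by
    simp only [Filter.eventually_all]
    intro o s t
    by_cases hτ1 : τ o s t
    · exact hτ1.mono fun i hi => hi.mono fun j hj => iff_of_true hj hτ1
    · have h2 : ∀ᶠ i in (U : Filter ℕ), ¬ ∀ᶠ j in (U : Filter ℕ), rr o (u i j s) (u i j t) :=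
        Ultrafilter.eventually_not.2 hτ1
      exact h2.mono fun i hi => (Ultrafilter.eventually_not.2 hi).mono fun j hj =>
        iff_of_false hj hτ1
  have h2 : ∀ᶠ j in (U : Filter ℕ), ∀ᶠ i in (U : Filter ℕ),
      ∀ o s t, (rr o (u i j s) (u i j t) ↔ τ o s t) := by
    simp only [Filter.eventually_all]
    intro o s t
    by_cases hτ1 : τ o s t
    · exact ((hτ o s t).1 hτ1).mono fun i hi => hi.mono fun j hj => iff_of_true hj hτ1
    · have h2 : ∀ᶠ j in (U : Filter ℕ), ¬ ∀ᶠ i in (U : Filter ℕ), rr o (u i j s) (u i j t) :=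
        Ultrafilter.eventually_not.2 fun h3 => hτ1 ((hτ o s t).2 h3)
      exact h2.mono fun i hi => (Ultrafilter.eventually_not.2 hi).mono fun j hj =>
        iff_of_false hj hτ1
  have hgt : ∀ i : ℕ, ∀ᶠ j in (U : Filter ℕ), i < j := fun i =>
    Nat.hyperfilter_le_atTop (eventually_gt_atTop i)
  obtain ⟨i, hi⟩ := (h1.exists : _)
  obtain ⟨j, hj, hij⟩ := (hi.and (hgt i)).exists
  obtain ⟨j', hj'⟩ := (h2.exists : _)
  obtain ⟨i', hi', hij'⟩ := (hj'.and (hgt j')).exists
  have hsim : Sim {n | n ≤ k} (u i j) (u i' j') := by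
    constructor
    · intro s t
      exact (hj none s t).trans (hi' none s t).symm
    · intro r hr s t
      have hrk : r < k + 1 := Nat.lt_succ_of_le hr
      exact (hj (some ⟨r, hrk⟩) s t).trans (hi' (some ⟨r, hrk⟩) s t).symm
  have h3 := hK M _ hJ (h.bf k) _ _ hsim
  have h4 := (hab i j).2 hij
  have h5 := (hab i' j').1 (h3.1 h4)
  omega

end Pool.Agent.Lib.MP_491b55_lc
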