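import Pool.Agent.Lib.MP_491b55_lc.BinRel
import Pool.Agent.Lib.MP_491b55_lc.SatExt
import Pool.Agent.Lib.MP_491b55_lc.Expand
import Pool.Agent.Lib.MP_491b55_lc.StableTh

/-!
# The theory of the random graph
-/

set_option autoImplicit false

open FirstOrder FirstOrder.Language Filter

namespace Pool.Agent.Lib.MP_491b55_lc

/-- Graphs with the extension property. -/
structure EGraph (M : Type) [(LB Unit).Structure M] : Prop where
  symm : ∀ x y : M, W () x y → W () y x
  irrefl : ∀ x : M, ¬ W () x x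
  ext : ∀ (k : ℕ) (f : Fin k → Prop) (c : Fin k → M), (∀ s t, f s → ¬ f t → c s ≠ c t) →
    ∃ x, ∀ s, (W () x (c s) ↔ f s) ∧ x ≠ c s

/-- The vertices of the random graph. -/
def G1 : Type := ℕ

instance : Nonempty G1 := ⟨(0 : ℕ)⟩

/-- The binary digits. -/
def bits (y : ℕ) : Finset ℕ := Finset.equivBitIndices y

theorem lt_of_mem_bits {x y : ℕ} (h : x ∈ bits y) : x < y := by
  have h1 := Finset.lt_geomSum_of_mem (n := 2) le_rfl h
  have h2 : ∑ i ∈ bits y, 2 ^ i = y := Finset.equivBitIndices.symm_apply_apply y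
  rwa [h2] at h1

/-- Adjacency in the random graph. -/
def adjG (x y : ℕ) : Prop := x ∈ bits y ∨ y ∈ bits x

/-- The random graph. -/
instance : (LB Unit).Structure G1 := brStr fun _ (x y : ℕ) => adjG x y

theorem G1_W (x y : ℕ) : W (M := G1) () x y ↔ adjG x y := Iff.rfl

theorem G1_EGraph : EGraph G1 where
  symm x y h := Or.symm h
  irrefl x h := by
    have h1 : (x : ℕ) ∈ bits x := by
      rcases h with h | h <;> exact h
    exact lt_irrefl _ (lt_of_mem_bits h1)
  ext k f c hc := by
    classical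
    let c' : Fin k → ℕ := c
    obtain ⟨N, hN⟩ := Finset.exists_le (Finset.univ.image c')
    have hN' : ∀ s, c' s ≤ N := fun s => hN _ (Finset.mem_image_of_mem _ (Finset.mem_univ s))
    let Z : Finset ℕ := insert (N + 1) ((Finset.univ.filter f).image c')
    let z : ℕ := Finset.equivBitIndices.symm Z
    have hz : bits z = Z := Finset.equivBitIndices.apply_symm_apply Z
    have hzN : N + 1 < z := lt_of_mem_bits (by rw [hz]; exact Finset.mem_insert_self _ _)
    refine ⟨z, fun s => ⟨?_, ?_⟩⟩
    · show (z ∈ bits (c' s) ∨ c' s ∈ bits z) ↔ f s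
      rw [hz]
      constructor
      · rintro (h | h)
        · have := lt_of_mem_bits h
          have := hN' s
          omega
        · rcases Finset.mem_insert.1 h with h | h
          · have := hN' s
            omega
          · obtain ⟨t, ht, hts⟩ := Finset.mem_image.1 h
            by_contra hfs
            exact hc t s (Finset.mem_filter.1 ht).2 hfs hts
      · intro h
        exact Or.inr (Finset.mem_insert_of_mem (Finset.mem_image_of_mem _
          (Finset.mem_filter.2 ⟨Finset.mem_univ _, h⟩)))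
    · intro h
      have h1 : z = c' s := h
      have := hN' s
      omega

/-- The theory of the random graph. -/
def T1 : CTheory where
  lang := LB Unit
  countable_functions := countable_Empty
  countable_relations := countable_BRel Unit
  theory := (LB Unit).completeTheory G1
  complete := completeTheory.isComplete (LB Unit) G1

theorem EGraph.of_model {M : Type} [(LB Unit).Structure M]
    (hM : M ⊨ (LB Unit).completeTheory G1) : EGraph M where
  symm := by
    have hu : UDef (LB Unit) (α := Empty) fun M _ _ => ∀ x y : M, W () x y → W () y x :=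
      UDef.all (UDef.all (UDef.imp (uW _ _ _) (uW _ _ _)))
    exact hu.of_model hM G1_EGraph.symm
  irrefl := by
    have hu : UDef (LB Unit) (α := Empty) fun M _ _ => ∀ x : M, ¬ W () x x :=
      UDef.all (UDef.not (uW _ _ _))
    exact hu.of_model hM G1_EGraph.irrefl
  ext k f := by
    have hu : UDef (LB Unit) (α := Empty) fun M _ _ => ∀ c : Fin k → M,
        (∀ s t, f s → ¬ f t → ¬ c s = c t) → ∃ x, ∀ s, (W () x (c s) ↔ f s) ∧ ¬ x = c s :=
      UDef.alls (UDef.imp (UDef.fin fun s => UDef.fin fun t => UDef.imp (UDef.const _)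
        (UDef.imp (UDef.const _) (UDef.not (UDef.eq _ _)))) (UDef.ex (UDef.fin fun s =>
          UDef.and (UDef.iff (uW _ _ _) (UDef.const _)) (UDef.not (UDef.eq _ _)))))
    exact hu.of_model hM (G1_EGraph.ext k f)

namespace EGraph

variable {M : Type} [(LB Unit).Structure M]

theorem ext' (h : EGraph M) {ι : Type} [Finite ι] (f : ι → Prop) (c : ι → M)
    (hf : ∀ s t, f s → ¬ f t → c s ≠ c t) : ∃ x, ∀ s, (W () x (c s) ↔ f s) ∧ x ≠ c s := by
  obtain ⟨k, ⟨e⟩⟩ := Finite.exists_equiv_fin ι
  obtain ⟨x, hx⟩ := h.ext k (f ∘ e.symm) (c ∘ e.symm) fun s t => hf _ _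
  refine ⟨x, fun s => ?_⟩
  have := hx (e s)
  simpa using this

theorem bf (h : EGraph M) : BF (Set.univ : Set Unit) M := by
  classical
  intro ι _ u u' hs x
  by_cases hx : ∃ s, u s = x
  · obtain ⟨s, rfl⟩ := hx
    exact ⟨u' s, fun t => hs.1 t s, fun r hr => ⟨hs.2 r hr s s,
      fun t => ⟨hs.2 r hr s t, hs.2 r hr t s⟩⟩⟩
  · push Not at hx
    obtain ⟨y, hy⟩ := h.ext' (fun s => W () x (u s)) u' (by
      intro s t h1 h2 h3
      have h4 := (hs.1 s t).2 h3
      exact h2 (h4 ▸ h1))
    refine ⟨y, fun s => ⟨fun h1 => absurd h1 (hx s), fun h1 => absurd h1.symm (hy s).2⟩,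
      fun r _ => ?_⟩
    cases r
    refine ⟨iff_of_false (h.irrefl x) (h.irrefl y), fun s => ⟨(hy s).1.symm, ?_⟩⟩
    constructor
    · intro h1
      exact h.symm _ _ ((hy s).1.2 (h.symm _ _ h1))
    · intro h1
      exact h.symm _ _ ((hy s).1.1 (h.symm _ _ h1))

/-- A half graph. -/
theorem halfGraph (h : EGraph M) [Nonempty M] : ∃ (a b : ℕ → M), ∀ i j, W () (a i) (b j) ↔ i < j := by
  classical
  obtain ⟨C, hC, hCC⟩ := exists_seq_of_forall_finset_exists
    (fun C : M × M => ¬ W () C.1 C.2) (fun C C' => W () C.1 C'.2 ∧ ¬ W () C'.1 C.2) (by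
      intro s _
      obtain ⟨a, ha⟩ := h.ext' (ι := s ⊕ s) (fun _ => False)
        (Sum.elim (fun C : s => C.1.1) fun C => C.1.2) (fun _ _ h => h.elim)
      obtain ⟨b, hb⟩ := h.ext' (ι := Option s) (fun o => o.isSome)
        (fun o => match o with
          | none => a
          | some C => C.1.1) (by
        rintro (_ | s) (_ | t) h1 h2
        · simp at h1
        · simp at h1
        · exact fun h3 => (ha (Sum.inl s)).2 h3.symm
        · simp at h2)
      refine ⟨(a, b), ?_, fun C hCs => ⟨?_, ?_⟩⟩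
      · intro h1
        have := (hb none).1.1 (h.symm _ _ h1)
        simp at this
      · exact h.symm _ _ ((hb (some ⟨C, hCs⟩)).1.2 rfl)
      · exact (ha (Sum.inr ⟨C, hCs⟩)).1.1)
  refine ⟨fun i => (C i).1, fun j => (C j).2, fun i j => ?_⟩
  rcases lt_trichotomy i j with h1 | rfl | h1
  · exact iff_of_true (hCC i j h1).1 h1
  · exact iff_of_false (hC i) (lt_irrefl i)
  · exact iff_of_false (hCC j i h1).2 (not_lt.2 h1.le)

end EGraph

theorem T1_unstable : T1.Unstable := by
  obtain ⟨a, b, hab⟩ := G1_EGraph.halfGraph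
  refine ⟨G1, inferInstanceAs ((LB Unit).Structure G1), inferInstance, ?_, ?_⟩
  · exact (inferInstanceAs (G1 ⊨ (LB Unit).completeTheory G1))
  obtain ⟨φ, hφ⟩ := uW (α := Fin 1 ⊕ Fin 1) () (Sum.inl 0) (Sum.inr 0)
  refine ⟨1, 1, φ, fun i _ => a i, fun j _ => b j, fun i j => ?_⟩
  rw [← hab]
  exact hφ G1 _

/-- A graph with the extension property for sets of size less than `lam` is saturated. -/
theorem EGraph.isSaturated {M : Type} [(LB Unit).Structure M] (h : EGraph M)
    (lam : Cardinal.{0})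
    (hext : ∀ A : Set M, Cardinal.mk A < lam → ∀ f : M → Prop,
      ∃ x, ∀ s ∈ A, (W () x s ↔ f s) ∧ x ≠ s) : IsSaturated (LB Unit) M lam := by
  classical
  intro A hA p hp
  -- witnesses of the finite parts
  let I := Finset ((LB Unit).Formula (A ⊕ Unit))
  have hw : ∀ q : I, ∃ x : M, ∀ φ ∈ q, φ ∈ p → φ.Realize (Sum.elim (fun a : A => (a : M)) fun _ => x) := by
    intro q
    obtain ⟨x, hx⟩ := hp (q.filter fun φ => φ ∈ p) (fun φ hφ => (Finset.mem_filter.1 hφ).2)
    exact ⟨x, fun φ h1 h2 => hx φ (Finset.mem_filter.2 ⟨h1, h2⟩)⟩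
  choose w hw using hw
  let U : Ultrafilter I := Ultrafilter.of atTop
  have hU : ∀ φ ∈ p, ∀ᶠ q in (U : Filter I), φ.Realize (Sum.elim (fun a : A => (a : M)) fun _ => w q) := by
    intro φ hφ
    have h1 : ∀ᶠ q in (atTop : Filter I), φ ∈ q := by
      filter_upwards [eventually_ge_atTop ({φ} : I)] with q hq
      exact hq (Finset.mem_singleton_self _)
    have h2 : ∀ᶠ q in (U : Filter I), φ ∈ q := Ultrafilter.of_le _ h1
    exact h2.mono fun q hq => hw q φ hq hφ
  by_cases hcase : ∃ a ∈ A, ∀ᶠ q in (U : Filter I), w q = a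
  · obtain ⟨a, ha, hq⟩ := hcase
    refine ⟨a, fun φ hφ => ?_⟩
    obtain ⟨q, h1, h2⟩ := ((hU φ hφ).and hq).exists
    rw [h2] at h1
    exact h1
  · push Not at hcase
    obtain ⟨x, hx⟩ := hext A hA fun a => ∀ᶠ q in (U : Filter I), W () (w q) a
    refine ⟨x, fun φ hφ => ?_⟩
    -- restrict to the free variables
    obtain ⟨K, hK⟩ := qe_formula (I := Unit) (φ.restrictFreeVar (id : φ.freeVarFinset → φ.freeVarFinset))
    have hres : ∀ y : M, φ.Realize (Sum.elim (fun a : A => (a : M)) fun _ => y) ↔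
        Formula.Realize (φ.restrictFreeVar (id : φ.freeVarFinset → φ.freeVarFinset))
          (fun i => (Sum.elim (fun a : A => (a : M)) (fun _ => y) : A ⊕ Unit → M) i.1) := by
      intro y
      exact (BoundedFormula.realize_restrictFreeVar (φ := φ) (f := id)
        (v := fun i : φ.freeVarFinset => (Sum.elim (fun a : A => (a : M)) (fun _ => y) : A ⊕ Unit → M) i.1)
        (xs := (default : Fin 0 → M)) (Sum.elim (fun a : A => (a : M)) fun _ => y)
        (fun a => rfl)).symm
    have hev : ∀ᶠ q in (U : Filter I), ∀ a : φ.freeVarFinset, ∀ b : A, a.1 = Sum.inl b →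
        (w q ≠ b) ∧ (W () (w q) (b : M) ↔ W () x (b : M)) := by
      rw [Filter.eventually_all]
      intro a
      rcases ha : a.1 with b | u
      · have h1 : ∀ᶠ q in (U : Filter I), w q ≠ b := hcase b.1 b.2
        have h2 : ∀ᶠ q in (U : Filter I), (W () (w q) (b : M) ↔ W () x (b : M)) := by
          by_cases h3 : ∀ᶠ q in (U : Filter I), W () (w q) (b : M)
          · exact h3.mono fun q hq => iff_of_true hq ((hx b b.2).1.2 h3)
          · exact (Ultrafilter.eventually_not.2 h3).mono fun q hq =>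
              iff_of_false hq fun h4 => h3 ((hx b b.2).1.1 h4)
        filter_upwards [h1, h2] with q hq1 hq2 c hc
        cases hc
        exact ⟨hq1, hq2⟩
      · exact Filter.Eventually.of_forall fun q c hc => by cases hc
    obtain ⟨q, hq1, hq2⟩ := ((hU φ hφ).and hev).exists
    rw [hres] at hq1 ⊢
    refine (hK M Set.univ (Set.subset_univ _) h.bf _ _ ?_).1 hq1
    constructor
    · rintro ⟨s, hs⟩ ⟨t, ht⟩
      rcases s with s | s <;> rcases t with t | t
      · exact Iff.rfl
      · exact iff_of_false (fun h1 => (hq2 ⟨_, hs⟩ s rfl).1 h1.symm)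
          fun h1 => (hx s s.2).2 h1.symm
      · exact iff_of_false (fun h1 => (hq2 ⟨_, ht⟩ t rfl).1 h1)
          fun h1 => (hx t t.2).2 h1
      · exact iff_of_true rfl rfl
    · rintro ⟨⟩ - ⟨s, hs⟩ ⟨t, ht⟩
      rcases s with s | s <;> rcases t with t | t
      · exact Iff.rfl
      · have h1 := (hq2 ⟨_, hs⟩ s rfl).2
        exact ⟨fun h2 => h.symm _ _ (h1.1 (h.symm _ _ h2)),
          fun h2 => h.symm _ _ (h1.2 (h.symm _ _ h2))⟩
      · exact (hq2 ⟨_, ht⟩ t rfl).2
      · exact iff_of_false (h.irrefl _) (h.irrefl _)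

end Pool.Agent.Lib.MP_491b55_lc
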