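import Pool.Agent.Lib.MP_491b55_lc.Defs

/-!
# The finite satisfiability lemma

Inside a structure `N` with an increasing sequence `K n` of subsets meeting definable sets.
-/

set_option autoImplicit false

open FirstOrder FirstOrder.Language Set

namespace Pool.Agent.Lib.MP_491b55_lc.Core

variable {L : FirstOrder.Language.{0, 0}}

/-! ### Definability tools -/

section tools

variable {N : Type} [L.Structure N] {A : Set N} {α : Type}

theorem def_const (p : Prop) : A.Definable L {_v : α → N | p} := by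
  by_cases h : p
  · simp only [h]
    exact Set.definable_univ
  · simp only [h]
    exact Set.definable_empty

theorem def_and {p q : (α → N) → Prop} (hp : A.Definable L {v | p v}) (hq : A.Definable L {v | q v}) :
    A.Definable L {v | p v ∧ q v} := hp.inter hq

theorem def_not {p : (α → N) → Prop} (hp : A.Definable L {v | p v}) :
    A.Definable L {v | ¬ p v} := hp.compl

theorem def_imp {p q : (α → N) → Prop} (hp : A.Definable L {v | p v})
    (hq : A.Definable L {v | q v}) : A.Definable L {v | p v → q v} := by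
  have : {v | p v → q v} = {v | p v ∧ ¬ q v}ᶜ := by
    ext v
    simp only [mem_ofPred_eq, mem_compl_iff, not_and, not_not]
  rw [this]
  exact (def_and hp (def_not hq)).compl

theorem def_iff {p q : (α → N) → Prop} (hp : A.Definable L {v | p v})
    (hq : A.Definable L {v | q v}) : A.Definable L {v | p v ↔ q v} := by
  have : {v | p v ↔ q v} = {v | (p v → q v) ∧ (q v → p v)} := by
    ext v
    simp only [mem_ofPred_eq]
    exact iff_def
  rw [this]
  exact def_and (def_imp hp hq) (def_imp hq hp)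

theorem def_all {ι : Type} [Finite ι] {p : ι → (α → N) → Prop}
    (hp : ∀ i, A.Definable L {v | p i v}) : A.Definable L {v | ∀ i, p i v} := by
  have : {v | ∀ i, p i v} = ⋂ i, {v | p i v} := by
    ext v; simp
  rw [this]
  exact Set.definable_iInter_of_finite hp

theorem def_list {β : Type} (l : List β) {p : β → (α → N) → Prop}
    (hp : ∀ i ∈ l, A.Definable L {v | p i v}) : A.Definable L {v | ∀ i ∈ l, p i v} := by
  have : {v | ∀ i ∈ l, p i v} = {v | ∀ i : Fin l.length, p l[i] v} := by
    ext v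
    simp only [mem_ofPred_eq, List.forall_mem_iff_getElem]
    exact ⟨fun h i => h i.1 i.2, fun h i hi => h ⟨i, hi⟩⟩
  rw [this]
  exact def_all fun i => hp _ (List.getElem_mem _)

theorem def_finset {β : Type} (s : Finset β) {p : β → (α → N) → Prop}
    (hp : ∀ i ∈ s, A.Definable L {v | p i v}) : A.Definable L {v | ∀ i ∈ s, p i v} := by
  have : {v | ∀ i ∈ s, p i v} = {v | ∀ i : s, p i.1 v} := by
    ext v
    simp only [mem_ofPred_eq]
    exact ⟨fun h i => h i.1 i.2, fun h i hi => h ⟨i, hi⟩⟩
  rw [this]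
  exact def_all fun i => hp i.1 i.2

theorem def_ex {p : (α → N) → N → Prop}
    (hp : A.Definable L {w : α ⊕ Unit → N | p (w ∘ Sum.inl) (w (Sum.inr ()))}) :
    A.Definable L {v | ∃ x, p v x} := by
  have := Set.Definable.exists_of_finite hp
  convert this using 1
  ext v
  simp only [mem_ofPred_eq, Sum.elim_comp_inl, Sum.elim_inr]
  exact ⟨fun ⟨x, hx⟩ => ⟨fun _ => x, hx⟩, fun ⟨u, hu⟩ => ⟨u (), hu⟩⟩

theorem def_formula (ψ : L.Formula α) : A.Definable L {v | ψ.Realize v} :=
  (Set.empty_definable_iff.2 ⟨ψ, rfl⟩).mono (empty_subset _)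

theorem def_rel2 (ψ : L.Formula (Fin 2)) {F G : (α → N) → N} (hF : A.DefinableFun L F)
    (hG : A.DefinableFun L G) : A.Definable L {v | ψ.Realize ![F v, G v]} := by
  have hFG : A.DefinableMap L fun v : α → N => ![F v, G v] := by
    intro i
    fin_cases i
    · exact hF
    · exact hG
  exact (def_formula (A := A) ψ).preimage_map hFG

theorem def_rel1 (ψ : L.Formula (Fin 1)) {F : (α → N) → N} (hF : A.DefinableFun L F) :
    A.Definable L {v | ψ.Realize ![F v]} := by
  have hFG : A.DefinableMap L fun v : α → N => ![F v] := by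
    intro i
    fin_cases i
    exact hF
  exact (def_formula (A := A) ψ).preimage_map hFG

theorem defFun_proj (i : α) : A.DefinableFun L fun v : α → N => v i := Set.DefinableFun.proj L

theorem defFun_const {a : N} (ha : a ∈ A) : A.DefinableFun L fun _ : α → N => a :=
  definableFun_const L α ha

/-- `g : N → N` is definable with parameters from `A`. -/
def DefFun (L : FirstOrder.Language.{0, 0}) {N : Type} [L.Structure N] (A : Set N) (g : N → N) :
    Prop := A.DefinableFun L fun v : Unit → N => g (v ())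

theorem DefFun.comp {g : N → N} (hg : DefFun L A g) {F : (α → N) → N}
    (hF : A.DefinableFun L F) : A.DefinableFun L fun v => g (F v) :=
  Set.DefinableFun.comp (g := fun (v : α → N) (_ : Unit) => F v) (fun _ => hF) hg

theorem DefFun.mono {B : Set N} {g : N → N} (hg : DefFun L A g) (h : A ⊆ B) : DefFun L B g :=
  Set.DefinableFun.mono hg h

/-- A set meeting definable sets meets definable sets of tuples. -/
theorem meets_tuple (hA : L.MeetsDefinable A) {ι : Type} [Finite ι] (S : Set (ι → N))
    (hS : S.Nonempty) (hdef : A.Definable L S) : ∃ v ∈ S, ∀ i, v i ∈ A := by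
  have key : ∀ k : ℕ, ∀ S : Set (Fin k → N), S.Nonempty → A.Definable L S →
      ∃ v ∈ S, ∀ i, v i ∈ A := by
    intro k
    induction k with
    | zero =>
      intro S ⟨v, hv⟩ _
      exact ⟨v, hv, fun i => i.elim0⟩
    | succ k ih =>
      intro S ⟨v, hv⟩ hdef
      have h1 : A.Definable₁ L {y | ∃ v ∈ S, v 0 = y} := by
        have := hdef.image_comp (fun _ : Fin 1 => (0 : Fin (k + 1)))
        unfold Set.Definable₁
        convert this using 1
        ext x
        simp only [mem_ofPred_eq, mem_image]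
        constructor
        · rintro ⟨v, hv, h⟩
          refine ⟨v, hv, ?_⟩
          funext i
          fin_cases i
          exact h
        · rintro ⟨v, hv, rfl⟩
          exact ⟨v, hv, rfl⟩
      obtain ⟨y, ⟨v1, hv1, hy⟩, hyA⟩ := hA {y | ∃ v ∈ S, v 0 = y} ⟨v 0, v, hv, rfl⟩ h1
      have h2 : A.Definable L (S ∩ {v | v 0 = y}) :=
        hdef.inter ((defFun_proj (A := A) (0 : Fin (k + 1))).ofPred_eq_const hyA)
      have h3 := h2.image_comp (Fin.succ : Fin k → Fin (k + 1))
      have hne : Set.Nonempty ((fun g : Fin (k + 1) → N => g ∘ (Fin.succ : Fin k → Fin (k + 1))) ''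
          (S ∩ {v | v 0 = y})) := ⟨v1 ∘ Fin.succ, v1, ⟨hv1, hy⟩, rfl⟩
      obtain ⟨w, ⟨v2, ⟨hv2, h0⟩, hw⟩, hwA⟩ := ih _ hne h3
      refine ⟨v2, hv2, fun i => ?_⟩
      refine Fin.cases ?_ (fun i => ?_) i
      · rw [show v2 0 = y from h0]; exact hyA
      · have := hwA i
        rw [← hw] at this
        exact this
  obtain ⟨k, ⟨e⟩⟩ := Finite.exists_equiv_fin ι
  have h1 := hdef.preimage_comp (e : ι → Fin k)
  obtain ⟨v, hv⟩ := hS
  obtain ⟨w, hw, hwA⟩ := key k _ ⟨v ∘ e.symm, by
    show (v ∘ e.symm) ∘ e ∈ S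
    have : (v ∘ e.symm) ∘ e = v := by funext i; simp
    rw [this]; exact hv⟩ h1
  exact ⟨w ∘ e, hw, fun i => hwA _⟩

end tools

/-! ### The data -/

/-- The formulas used in the construction: `e n` is the `n`-th equivalence relation (on its
domain), `D` the domain of the graph, `ρ` the edge relation and `ε` the equality of the graph; `σ`
gives definable Skolem functions. -/
structure Data (L : FirstOrder.Language.{0, 0}) where
  /-- the equivalence relations -/
  e : ℕ → L.Formula (Fin 2)
  /-- the domain of the graph -/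
  D : L.Formula (Fin 1)
  /-- the edges of the graph -/
  ρ : L.Formula (Fin 2)
  /-- the equality of the graph -/
  ε : L.Formula (Fin 2)
  /-- definable Skolem functions -/
  σ : ∀ k, L.Formula (Fin k ⊕ Unit) → L.Formula (Fin k ⊕ Unit)

namespace Data

variable (d : Data L) {N : Type} [L.Structure N]

/-- the equivalence relations -/
def E (n : ℕ) (x y : N) : Prop := (d.e n).Realize ![x, y]

/-- the domain of the graph -/
def V (x : N) : Prop := d.D.Realize ![x]

/-- the edges -/
def R (x y : N) : Prop := d.ρ.Realize ![x, y]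

/-- the equality of the graph -/
def Q (x y : N) : Prop := d.ε.Realize ![x, y]

end Data

/-- The properties of the structure `N` which are used. -/
structure Base (d : Data L) (T : L.Theory) (N : Type) [L.Structure N] : Prop where
  model : N ⊨ T
  sk_unique : ∀ (k : ℕ) (φ : L.Formula (Fin k ⊕ Unit)) (v : Fin k → N),
    ∃! y : N, (d.σ k φ).Realize (Sum.elim v fun _ => y)
  sk_spec : ∀ (k : ℕ) (φ : L.Formula (Fin k ⊕ Unit)) (v : Fin k → N) (z y : N),
    φ.Realize (Sum.elim v fun _ => z) → (d.σ k φ).Realize (Sum.elim v fun _ => y) →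
      φ.Realize (Sum.elim v fun _ => y)
  E_symm : ∀ (n : ℕ) (x y : N), d.E n x y → d.E n y x
  E_trans : ∀ (n : ℕ) (x y z : N), d.E n x y → d.E n y z → d.E n x z
  E_mono : ∀ (n : ℕ) (x y : N), d.E (n + 1) x y → d.E n x y
  E_ne : ∃ x : N, d.E 0 x x
  E_split : ∀ (n : ℕ) (x : N), d.E n x x → ∀ (k : ℕ) (F : Fin k → N),
    ∃ y, d.E n x y ∧ d.E (n + 1) y y ∧ ∀ i, ¬ d.E (n + 1) (F i) y
  Q_refl : ∀ x : N, d.V x → d.Q x x
  Q_dom : ∀ x y : N, d.Q x y → d.V x
  Q_symm : ∀ x y : N, d.Q x y → d.Q y x
  Q_trans : ∀ x y z : N, d.Q x y → d.Q y z → d.Q x z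
  ext : ∀ (k : ℕ) (c : Fin k → N) (f : Fin k → Prop), (∀ s, d.V (c s)) →
    (∀ s t, f s → ¬ f t → ¬ d.Q (c s) (c t)) →
    ∃ x, d.V x ∧ ∀ s, (d.R x (c s) ↔ f s) ∧ ¬ d.Q x (c s)

/-- The finite satisfiability lemma. -/
theorem lemmaA {d : Data L} {T : L.Theory} {N : Type} [L.Structure N] (hN : Base d T N)
    (K : ℕ → Set N) (hK : Monotone K) (hmd : ∀ n, L.MeetsDefinable (K n)) (a : ℕ → N)
    (haK : ∀ n, a n ∈ K n) (havoid : ∀ n, ∀ y ∈ K n, ¬ d.E (n + 1) y (a (n + 1)))
    (hlink : ∀ n, d.E n (a n) (a n)) :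
    ∀ (M : ℕ) (ι : Type) [Finite ι] (c : ι → N) (f : ι → Prop), (∀ s, c s ∈ K M) →
      (∀ s, d.V (c s)) → (∀ s t, f s → ¬ f t → ¬ d.Q (c s) (c t)) →
      ∀ (G : ℕ → List (N → N)), (∀ n, ∀ g ∈ G n, DefFun L (K n) g) →
      ∃ x, d.V x ∧ (∀ s, (d.R x (c s) ↔ f s) ∧ ¬ d.Q x (c s)) ∧
        ∀ n < M, ∀ g ∈ G n, ¬ d.E (n + 1) (g x) (a (n + 1)) := by
  classical
  intro M
  induction M with
  | zero =>
    intro ι _ c f hc hV hf G hG
    obtain ⟨k, ⟨e⟩⟩ := Finite.exists_equiv_fin ι
    obtain ⟨x, hx, h⟩ := hN.ext k (c ∘ e.symm) (f ∘ e.symm) (fun s => hV _)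
      (fun s t => hf _ _)
    refine ⟨x, hx, fun s => ?_, fun n hn => absurd hn (Nat.not_lt_zero n)⟩
    have := h (e s)
    simpa using this
  | succ M ih =>
    intro ι _ c f hc hV hf G hG
    by_contra hcon
    -- the bad tuples
    let Bad : (Option ι → N) → Prop := fun C =>
      ∃ x, d.V x ∧ (∀ s, (d.R x (C (some s)) ↔ f s) ∧ ¬ d.Q x (C (some s))) ∧
        (∀ n : Fin M, ∀ g ∈ G n, ¬ d.E (n + 1) (g x) (a (n + 1))) ∧
        ∀ g ∈ G M, ¬ d.E (M + 1) (g x) (C none)
    have hBaddef : (K M).Definable L {C | Bad C} := by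
      refine def_ex (p := fun (C : Option ι → N) x => d.V x ∧
        (∀ s, (d.R x (C (some s)) ↔ f s) ∧ ¬ d.Q x (C (some s))) ∧
        (∀ n : Fin M, ∀ g ∈ G n, ¬ d.E (n + 1) (g x) (a (n + 1))) ∧
        ∀ g ∈ G M, ¬ d.E (M + 1) (g x) (C none)) ?_
      refine def_and (def_rel1 d.D (defFun_proj _)) (def_and (def_all fun s => ?_)
        (def_and (def_all fun n => def_list _ fun g hg => ?_) (def_list _ fun g hg => ?_)))
      · exact def_and (def_iff (def_rel2 d.ρ (defFun_proj _) (defFun_proj (Sum.inl (some s))))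
          (def_const _)) (def_not (def_rel2 d.ε (defFun_proj _) (defFun_proj (Sum.inl (some s)))))
      · refine def_not (def_rel2 (d.e (n + 1)) ?_ ?_)
        · exact ((hG n g hg).mono (hK n.2.le)).comp (defFun_proj _)
        · exact defFun_const (hK (Nat.succ_le_of_lt n.2) (haK _))
      · refine def_not (def_rel2 (d.e (M + 1)) ?_ ?_)
        · exact (hG M g hg).comp (defFun_proj _)
        · exact defFun_proj (Sum.inl none)
    -- representatives in `K M`
    have hrep : ∀ s : ι, ∃ r ∈ K M, (∃ r' ∈ K M, d.Q (c s) r') → d.Q (c s) r := by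
      intro s
      by_cases h : ∃ r' ∈ K M, d.Q (c s) r'
      · obtain ⟨r', h1, h2⟩ := h
        exact ⟨r', h1, fun _ => h2⟩
      · exact ⟨a M, haK M, fun h' => absurd h' h⟩
    choose r hrK hr using hrep
    let P : (Option ι → N) → Prop := fun C =>
      (∀ s : ι, d.V (C (some s))) ∧ (∀ s t : ι, f s → ¬ f t → ¬ d.Q (C (some s)) (C (some t))) ∧
        d.E (M + 1) (C none) (C none) ∧ ¬ Bad C ∧
        ∀ s t : ι, (d.Q (C (some s)) (r t) ↔ d.Q (c s) (r t))
    let Rr : (Option ι → N) → (Option ι → N) → Prop := fun C C' =>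
      (∀ s t : ι, (d.Q (C' (some s)) (C (some t)) ↔ d.Q (c s) (C (some t)))) ∧
        ¬ d.E (M + 1) (C none) (C' none)
    have hPdef : (K M).Definable L {C | P C} := by
      refine def_and (def_all fun s => def_rel1 d.D (defFun_proj _)) (def_and
        (def_all fun s => def_all fun t => def_imp (def_const _) (def_imp (def_const _)
          (def_not (def_rel2 d.ε (defFun_proj _) (defFun_proj _)))))
        (def_and (def_rel2 (d.e (M + 1)) (defFun_proj _) (defFun_proj _))
          (def_and (def_not hBaddef) (def_all fun s => def_all fun t => def_iff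
            (def_rel2 d.ε (defFun_proj _) (defFun_const (hrK t))) (def_const _)))))
    have hRdef : ∀ C : Option ι → N, (∀ i, C i ∈ K M) → (K M).Definable L {C' | Rr C C'} := by
      intro C hC
      refine def_and (def_all fun s => def_all fun t => def_iff
        (def_rel2 d.ε (defFun_proj _) (defFun_const (hC _))) (def_const _)) (def_not
        (def_rel2 (d.e (M + 1)) (defFun_const (hC _)) (defFun_proj _)))
    let C₀ : Option ι → N := fun o => o.elim (a (M + 1)) c
    have hP₀ : P C₀ := by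
      refine ⟨hV, hf, hlink _, ?_, fun s t => Iff.rfl⟩
      rintro ⟨x, h1, h2, h3, h4⟩
      refine hcon ⟨x, h1, h2, fun n hn g hg => ?_⟩
      rcases Nat.lt_succ_iff_lt_or_eq.1 hn with h | rfl
      · exact h3 ⟨n, h⟩ g hg
      · exact h4 g hg
    obtain ⟨C, hC, hCC⟩ := exists_seq_of_forall_finset_exists
      (fun C : Option ι → N => (∀ i, C i ∈ K M) ∧ P C) Rr (by
        intro s hs
        have hdef : (K M).Definable L {C' | P C' ∧ ∀ C ∈ s, Rr C C'} :=
          def_and hPdef (def_finset s fun C hCs => hRdef C (hs C hCs).1)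
        obtain ⟨C', hC', hC'K⟩ := meets_tuple (hmd M) _ (⟨C₀, hP₀, fun C hCs =>
          ⟨fun s t => Iff.rfl, havoid M _ ((hs C hCs).1 none)⟩⟩ :
            Set.Nonempty {C' | P C' ∧ ∀ C ∈ s, Rr C C'}) hdef
        exact ⟨C', ⟨hC'K, hC'.1⟩, hC'.2⟩)
    -- cross disjointness
    have hcross : ∀ i j (s t : ι), f s → ¬ f t → ¬ d.Q (C i (some s)) (C j (some t)) := by
      intro i j s t hs ht hQ
      rcases lt_trichotomy i j with hij | rfl | hij
      · -- `C j` is later: `c t ∼ C i s`
        have h1 : d.Q (c t) (C i (some s)) :=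
          ((hCC i j hij).1 t s).1 (hN.Q_symm _ _ hQ)
        have h2 : d.Q (c t) (r t) := hr t ⟨_, (hC i).1 _, h1⟩
        have h3 : d.Q (C i (some s)) (r t) :=
          hN.Q_trans _ _ _ (hN.Q_symm _ _ h1) h2
        have h4 : d.Q (c s) (r t) := ((hC i).2.2.2.2.2 s t).1 h3
        exact hf s t hs ht (hN.Q_trans _ _ _ h4 (hN.Q_symm _ _ h2))
      · exact (hC i).2.2.1 s t hs ht hQ
      · have h1 : d.Q (c s) (C j (some t)) := ((hCC j i hij).1 s t).1 hQ
        have h2 : d.Q (c s) (r s) := hr s ⟨_, (hC j).1 _, h1⟩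
        have h3 : d.Q (C j (some t)) (r s) := hN.Q_trans _ _ _ (hN.Q_symm _ _ h1) h2
        have h4 : d.Q (c t) (r s) := ((hC j).2.2.2.2.2 t s).1 h3
        exact hf s t hs ht (hN.Q_trans _ _ _ h2 (hN.Q_symm _ _ h4))
    -- apply the induction hypothesis to the first copies
    let m := (G M).length + 1
    obtain ⟨x, hxV, hxR, hxG⟩ := ih (Fin m × ι) (fun p => C p.1 (some p.2)) (fun p => f p.2)
      (fun p => (hC _).1 _) (fun p => (hC _).2.1 _) (fun p q => hcross _ _ _ _) G hG
    -- one copy is not hit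
    have hj : ∃ j : Fin m, ∀ g ∈ G M, ¬ d.E (M + 1) (g x) (C j none) := by
      by_contra hno
      push Not at hno
      choose g hg hgE using hno
      have hidx : ∀ j, ∃ i : Fin (G M).length, (G M)[i] = g j := fun j => by
        obtain ⟨i, hi, h⟩ := List.getElem_of_mem (hg j)
        exact ⟨⟨i, hi⟩, h⟩
      choose idx hidx using hidx
      have hinj : Function.Injective idx := by
        intro j j' hjj
        have hgg : g j = g j' := by rw [← hidx j, ← hidx j', hjj]
        by_contra hne
        have h1 := hgE j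
        have h2 := hgE j'
        rw [← hgg] at h2
        have h3 : d.E (M + 1) (C j none) (C j' none) :=
          hN.E_trans _ _ _ _ (hN.E_symm _ _ _ h1) h2
        rcases lt_or_gt_of_ne (fun h => hne (Fin.ext h) : (j : ℕ) ≠ j') with h | h
        · exact (hCC j j' h).2 h3
        · exact (hCC j' j h).2 (hN.E_symm _ _ _ h3)
      have := Fintype.card_le_of_injective idx hinj
      simp only [Fintype.card_fin, m] at this
      omega
    obtain ⟨j, hj⟩ := hj
    exact (hC j).2.2.2.2.1 ⟨x, hxV, fun s => hxR (j, s), fun n g hg => hxG n n.2 g hg, hj⟩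

end Pool.Agent.Lib.MP_491b55_lc.Core
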