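import Pool.Agent.Lib.MP_491b55_lc.LemmaA

/-!
# Names, configurations and compactness
-/

set_option autoImplicit false

open FirstOrder FirstOrder.Language Set Filter

namespace Pool.Agent.Lib.MP_491b55_lc.Core

variable {L : FirstOrder.Language.{0, 0}}

/-- Names for the elements of the model under construction. -/
inductive Nm (L : FirstOrder.Language.{0, 0}) : Type
  | a : ℕ → Nm L
  | x : (k : ℕ) → (Fin k → Nm L) → (Fin k → Prop) → Nm L
  | d : (k : ℕ) → L.Formula (Fin k ⊕ Unit) → (Fin k → Nm L) → Nm L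

namespace Nm

/-- `Lev n m`: the name `m` only uses the elements `a 0, …, a n` (and the vertices). -/
def Lev (n : ℕ) : Nm L → Prop
  | .a j => j ≤ n
  | .x _ _ _ => True
  | .d _ _ t => ∀ i, Lev n (t i)

theorem Lev.mono {n n' : ℕ} (h : n ≤ n') : ∀ {m : Nm L}, Lev n m → Lev n' m
  | .a _, hm => le_trans (α := ℕ) hm h
  | .x _ _ _, _ => trivial
  | .d _ _ _, hm => fun i => Lev.mono h (hm i)

theorem exists_lev : ∀ m : Nm L, ∃ n, Lev n m
  | .a j => ⟨j, le_refl j⟩
  | .x _ _ _ => ⟨0, trivial⟩
  | .d k _ t => by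
    choose n hn using fun i => exists_lev (t i)
    exact ⟨Finset.univ.sup n, fun i => (hn i).mono (Finset.le_sup (f := n) (Finset.mem_univ i))⟩

/-- The rank of a name. -/
def rk : Nm L → ℕ
  | .a _ => 0
  | .x k t _ => 1 + Finset.univ.sup fun i : Fin k => rk (t i)
  | .d k _ t => 1 + Finset.univ.sup fun i : Fin k => rk (t i)

/-- `Occ p m`: the vertex name `p` is one of the leaves of `m`. -/
def Occ (p : Nm L) : Nm L → Prop
  | .a _ => False
  | .x k t f => p = .x k t f
  | .d _ _ t => ∃ i, Occ p (t i)

theorem Occ.rk_le {p : Nm L} : ∀ {m : Nm L}, Occ p m → rk p ≤ rk m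
  | .a _, h => h.elim
  | .x k t f, h => by
    have : p = .x k t f := h
    rw [this]
  | .d k φ t, h => by
    obtain ⟨i, hi⟩ := h
    have h1 := Occ.rk_le hi
    have h2 : rk (t i) ≤ Finset.univ.sup fun i : Fin k => rk (t i) :=
      Finset.le_sup (f := fun i : Fin k => rk (t i)) (Finset.mem_univ i)
    show rk p ≤ 1 + Finset.univ.sup fun i : Fin k => rk (t i)
    omega

theorem rk_lt {k : ℕ} (t : Fin k → Nm L) (f : Fin k → Prop) (i : Fin k) :
    rk (t i) < rk (.x k t f) := by
  have h2 : rk (t i) ≤ Finset.univ.sup fun i : Fin k => rk (t i) :=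
    Finset.le_sup (f := fun i : Fin k => rk (t i)) (Finset.mem_univ i)
  show rk (t i) < 1 + Finset.univ.sup fun i : Fin k => rk (t i)
  omega

theorem not_occ {k : ℕ} (t : Fin k → Nm L) (f : Fin k → Prop) (i : Fin k) :
    ¬ Occ (.x k t f) (t i) := fun h => by
  have h1 := h.rk_le
  have h2 := rk_lt t f i
  omega

end Nm

open Nm

section ev

variable (d : Data L) {N : Type} [L.Structure N] [Nonempty N]

/-- The value of the Skolem function of `φ`. -/
noncomputable def sk (k : ℕ) (φ : L.Formula (Fin k ⊕ Unit)) (v : Fin k → N) : N :=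
  Classical.epsilon fun y => (d.σ k φ).Realize (Sum.elim v fun _ => y)

/-- The value of a name. -/
noncomputable def ev (a : ℕ → N) (X : Nm L → N) : Nm L → N
  | .a j => a j
  | .x k t f => X (.x k t f)
  | .d k φ t => sk d k φ fun i => ev a X (t i)

variable {d} {T : L.Theory}

theorem sk_realize (hN : Base d T N) (k : ℕ) (φ : L.Formula (Fin k ⊕ Unit)) (v : Fin k → N) :
    (d.σ k φ).Realize (Sum.elim v fun _ => sk d k φ v) :=
  Classical.epsilon_spec (p := fun y => (d.σ k φ).Realize (Sum.elim v fun _ => y))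
    (hN.sk_unique k φ v).exists

theorem sk_eq (hN : Base d T N) {k : ℕ} {φ : L.Formula (Fin k ⊕ Unit)} {v : Fin k → N} {y : N}
    (h : (d.σ k φ).Realize (Sum.elim v fun _ => y)) : sk d k φ v = y :=
  (hN.sk_unique k φ v).unique (sk_realize hN k φ v) h

theorem ev_congr {a a' : ℕ → N} {X X' : Nm L → N} {n : ℕ} (ha : ∀ j ≤ n, a j = a' j) :
    ∀ {m : Nm L}, Lev n m → (∀ p, Occ p m → X p = X' p) → ev d a X m = ev d a' X' m
  | .a j, hm, _ => ha j hm
  | .x k t f, _, hX => hX _ rfl
  | .d k φ t, hm, hX => by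
    show sk d k φ _ = sk d k φ _
    congr 1
    funext i
    exact ev_congr ha (hm i) fun p hp => hX p ⟨i, hp⟩

variable (d) in
/-- The set of the values of the names of level `n`. -/
def KK (a : ℕ → N) (X : Nm L → N) (n : ℕ) : Set N := {y | ∃ m, Lev n m ∧ ev d a X m = y}

theorem KK_mono (a : ℕ → N) (X : Nm L → N) : Monotone (KK d a X) := by
  rintro n n' h y ⟨m, hm, rfl⟩
  exact ⟨m, hm.mono h, rfl⟩

theorem KK_meets (hN : Base d T N) (a : ℕ → N) (X : Nm L → N) (n : ℕ) :
    L.MeetsDefinable (KK d a X n) := by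
  intro D hD hdef
  obtain ⟨A₀, hA₀, hdef⟩ := Set.definable_iff_finitely_definable.1 hdef
  obtain ⟨φ, hφ⟩ := Set.definable_iff_exists_formula_sum.1 hdef
  have hφ' : ∀ y : N, y ∈ D ↔
      φ.Realize (Sum.elim (fun a : (A₀ : Set N) => (a : N)) fun _ => y) := by
    intro y
    exact Set.ext_iff.1 hφ fun _ => y
  let e := A₀.equivFin
  let ψ : L.Formula (Fin A₀.card ⊕ Unit) :=
    φ.relabel (Sum.map (fun x : (A₀ : Set N) => e ⟨x.1, x.2⟩) fun _ => ())
  have hψ : ∀ y : N, ψ.Realize (Sum.elim (fun i => ((e.symm i : A₀) : N)) fun _ => y) ↔ y ∈ D := by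
    intro y
    rw [hφ', Formula.realize_relabel]
    have : (Sum.elim (fun i => ((e.symm i : A₀) : N)) fun _ : Unit => y) ∘
        (Sum.map (fun x : (A₀ : Set N) => e ⟨x.1, x.2⟩) fun _ : Fin 1 => ()) =
        Sum.elim (fun a : (A₀ : Set N) => (a : N)) fun _ => y := by
      funext i
      rcases i with i | i
      · simp
      · rfl
    rw [this]
  have hname : ∀ i, ∃ m, Lev n m ∧ ev d a X m = ((e.symm i : A₀) : N) := fun i =>
    hA₀ (e.symm i).2
  choose t ht hev using hname
  obtain ⟨z, hz⟩ := hD
  refine ⟨ev d a X (.d _ ψ t), ?_, ⟨.d _ ψ t, ht, rfl⟩⟩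
  rw [← hψ]
  have h1 := sk_realize hN _ ψ fun i => ev d a X (t i)
  have h2 : (fun i => ev d a X (t i)) = fun i => ((e.symm i : A₀) : N) := funext hev
  show ψ.Realize (Sum.elim _ fun _ => sk d _ ψ fun i => ev d a X (t i))
  rw [h2] at h1 ⊢
  exact hN.sk_spec _ _ _ z _ ((hψ z).2 hz) h1

/-- Evaluation as a function of the value of one vertex name is definable. -/
theorem defFun_ev [DecidableEq (Nm L)] (hN : Base d T N) (a : ℕ → N) (X : Nm L → N) (p : Nm L)
    (n : ℕ) : ∀ {m : Nm L}, Lev n m →
      DefFun L (KK d a X n) fun y => ev d a (Function.update X p y) m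
  | .a j, hm => defFun_const (A := KK d a X n) (⟨.a j, hm, rfl⟩ : a j ∈ KK d a X n)
  | .x k t f, _ => by
    by_cases hp : .x k t f = p
    · have : (fun y => ev d a (Function.update X p y) (.x k t f)) = fun y => y := by
        funext y
        show Function.update X p y (.x k t f) = y
        rw [hp, Function.update_self]
      rw [this]
      exact defFun_proj (A := KK d a X n) ()
    · have : (fun y => ev d a (Function.update X p y) (.x k t f)) = fun _ => X (.x k t f) := by
        funext y
        show Function.update X p y (.x k t f) = X (.x k t f)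
        rw [Function.update_of_ne hp]
      rw [this]
      exact defFun_const (A := KK d a X n) (⟨.x k t f, trivial, rfl⟩ : X (.x k t f) ∈ KK d a X n)
  | .d k φ t, hm => by
    have ih : ∀ i, DefFun L (KK d a X n) fun y => ev d a (Function.update X p y) (t i) :=
      fun i => defFun_ev hN a X p n (hm i)
    have hmap : (KK d a X n).DefinableMap L (fun (w : Option Unit → N) (i : Fin k ⊕ Unit) =>
        Sum.elim (fun i => ev d a (Function.update X p (w (some ()))) (t i))
          (fun _ => w none) i) := by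
      rintro (i | i)
      · exact (ih i).comp (defFun_proj (some ()))
      · exact defFun_proj none
    have h := (def_formula (A := KK d a X n) (d.σ k φ)).preimage_map hmap
    show (KK d a X n).Definable L (Function.tupleGraph _)
    convert h using 1
    ext w
    simp only [Function.tupleGraph, mem_preimage, mem_ofPred_eq, Function.comp_apply]
    constructor
    · intro hw
      have h1 := sk_realize hN k φ fun i => ev d a (Function.update X p (w (some ()))) (t i)
      have h2 : sk d k φ (fun i => ev d a (Function.update X p (w (some ()))) (t i)) = w none := hw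
      rw [h2] at h1
      convert h1 using 1
    · intro hw
      refine sk_eq hN ?_
      convert hw using 1

end ev

/-- A configuration: a structure with the elements `a n` and values of the vertex names. -/
structure Cfg (d : Data L) (T : L.Theory) where
  N : Type
  [str : L.Structure N]
  [ne : Nonempty N]
  base : Base d T N
  a : ℕ → N
  X : Nm L → N

attribute [instance] Cfg.str Cfg.ne

/-- The conditions imposed on configurations. -/
inductive Cond (L : FirstOrder.Language.{0, 0}) : Type
  | link : ℕ → Cond L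
  | avoid : ℕ → Nm L → Cond L
  | sat : (k : ℕ) → (Fin k → Nm L) → (Fin k → Prop) → Cond L

/-- The meaning of the conditions. -/
def Holds {d : Data L} {T : L.Theory} (c : Cfg d T) : Cond L → Prop
  | .link n => d.E n (c.a n) (c.a (n + 1))
  | .avoid n m => Lev n m → ¬ d.E (n + 1) (ev d c.a c.X m) (c.a (n + 1))
  | .sat k t f => (∀ s, d.V (ev d c.a c.X (t s))) →
      (∀ s s', f s → ¬ f s' → ¬ d.Q (ev d c.a c.X (t s)) (ev d c.a c.X (t s'))) →
      d.V (c.X (.x k t f)) ∧ ∀ s, (d.R (c.X (.x k t f)) (ev d c.a c.X (t s)) ↔ f s) ∧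
        ¬ d.Q (c.X (.x k t f)) (ev d c.a c.X (t s))

end Pool.Agent.Lib.MP_491b55_lc.Core
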