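import Pool.Agent.Lib.MP_491b55_lc.Defs

/-!
# Existence of saturated elementary extensions

For a regular cardinal `κ > ℵ₀`, every structure has a `κ`-saturated elementary extension: a limit
ultrapower along a well-order of type `κ`.
-/

set_option autoImplicit false

open FirstOrder FirstOrder.Language Filter

namespace Pool.Agent.Lib.MP_491b55_lc.Sat

variable {Λ I : Type} [LinearOrder Λ]

/-- `Det α h`: the value of `h` at `ω : Λ → I` is determined by reading finitely many coordinates
below `α`, in descending order. -/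
inductive Det {Y : Type} : Λ → ((Λ → I) → Y) → Prop
  | const (α : Λ) (y : Y) : Det α fun _ => y
  | node (α β : Λ) (hβ : β < α) (g : I → (Λ → I) → Y) (hg : ∀ i, Det β (g i)) :
      Det α fun ω => g (ω β) ω

theorem Det.mono {Y : Type} {α α' : Λ} {h : (Λ → I) → Y} (hd : Det α h) (hα : α ≤ α') :
    Det α' h := by
  cases hd with
  | const => exact Det.const _ _
  | node _ β hβ g hg => exact Det.node _ β (hβ.trans_le hα) g hg

theorem Det.map {Y Z : Type} (F : Y → Z) {α : Λ} {h : (Λ → I) → Y} (hd : Det α h) :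
    Det α fun ω => F (h ω) := by
  induction hd with
  | const α y => exact Det.const _ _
  | node α β hβ g hg ih => exact Det.node α β hβ (fun i ω => F (g i ω)) ih

theorem Det.agree {Y : Type} {α : Λ} {h : (Λ → I) → Y} (hd : Det α h) :
    ∀ ω ω' : Λ → I, (∀ γ < α, ω γ = ω' γ) → h ω = h ω' := by
  induction hd with
  | const α y => intros; rfl
  | node α β hβ g hg ih =>
    intro ω ω' h
    simp only
    rw [h β hβ]
    exact ih _ ω ω' fun γ hγ => h γ (hγ.trans hβ)

theorem Det.pair [WellFoundedLT Λ] {Y Z : Type} (α : Λ) :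
    ∀ (h : (Λ → I) → Y) (h' : (Λ → I) → Z), Det α h → Det α h' → Det α fun ω => (h ω, h' ω) := by
  induction α using WellFoundedLT.induction with
  | _ α IH =>
    intro h h' hd hd'
    cases hd with
    | const _ y => exact hd'.map fun z => (y, z)
    | node _ β hβ g hg =>
      cases hd' with
      | const _ z => exact (Det.node α β hβ g hg).map fun y => (y, z)
      | node _ β' hβ' g' hg' =>
        rcases lt_trichotomy β β' with hlt | rfl | hlt
        · exact Det.node α β' hβ' (fun i ω => (g (ω β) ω, g' i ω)) fun i =>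
            IH β' hβ' _ _ (Det.node β' β hlt g hg) (hg' i)
        · exact Det.node α β hβ (fun i ω => (g i ω, g' i ω)) fun i => IH β hβ _ _ (hg i) (hg' i)
        · exact Det.node α β hβ (fun i ω => (g i ω, g' (ω β') ω)) fun i =>
            IH β hβ _ _ (hg i) (Det.node β β' hlt g' hg')

theorem Det.pi [WellFoundedLT Λ] {Y : Type} {α : Λ} {κ : Type} [Finite κ]
    (h : κ → (Λ → I) → Y) (hd : ∀ k, Det α (h k)) : Det α fun ω k => h k ω := by
  have key : ∀ n : ℕ, ∀ h : Fin n → (Λ → I) → Y, (∀ k, Det α (h k)) →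
      Det α fun ω k => h k ω := by
    intro n
    induction n with
    | zero =>
      intro h _
      have : (fun (ω : Λ → I) (k : Fin 0) => h k ω) = fun _ => fun k => k.elim0 := by
        funext ω k; exact k.elim0
      rw [this]
      exact Det.const _ _
    | succ n ih =>
      intro h hd
      have := Det.pair α _ _ (hd 0) (ih (fun k => h k.succ) fun k => hd k.succ)
      have h2 := this.map fun p : Y × (Fin n → Y) => (Fin.cons p.1 p.2 : Fin (n + 1) → Y)
      have e : (fun ω : Λ → I => (Fin.cons (h 0 ω) (fun k : Fin n => h k.succ ω) :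
          Fin (n + 1) → Y)) = fun ω k => h k ω := by
        funext ω k
        refine Fin.cases ?_ (fun k => ?_) k <;> simp
      rw [← e]
      exact h2
  obtain ⟨n, ⟨e⟩⟩ := Finite.exists_equiv_fin κ
  have := key n (fun k => h (e.symm k)) fun k => hd _
  have h2 := this.map fun (v : Fin n → Y) (k : κ) => v (e k)
  simpa using h2

variable (𝒰 : Ultrafilter I)

/-- The sets of iterated measure one. -/
inductive Big : Λ → Set (Λ → I) → Prop
  | univ (α : Λ) : Big α Set.univ
  | node (α β : Λ) (hβ : β < α) (g : I → Set (Λ → I)) (hg : ∀ i, Det β fun ω => ω ∈ g i)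
      (S : Set I) (hS : S ∈ 𝒰) (h : ∀ i ∈ S, Big β (g i)) : Big α {ω | ω ∈ g (ω β)}

variable {𝒰}

theorem Big.mono {α α' : Λ} {X : Set (Λ → I)} (h : Big 𝒰 α X) (hα : α ≤ α') : Big 𝒰 α' X := by
  cases h with
  | univ => exact Big.univ _
  | node _ β hβ g hg S hS h => exact Big.node _ β (hβ.trans_le hα) g hg S hS h

theorem Big.det {α : Λ} {X : Set (Λ → I)} (h : Big 𝒰 α X) : Det α fun ω => ω ∈ X := by
  cases h with
  | univ => exact Det.const α True
  | node _ β hβ g hg S hS h => exact Det.node α β hβ (fun i ω => ω ∈ g i) hg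

theorem Big.inter [WellFoundedLT Λ] (α : Λ) :
    ∀ X X' : Set (Λ → I), Big 𝒰 α X → Big 𝒰 α X' → Big 𝒰 α (X ∩ X') := by
  induction α using WellFoundedLT.induction with
  | _ α IH =>
    intro X X' h h'
    have hand : ∀ {β : Λ} {A B : Set (Λ → I)}, Det β (fun ω => ω ∈ A) →
        Det β (fun ω => ω ∈ B) → Det β fun ω => ω ∈ A ∩ B := fun hA hB =>
      (Det.pair _ _ _ hA hB).map fun p : Prop × Prop => p.1 ∧ p.2
    cases h with
    | univ => rwa [Set.univ_inter]
    | node _ β hβ g hg S hS h =>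
      cases h' with
      | univ => rw [Set.inter_univ]; exact Big.node α β hβ g hg S hS h
      | node _ β' hβ' g' hg' S' hS' h' =>
        rcases lt_trichotomy β β' with hlt | rfl | hlt
        · have hX : Big 𝒰 β' {ω : Λ → I | ω ∈ g (ω β)} := Big.node β' β hlt g hg S hS h
          exact Big.node α β' hβ' (fun i => {ω : Λ → I | ω ∈ g (ω β)} ∩ g' i)
            (fun i => hand hX.det (hg' i)) S' hS' fun i hi => IH β' hβ' _ _ hX (h' i hi)
        · exact Big.node α β hβ (fun i => g i ∩ g' i) (fun i => hand (hg i) (hg' i)) (S ∩ S')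
            (inter_mem hS hS') fun i hi => IH β hβ _ _ (h i hi.1) (h' i hi.2)
        · have hX : Big 𝒰 β {ω : Λ → I | ω ∈ g' (ω β')} := Big.node β β' hlt g' hg' S' hS' h'
          exact Big.node α β hβ (fun i => g i ∩ {ω : Λ → I | ω ∈ g' (ω β')})
            (fun i => hand (hg i) hX.det) S hS fun i hi => IH β hβ _ _ (h i hi) hX

theorem Big.nonempty [Nonempty I] {α : Λ} {X : Set (Λ → I)} (h : Big 𝒰 α X) : X.Nonempty := by
  classical
  induction h with
  | univ => exact ⟨fun _ => Classical.arbitrary I, trivial⟩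
  | node α β hβ g hg S hS h ih =>
    obtain ⟨i, hi⟩ := 𝒰.nonempty_of_mem hS
    obtain ⟨ω, hω⟩ := ih i hi
    refine ⟨Function.update ω β i, ?_⟩
    show Function.update ω β i ∈ g (Function.update ω β i β)
    rw [Function.update_self]
    have := (hg i).agree (Function.update ω β i) ω fun γ hγ =>
      Function.update_of_ne hγ.ne _ _
    rw [eq_iff_iff] at this
    exact this.2 hω

theorem Det.big_or {α : Λ} {X : Set (Λ → I)} (h : Det α fun ω => ω ∈ X) :
    Big 𝒰 α X ∨ Big 𝒰 α Xᶜ := by
  have key : ∀ {α : Λ} {h : (Λ → I) → Prop}, Det α h →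
      Big 𝒰 α {ω | h ω} ∨ Big 𝒰 α {ω | ¬ h ω} := by
    intro α h hd
    induction hd with
    | const α y =>
      by_cases hy : y
      · left
        simp only [hy]
        exact Big.univ α
      · right
        simp only [hy, not_false_eq_true]
        exact Big.univ α
    | node α β hβ g hg ih =>
      rcases (𝒰.em fun i => Big 𝒰 β {ω | g i ω}) with h | h
      · left
        exact Big.node α β hβ (fun i => {ω | g i ω}) hg _ h fun i hi => hi
      · right
        refine Big.node α β hβ (fun i => {ω | ¬ g i ω}) (fun i => (hg i).map Not) _ h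
          fun i hi => ?_
        exact (ih i).resolve_left hi
  exact key h

/-- There is an ultrafilter on `Λ → I` containing all sets of iterated measure one. -/
theorem exists_ultrafilter [WellFoundedLT Λ] [Nonempty I] [Nonempty Λ] (𝒰 : Ultrafilter I) :
    ∃ 𝒱 : Ultrafilter (Λ → I), ∀ (α : Λ) (X : Set (Λ → I)), Big 𝒰 α X → X ∈ 𝒱 := by
  let 𝓕 : Filter (Λ → I) :=
    { sets := {X | ∃ (α : Λ) (Y : Set (Λ → I)), Big 𝒰 α Y ∧ Y ⊆ X}
      univ_sets := ⟨Classical.arbitrary Λ, Set.univ, Big.univ _, fun _ _ => trivial⟩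
      sets_of_superset := fun ⟨α, Y, hY, h⟩ h' => ⟨α, Y, hY, h.trans h'⟩
      inter_sets := fun ⟨α, Y, hY, h⟩ ⟨α', Y', hY', h'⟩ =>
        ⟨max α α', Y ∩ Y', Big.inter _ _ _ (hY.mono (le_max_left _ _))
          (hY'.mono (le_max_right _ _)), Set.inter_subset_inter h h'⟩ }
  have hne : 𝓕.NeBot := by
    refine ⟨fun h => ?_⟩
    have : (∅ : Set (Λ → I)) ∈ 𝓕 := by rw [h]; exact mem_bot
    obtain ⟨α, Y, hY, h⟩ := this
    obtain ⟨ω, hω⟩ := hY.nonempty
    exact h hω
  refine ⟨Ultrafilter.of 𝓕, fun α X hX => Ultrafilter.of_le 𝓕 ?_⟩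
  exact ⟨α, X, hX, subset_rfl⟩

/-- The key property of such an ultrafilter. -/
theorem mem_of_node {𝒱 : Ultrafilter (Λ → I)}
    (h𝒱 : ∀ (α : Λ) (X : Set (Λ → I)), Big 𝒰 α X → X ∈ 𝒱) {α β : Λ} (hβ : β < α)
    (g : I → Set (Λ → I)) (hg : ∀ i, Det β fun ω => ω ∈ g i) (S : Set I) (hS : S ∈ 𝒰)
    (h : ∀ i ∈ S, g i ∈ 𝒱) : {ω : Λ → I | ω ∈ g (ω β)} ∈ 𝒱 := by
  refine h𝒱 α _ (Big.node α β hβ g hg S hS fun i hi => ?_)
  refine ((hg i).big_or).resolve_right fun h' => ?_
  have h1 := h𝒱 β _ h'
  exact (Ultrafilter.compl_mem_iff_notMem.1 h1) (h i hi)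

end Pool.Agent.Lib.MP_491b55_lc.Sat
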